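import Mathlib

/-!
Finite product measures on the subsets of a finite set: expectations, independence,
positive association and the derivative formula.
-/

namespace H99L

open Finset

/-- Indicator of a proposition, as a real number. -/
noncomputable def ind (P : Prop) : ℝ := by
  classical exact if P then 1 else 0

theorem ind_of {P : Prop} (h : P) : ind P = 1 := by simp [ind, h]

theorem ind_not_of {P : Prop} (h : ¬ P) : ind P = 0 := by simp [ind, h]

theorem ind_nonneg (P : Prop) : 0 ≤ ind P := by
  by_cases h : P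
  · rw [ind_of h]; norm_num
  · rw [ind_not_of h]

theorem ind_le_one (P : Prop) : ind P ≤ 1 := by
  by_cases h : P
  · rw [ind_of h]
  · rw [ind_not_of h]; norm_num

theorem ind_mono {P Q : Prop} (h : P → Q) : ind P ≤ ind Q := by
  by_cases hP : P
  · rw [ind_of hP, ind_of (h hP)]
  · rw [ind_not_of hP]; exact ind_nonneg Q

theorem ind_congr {P Q : Prop} (h : P ↔ Q) : ind P = ind Q := by
  rw [propext h]

theorem ind_and (P Q : Prop) : ind (P ∧ Q) = ind P * ind Q := by
  by_cases hP : P <;> by_cases hQ : Q <;> simp [ind, hP, hQ]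

theorem ind_not (P : Prop) : ind (¬ P) = 1 - ind P := by
  by_cases hP : P <;> simp [ind, hP]

theorem ind_or_le (P Q : Prop) : ind (P ∨ Q) ≤ ind P + ind Q := by
  by_cases hP : P <;> by_cases hQ : Q <;> simp [ind, hP, hQ]

theorem ind_sq (P : Prop) : ind P * ind P = ind P := by
  by_cases hP : P <;> simp [ind, hP]

variable {E : Type*} [DecidableEq E]

/-- Expectation of `f` over a random subset of `S` in which the elements `e` of `S` are present
independently with probabilities `p e`. -/
noncomputable def Ex (p : E → ℝ) (S : Finset E) (f : Finset E → ℝ) : ℝ :=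
  ∑ F ∈ S.powerset, (∏ e ∈ F, p e) * (∏ e ∈ S \ F, (1 - p e)) * f F

/-- Probability of an event. -/
noncomputable def Pr (p : E → ℝ) (S : Finset E) (A : Finset E → Prop) : ℝ :=
  Ex p S (fun F => ind (A F))

theorem Ex_empty (p : E → ℝ) (f : Finset E → ℝ) : Ex p ∅ f = f ∅ := by
  simp [Ex]

theorem Ex_insert (p : E → ℝ) {a : E} {S : Finset E} (ha : a ∉ S) (f : Finset E → ℝ) :
    Ex p (insert a S) f =
      p a * Ex p S (fun F => f (insert a F)) + (1 - p a) * Ex p S f := by
  unfold Ex
  rw [Finset.sum_powerset_insert ha, Finset.mul_sum, Finset.mul_sum, add_comm]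
  congr 1
  · apply Finset.sum_congr rfl
    intro F hF
    have hFS := Finset.mem_powerset.mp hF
    have haF : a ∉ F := fun h => ha (hFS h)
    rw [Finset.prod_insert haF]
    have : insert a S \ insert a F = S \ F := by
      ext x
      simp only [Finset.mem_sdiff, Finset.mem_insert]
      constructor
      · rintro ⟨h1, h2⟩
        push Not at h2
        rcases h1 with h1 | h1
        · exact absurd h1 h2.1
        · exact ⟨h1, h2.2⟩
      · rintro ⟨h1, h2⟩
        refine ⟨Or.inr h1, ?_⟩
        push Not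
        exact ⟨fun h => ha (h ▸ h1), h2⟩
    rw [this]
    ring
  · apply Finset.sum_congr rfl
    intro F hF
    have hFS := Finset.mem_powerset.mp hF
    have haF : a ∉ F := fun h => ha (hFS h)
    have : insert a S \ F = insert a (S \ F) := by
      rw [Finset.insert_sdiff_of_notMem _ haF]
    rw [this, Finset.prod_insert (by simp [ha])]
    ring

theorem Ex_congr {p : E → ℝ} {S : Finset E} {f g : Finset E → ℝ}
    (h : ∀ F, F ⊆ S → f F = g F) : Ex p S f = Ex p S g := by
  unfold Ex
  apply Finset.sum_congr rfl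
  intro F hF
  rw [h F (Finset.mem_powerset.mp hF)]

theorem Ex_add (p : E → ℝ) (S : Finset E) (f g : Finset E → ℝ) :
    Ex p S (fun F => f F + g F) = Ex p S f + Ex p S g := by
  unfold Ex
  rw [← Finset.sum_add_distrib]
  apply Finset.sum_congr rfl
  intros; ring

theorem Ex_sub (p : E → ℝ) (S : Finset E) (f g : Finset E → ℝ) :
    Ex p S (fun F => f F - g F) = Ex p S f - Ex p S g := by
  unfold Ex
  rw [← Finset.sum_sub_distrib]
  apply Finset.sum_congr rfl
  intros; ring

theorem Ex_mul_left (p : E → ℝ) (S : Finset E) (c : ℝ) (f : Finset E → ℝ) :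
    Ex p S (fun F => c * f F) = c * Ex p S f := by
  unfold Ex
  rw [Finset.mul_sum]
  apply Finset.sum_congr rfl
  intros; ring

theorem Ex_mul_right (p : E → ℝ) (S : Finset E) (c : ℝ) (f : Finset E → ℝ) :
    Ex p S (fun F => f F * c) = Ex p S f * c := by
  unfold Ex
  rw [Finset.sum_mul]
  apply Finset.sum_congr rfl
  intros; ring

theorem Ex_sum (p : E → ℝ) (S : Finset E) {ι : Type*} (T : Finset ι) (f : ι → Finset E → ℝ) :
    Ex p S (fun F => ∑ i ∈ T, f i F) = ∑ i ∈ T, Ex p S (f i) := by
  unfold Ex
  rw [Finset.sum_comm]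
  apply Finset.sum_congr rfl
  intro F _
  rw [Finset.mul_sum]

theorem Ex_const (p : E → ℝ) (S : Finset E) (c : ℝ) : Ex p S (fun _ => c) = c := by
  induction S using Finset.induction_on with
  | empty => simp [Ex_empty]
  | insert a S ha ih => rw [Ex_insert p ha, ih]; ring

/-- Admissible probabilities. -/
def Ok (p : E → ℝ) : Prop := ∀ e, 0 ≤ p e ∧ p e ≤ 1

theorem Ex_mono {p : E → ℝ} (hp : Ok p) {S : Finset E} {f g : Finset E → ℝ}
    (h : ∀ F, F ⊆ S → f F ≤ g F) : Ex p S f ≤ Ex p S g := by
  unfold Ex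
  apply Finset.sum_le_sum
  intro F hF
  apply mul_le_mul_of_nonneg_left (h F (Finset.mem_powerset.mp hF))
  apply mul_nonneg
  · exact Finset.prod_nonneg (fun e _ => (hp e).1)
  · exact Finset.prod_nonneg (fun e _ => by linarith [(hp e).2])

theorem Ex_nonneg {p : E → ℝ} (hp : Ok p) {S : Finset E} {f : Finset E → ℝ}
    (h : ∀ F, F ⊆ S → 0 ≤ f F) : 0 ≤ Ex p S f := by
  have := Ex_mono hp (S := S) (f := fun _ => (0:ℝ)) (g := f) h
  rwa [Ex_const] at this

theorem Ex_le_of_le {p : E → ℝ} (hp : Ok p) {S : Finset E} {f : Finset E → ℝ} {c : ℝ}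
    (h : ∀ F, F ⊆ S → f F ≤ c) : Ex p S f ≤ c := by
  have := Ex_mono hp (S := S) (f := f) (g := fun _ => c) h
  rwa [Ex_const] at this

theorem Ex_union {p : E → ℝ} {S T : Finset E} (hd : Disjoint S T) (f : Finset E → ℝ) :
    Ex p (S ∪ T) f = Ex p S (fun A => Ex p T (fun B => f (A ∪ B))) := by
  induction S using Finset.induction_on generalizing f with
  | empty => simp [Ex_empty]
  | insert a S ha ih =>
    rw [Finset.disjoint_insert_left] at hd
    rw [Finset.insert_union, Ex_insert p (by simp [ha, hd.1]), Ex_insert p ha,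
      ih hd.2, ih hd.2]
    simp only [Finset.insert_union]

/-- A function which only looks at `S'`. -/
def DepOn (S' : Finset E) (f : Finset E → ℝ) : Prop := ∀ F, f F = f (F ∩ S')

theorem Ex_local {p : E → ℝ} {S S' : Finset E} (hS : S' ⊆ S) {f : Finset E → ℝ}
    (hf : ∀ F, F ⊆ S → f F = f (F ∩ S')) : Ex p S f = Ex p S' f := by
  have h1 : S = S' ∪ (S \ S') := by rw [Finset.union_sdiff_of_subset hS]
  have hd : Disjoint S' (S \ S') := Finset.disjoint_sdiff
  conv_lhs => rw [h1]
  rw [Ex_union hd]
  apply Ex_congr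
  intro A hA
  have : ∀ B, B ⊆ S \ S' → f (A ∪ B) = f A := by
    intro B hB
    rw [hf (A ∪ B) (Finset.union_subset (hA.trans hS) (hB.trans Finset.sdiff_subset)),
      hf A (hA.trans hS)]
    congr 1
    ext x
    simp only [Finset.mem_inter, Finset.mem_union]
    constructor
    · rintro ⟨h | h, h2⟩
      · exact ⟨h, h2⟩
      · exact absurd h2 (Finset.mem_sdiff.mp (hB h)).2
    · rintro ⟨h, h2⟩
      exact ⟨Or.inl h, h2⟩
  rw [Ex_congr this, Ex_const]

theorem Ex_mul_indep {p : E → ℝ} {U S T : Finset E} (hS : S ⊆ U) (hT : T ⊆ U)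
    (hd : Disjoint S T) {f g : Finset E → ℝ}
    (hf : ∀ F, F ⊆ U → f F = f (F ∩ S)) (hg : ∀ F, F ⊆ U → g F = g (F ∩ T)) :
    Ex p U (fun F => f F * g F) = Ex p U f * Ex p U g := by
  rw [Ex_local hS hf, Ex_local hT hg]
  have hST : S ∪ T ⊆ U := Finset.union_subset hS hT
  rw [Ex_local (S := U) (S' := S ∪ T) hST]
  · rw [Ex_union hd]
    have : ∀ A, A ⊆ S → Ex p T (fun B => f (A ∪ B) * g (A ∪ B)) = f A * Ex p T g := by
      intro A hA
      rw [← Ex_mul_left]
      apply Ex_congr
      intro B hB
      have hU : A ∪ B ⊆ U := Finset.union_subset (hA.trans hS) (hB.trans hT)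
      rw [hf _ hU, hg _ hU, hf A (hA.trans hS), hg B (hB.trans hT)]
      have e1 : (A ∪ B) ∩ S = A ∩ S := by
        ext x
        simp only [Finset.mem_inter, Finset.mem_union]
        constructor
        · rintro ⟨h | h, h2⟩
          · exact ⟨h, h2⟩
          · exact absurd h2 (fun h3 => (Finset.disjoint_left.mp hd) h3 (hB h))
        · rintro ⟨h, h2⟩
          exact ⟨Or.inl h, h2⟩
      have e2 : (A ∪ B) ∩ T = B ∩ T := by
        ext x
        simp only [Finset.mem_inter, Finset.mem_union]
        constructor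
        · rintro ⟨h | h, h2⟩
          · exact absurd h2 (fun h3 => (Finset.disjoint_left.mp hd) (hA h) h3)
          · exact ⟨h, h2⟩
        · rintro ⟨h, h2⟩
          exact ⟨Or.inr h, h2⟩
      rw [e1, e2]
    rw [Ex_congr this, Ex_mul_right]
  · intro F hF
    have e1 : F ∩ (S ∪ T) ∩ S = F ∩ S := by
      ext x; simp only [Finset.mem_inter, Finset.mem_union]; tauto
    have e2 : F ∩ (S ∪ T) ∩ T = F ∩ T := by
      ext x; simp only [Finset.mem_inter, Finset.mem_union]; tauto
    have hU : F ∩ (S ∪ T) ⊆ U := (Finset.inter_subset_left).trans hF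
    rw [hf F hF, hg F hF, hf _ hU, hg _ hU, e1, e2]

theorem Ex_map {E' : Type*} [DecidableEq E'] (p : E' → ℝ) (φ : E ↪ E') (S : Finset E)
    (f : Finset E' → ℝ) :
    Ex p (S.map φ) f = Ex (fun e => p (φ e)) S (fun F => f (F.map φ)) := by
  induction S using Finset.induction_on generalizing f with
  | empty => simp [Ex_empty]
  | insert a S ha ih =>
    rw [Finset.map_insert, Ex_insert p (by simpa using ha), Ex_insert _ ha, ih, ih]
    simp only [Finset.map_insert]

theorem Ex_compl (p : E → ℝ) (S : Finset E) (f : Finset E → ℝ) :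
    Ex (fun e => 1 - p e) S f = Ex p S (fun F => f (S \ F)) := by
  induction S using Finset.induction_on generalizing f with
  | empty => simp [Ex_empty]
  | insert a S ha ih =>
    rw [Ex_insert _ ha, Ex_insert p ha, ih, ih]
    have h1 : Ex p S (fun F => f (insert a S \ insert a F)) = Ex p S (fun F => f (S \ F)) := by
      apply Ex_congr
      intro F hF
      congr 1
      ext x
      simp only [Finset.mem_sdiff, Finset.mem_insert]
      constructor
      · rintro ⟨h1, h2⟩
        push Not at h2
        rcases h1 with h1 | h1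
        · exact absurd h1 h2.1
        · exact ⟨h1, h2.2⟩
      · rintro ⟨h1, h2⟩
        refine ⟨Or.inr h1, ?_⟩
        push Not
        exact ⟨fun h => ha (h ▸ h1), h2⟩
    have h2 : Ex p S (fun F => f (insert a S \ F)) = Ex p S (fun F => f (insert a (S \ F))) := by
      apply Ex_congr
      intro F hF
      congr 1
      exact Finset.insert_sdiff_of_notMem _ (fun h => ha (hF h))
    rw [h1, h2]
    ring

/-- Increasing functions on the subsets of `S`. -/
def Incr (S : Finset E) (f : Finset E → ℝ) : Prop :=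
  ∀ A B, A ⊆ B → B ⊆ S → f A ≤ f B

/-- Harris' inequality. -/
theorem harris {p : E → ℝ} (hp : Ok p) {S : Finset E} {f g : Finset E → ℝ}
    (hf : Incr S f) (hg : Incr S g) :
    Ex p S f * Ex p S g ≤ Ex p S (fun F => f F * g F) := by
  induction S using Finset.induction_on generalizing f g with
  | empty => simp [Ex_empty]
  | insert a S ha ih =>
    rw [Ex_insert p ha, Ex_insert p ha, Ex_insert p ha]
    have hf0 : Incr S f := fun A B h1 h2 => hf A B h1 (h2.trans (Finset.subset_insert _ _))
    have hg0 : Incr S g := fun A B h1 h2 => hg A B h1 (h2.trans (Finset.subset_insert _ _))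
    have hf1 : Incr S (fun F => f (insert a F)) := fun A B h1 h2 =>
      hf _ _ (Finset.insert_subset_insert _ h1) (Finset.insert_subset_insert _ h2)
    have hg1 : Incr S (fun F => g (insert a F)) := fun A B h1 h2 =>
      hg _ _ (Finset.insert_subset_insert _ h1) (Finset.insert_subset_insert _ h2)
    have i0 := ih hf0 hg0
    have i1 := ih hf1 hg1
    have df : Ex p S f ≤ Ex p S (fun F => f (insert a F)) := Ex_mono hp (fun F hF =>
      hf _ _ (Finset.subset_insert _ _) (Finset.insert_subset_insert _ hF))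
    have dg : Ex p S g ≤ Ex p S (fun F => g (insert a F)) := Ex_mono hp (fun F hF =>
      hg _ _ (Finset.subset_insert _ _) (Finset.insert_subset_insert _ hF))
    obtain ⟨h0, h1⟩ := hp a
    set f0 := Ex p S f
    set f1 := Ex p S (fun F => f (insert a F))
    set g0 := Ex p S g
    set g1 := Ex p S (fun F => g (insert a F))
    set c0 := Ex p S (fun F => f F * g F)
    set c1 := Ex p S (fun F => f (insert a F) * g (insert a F))
    have k : 0 ≤ p a * (1 - p a) * ((f1 - f0) * (g1 - g0)) := by
      apply mul_nonneg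
      · exact mul_nonneg h0 (by linarith)
      · exact mul_nonneg (by linarith) (by linarith)
    have e1 : p a * (f1 * g1) ≤ p a * c1 := mul_le_mul_of_nonneg_left i1 h0
    have e0 : (1 - p a) * (f0 * g0) ≤ (1 - p a) * c0 :=
      mul_le_mul_of_nonneg_left i0 (by linarith)
    nlinarith [k, e1, e0]

/-- Derivative of an expectation. -/
theorem Ex_hasDerivAt (P : ℝ → E → ℝ) (P' : E → ℝ) (q : ℝ)
    (hP : ∀ e, HasDerivAt (fun q => P q e) (P' e) q) (S : Finset E) (f : Finset E → ℝ) :
    HasDerivAt (fun q => Ex (P q) S f)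
      (∑ e ∈ S, P' e * Ex (P q) (S.erase e) (fun F => f (insert e F) - f F)) q := by
  induction S using Finset.induction_on generalizing f with
  | empty => simpa [Ex_empty] using hasDerivAt_const q (f ∅)
  | insert a S ha ih =>
    have h1 := ih (fun F => f (insert a F))
    have h0 := ih f
    have ha' := hP a
    have hfun : (fun q => Ex (P q) (insert a S) f) = fun q =>
        P q a * Ex (P q) S (fun F => f (insert a F)) + (1 - P q a) * Ex (P q) S f := by
      funext q
      rw [Ex_insert _ ha]
    rw [hfun]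
    have hd := (ha'.mul h1).add (((hasDerivAt_const q (1:ℝ)).sub ha').mul h0)
    have e1 : (insert a S).erase a = S := Finset.erase_insert ha
    have e2 : ∀ e ∈ S, P' e * Ex (P q) ((insert a S).erase e) (fun F => f (insert e F) - f F)
        = P q a * (P' e * Ex (P q) (S.erase e)
            (fun F => f (insert a (insert e F)) - f (insert a F)))
          + (1 - P q a) * (P' e * Ex (P q) (S.erase e) (fun F => f (insert e F) - f F)) := by
      intro e he
      have hne : a ≠ e := fun h => ha (h ▸ he)
      rw [Finset.erase_insert_of_ne hne, Ex_insert _ (by simp [ha])]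
      have : Ex (P q) (S.erase e) (fun F => f (insert e (insert a F)) - f (insert a F))
          = Ex (P q) (S.erase e) (fun F => f (insert a (insert e F)) - f (insert a F)) := by
        apply Ex_congr
        intro F _
        rw [Finset.insert_comm]
      rw [this]
      ring
    have key : (∑ e ∈ insert a S,
        P' e * Ex (P q) ((insert a S).erase e) (fun F => f (insert e F) - f F))
        = (P' a * Ex (P q) S (fun F => f (insert a F)) +
            P q a * ∑ e ∈ S, P' e * Ex (P q) (S.erase e)
              (fun F => f (insert a (insert e F)) - f (insert a F))) +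
          ((0 - P' a) * Ex (P q) S f +
            (1 - P q a) * ∑ e ∈ S, P' e * Ex (P q) (S.erase e)
              (fun F => f (insert e F) - f F)) := by
      rw [Finset.sum_insert ha, e1, Ex_sub, Finset.sum_congr rfl e2, Finset.sum_add_distrib,
        ← Finset.mul_sum, ← Finset.mul_sum]
      ring
    rw [key]
    exact hd

/-! ### Probabilities -/

theorem Pr_nonneg {p : E → ℝ} (hp : Ok p) (S : Finset E) (A : Finset E → Prop) :
    0 ≤ Pr p S A := Ex_nonneg hp (fun _ _ => ind_nonneg _)

theorem Pr_le_one {p : E → ℝ} (hp : Ok p) (S : Finset E) (A : Finset E → Prop) :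
    Pr p S A ≤ 1 := Ex_le_of_le hp (fun _ _ => ind_le_one _)

theorem Pr_mono {p : E → ℝ} (hp : Ok p) {S : Finset E} {A B : Finset E → Prop}
    (h : ∀ F, F ⊆ S → A F → B F) : Pr p S A ≤ Pr p S B :=
  Ex_mono hp (fun F hF => ind_mono (h F hF))

theorem Pr_congr {p : E → ℝ} {S : Finset E} {A B : Finset E → Prop}
    (h : ∀ F, F ⊆ S → (A F ↔ B F)) : Pr p S A = Pr p S B :=
  Ex_congr (fun F hF => ind_congr (h F hF))

theorem Pr_not {p : E → ℝ} (S : Finset E) (A : Finset E → Prop) :
    Pr p S (fun F => ¬ A F) = 1 - Pr p S A := by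
  unfold Pr
  rw [Ex_congr (g := fun F => 1 - ind (A F)) (fun F _ => ind_not _), Ex_sub, Ex_const]

theorem Pr_or_le {p : E → ℝ} (hp : Ok p) (S : Finset E) (A B : Finset E → Prop) :
    Pr p S (fun F => A F ∨ B F) ≤ Pr p S A + Pr p S B := by
  unfold Pr
  rw [← Ex_add]
  exact Ex_mono hp (fun F _ => ind_or_le _ _)

theorem Pr_true {p : E → ℝ} (S : Finset E) {A : Finset E → Prop} (h : ∀ F, F ⊆ S → A F) :
    Pr p S A = 1 := by
  unfold Pr
  rw [Ex_congr (g := fun _ => 1) (fun F hF => ind_of (h F hF)), Ex_const]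

theorem Pr_local {p : E → ℝ} {S S' : Finset E} (hS : S' ⊆ S) {A : Finset E → Prop}
    (hA : ∀ F, F ⊆ S → (A F ↔ A (F ∩ S'))) : Pr p S A = Pr p S' A :=
  Ex_local hS (fun F hF => ind_congr (hA F hF))

theorem Pr_indep {p : E → ℝ} {U S T : Finset E} (hS : S ⊆ U) (hT : T ⊆ U)
    (hd : Disjoint S T) {A B : Finset E → Prop}
    (hA : ∀ F, F ⊆ U → (A F ↔ A (F ∩ S))) (hB : ∀ F, F ⊆ U → (B F ↔ B (F ∩ T))) :
    Pr p U (fun F => A F ∧ B F) = Pr p U A * Pr p U B := by
  unfold Pr
  rw [← Ex_mul_indep hS hT hd (fun F hF => ind_congr (hA F hF)) (fun F hF => ind_congr (hB F hF))]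
  exact Ex_congr (fun F _ => ind_and _ _)

/-- Increasing events. -/
def IncrE (S : Finset E) (A : Finset E → Prop) : Prop :=
  ∀ F G, F ⊆ G → G ⊆ S → A F → A G

omit [DecidableEq E] in
theorem IncrE.incr {S : Finset E} {A : Finset E → Prop} (h : IncrE S A) :
    Incr S (fun F => ind (A F)) := fun F G h1 h2 => ind_mono (h F G h1 h2)

theorem Pr_harris {p : E → ℝ} (hp : Ok p) {S : Finset E} {A B : Finset E → Prop}
    (hA : IncrE S A) (hB : IncrE S B) :
    Pr p S A * Pr p S B ≤ Pr p S (fun F => A F ∧ B F) := by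
  unfold Pr
  rw [Ex_congr (g := fun F => ind (A F) * ind (B F)) (fun F _ => ind_and _ _)]
  exact harris hp hA.incr hB.incr

theorem Pr_harris_decr {p : E → ℝ} (hp : Ok p) {S : Finset E} {A B : Finset E → Prop}
    (hA : IncrE S A) (hB : IncrE S (fun F => ¬ B F)) :
    Pr p S (fun F => A F ∧ B F) ≤ Pr p S A * Pr p S B := by
  have h := Pr_harris hp hA hB
  rw [Pr_not] at h
  have h2 : Pr p S A = Pr p S (fun F => A F ∧ B F) + Pr p S (fun F => A F ∧ ¬ B F) := by
    unfold Pr
    rw [← Ex_add]
    apply Ex_congr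
    intro F _
    rw [ind_and, ind_and, ind_not]
    ring
  nlinarith [h, h2]

theorem Pr_map {E' : Type*} [DecidableEq E'] (p : E' → ℝ) (φ : E ↪ E') (S : Finset E)
    (A : Finset E' → Prop) :
    Pr p (S.map φ) A = Pr (fun e => p (φ e)) S (fun F => A (F.map φ)) := Ex_map p φ S _

theorem Pr_compl (p : E → ℝ) (S : Finset E) (A : Finset E → Prop) :
    Pr (fun e => 1 - p e) S A = Pr p S (fun F => A (S \ F)) := Ex_compl p S _

/-- Enlarging the ground set increases the probability of an increasing event. -/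
theorem Pr_mono_set {p : E → ℝ} (hp : Ok p) {S T : Finset E} (hST : S ⊆ T)
    {A : Finset E → Prop} (hA : IncrE T A) : Pr p S A ≤ Pr p T A := by
  have h1 : Pr p T (fun F => A (F ∩ S)) = Pr p S (fun F => A (F ∩ S)) := by
    apply Pr_local hST
    intro F _
    rw [Finset.inter_assoc, Finset.inter_self]
  have h2 : Pr p S (fun F => A (F ∩ S)) = Pr p S A := by
    apply Pr_congr
    intro F hF
    rw [Finset.inter_eq_left.mpr hF]
  rw [← h2, ← h1]
  apply Pr_mono hp
  intro F hF h
  exact hA _ _ Finset.inter_subset_left hF h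

/-- Monotonicity in the parameter. -/
theorem Ex_mono_param {p q : E → ℝ} (hp : Ok p) (hq : Ok q) (hpq : ∀ e, p e ≤ q e)
    {S : Finset E} {f : Finset E → ℝ} (hf : Incr S f) : Ex p S f ≤ Ex q S f := by
  induction S using Finset.induction_on generalizing f with
  | empty => simp [Ex_empty]
  | insert a S ha ih =>
    rw [Ex_insert p ha, Ex_insert q ha]
    have hf0 : Incr S f := fun A B h1 h2 => hf A B h1 (h2.trans (Finset.subset_insert _ _))
    have hf1 : Incr S (fun F => f (insert a F)) := fun A B h1 h2 =>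
      hf _ _ (Finset.insert_subset_insert _ h1) (Finset.insert_subset_insert _ h2)
    have i0 := ih hf0
    have i1 := ih hf1
    have df : Ex q S f ≤ Ex q S (fun F => f (insert a F)) := Ex_mono hq (fun F hF =>
      hf _ _ (Finset.subset_insert _ _) (Finset.insert_subset_insert _ hF))
    have := hpq a
    obtain ⟨h0, h1⟩ := hp a
    nlinarith [mul_le_mul_of_nonneg_left i1 h0,
      mul_le_mul_of_nonneg_left i0 (by linarith : 0 ≤ 1 - p a),
      mul_nonneg (sub_nonneg.mpr this) (sub_nonneg.mpr df)]

theorem Pr_mono_param {p q : E → ℝ} (hp : Ok p) (hq : Ok q) (hpq : ∀ e, p e ≤ q e)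
    {S : Finset E} {A : Finset E → Prop} (hA : IncrE S A) : Pr p S A ≤ Pr q S A :=
  Ex_mono_param hp hq hpq hA.incr

end H99L
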