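import Pool.Agent.H99.L.Split
import Pool.Agent.H99.L.RSW2
import Pool.Agent.H99.L.Ode

/-!
Circuits in annuli and the comparison of one-arm probabilities at different scales.
-/

set_option maxHeartbeats 400000

namespace H99L

open Finset

theorem RE_subset {a b c d a' b' c' d' : ℤ} (h1 : a' ≤ a) (h2 : b ≤ b') (h3 : c' ≤ c)
    (h4 : d ≤ d') : RE a b c d ⊆ RE a' b' c' d' := by
  rintro ⟨x, y, _ | _⟩ h
  · simp only [mem_RE_false] at h ⊢; omega
  · simp only [mem_RE_true] at h ⊢; omega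

/-- A horizontal and a vertical path through a common rectangle meet. -/
theorem cross_meet {F : Set Edg} {A B C D a b c d : ℤ} (hA : A ≤ a) (hab : a < b) (hB : b ≤ B)
    (hC : C ≤ c) (hcd : c < d) (hD : d ≤ D) {u v u' v' : Vtx}
    (h1 : Reach (F ∩ ↑(RE A B c d)) u v) (hu : u.1 ≤ a) (hv : b ≤ v.1)
    (h2 : Reach (F ∩ ↑(RE a b C D)) u' v') (hu' : u'.2 ≤ c) (hv' : d ≤ v'.2) :
    Reach (F ∩ ↑(RE A B C D)) u u' := by
  obtain ⟨y1, y2, k1, k2, k3, k4⟩ := sub_LR (a := a) (b := b) (c := c) (d := d) hab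
    (by rintro x y ⟨-, h⟩ _ _; simp only [mem_coe, mem_RE_true] at h; omega)
    (by rintro x y ⟨-, h⟩ _ _; simp only [mem_coe, mem_RE_false] at h; omega) h1 hu hv
  obtain ⟨x1, x2, l1, l2, l3, l4⟩ := sub_TB (a := a) (b := b) (c := c) (d := d) hcd
    (by rintro x y ⟨-, h⟩ _ _; simp only [mem_coe, mem_RE_false] at h; omega)
    (by rintro x y ⟨-, h⟩ _ _; simp only [mem_coe, mem_RE_true] at h; omega) h2 hu' hv'
  have m := crossings_meet hab hcd.le (F := F) k2 l1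
    (k3.mono (by rintro e ⟨⟨h7, -⟩, h8⟩; exact ⟨h7, h8⟩))
    (l3.mono (by rintro e ⟨⟨h7, -⟩, h8⟩; exact ⟨h7, h8⟩))
  have s1 : F ∩ ↑(RE A B c d) ⊆ F ∩ ↑(RE A B C D) :=
    Set.inter_subset_inter_right _ (by exact_mod_cast RE_subset le_rfl le_rfl hC hD)
  have s2 : F ∩ ↑(RE a b C D) ⊆ F ∩ ↑(RE A B C D) :=
    Set.inter_subset_inter_right _ (by exact_mod_cast RE_subset hA hB le_rfl le_rfl)
  have s3 : F ∩ ↑(RE a b c d) ⊆ F ∩ ↑(RE A B C D) :=
    Set.inter_subset_inter_right _ (by exact_mod_cast RE_subset hA hB hC hD)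
  exact (k4.mono s1).trans ((m.mono s3).trans (l4.symm.mono s2))

/-- Four crossings around an annulus. -/
def Circ (R1 R2 : ℤ) (F : Finset Edg) : Prop :=
  (LRc (-R2) R2 R1 R2 F ∧ LRc (-R2) R2 (-R2) (-R1) F) ∧
    (TBc R1 R2 (-R2) R2 F ∧ TBc (-R2) (-R1) (-R2) R2 F)

theorem Circ.mono {R1 R2 : ℤ} {F G : Finset Edg} (h : F ⊆ G) (hF : Circ R1 R2 F) :
    Circ R1 R2 G :=
  ⟨⟨hF.1.1.mono h, hF.1.2.mono h⟩, ⟨hF.2.1.mono h, hF.2.2.mono h⟩⟩

theorem circ_meet {F : Finset Edg} {R1 R2 : ℤ} (h1 : 0 ≤ R1) (h2 : R1 < R2)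
    (h : Circ R1 R2 F) : ∃ z : Vtx, ∀ u v : Vtx, inR (-R1) R1 (-R1) R1 u →
      (v.1 = -R2 ∨ v.1 = R2 ∨ v.2 = -R2 ∨ v.2 = R2) →
      Reach (↑F ∩ ↑(RE (-R2) R2 (-R2) R2)) u v → Reach (↑F ∩ ↑(RE (-R2) R2 (-R2) R2)) u z := by
  obtain ⟨⟨⟨t, t', ht, ht', hT⟩, ⟨b, b', hb, hb', hB⟩⟩, ⟨r, r', hr, hr', hR⟩,
    ⟨l, l', hl, hl', hL⟩⟩ := h
  have hT' := hT.mono (Set.inter_subset_inter_right (↑F)
    (by exact_mod_cast LRE_subset_RE : (↑(LRE (-R2) R2 R1 R2) : Set Edg) ⊆ _))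
  have hB' := hB.mono (Set.inter_subset_inter_right (↑F)
    (by exact_mod_cast LRE_subset_RE : (↑(LRE (-R2) R2 (-R2) (-R1)) : Set Edg) ⊆ _))
  have hR' := hR.mono (Set.inter_subset_inter_right (↑F)
    (by exact_mod_cast TBE_subset_RE : (↑(TBE R1 R2 (-R2) R2) : Set Edg) ⊆ _))
  have hL' := hL.mono (Set.inter_subset_inter_right (↑F)
    (by exact_mod_cast TBE_subset_RE : (↑(TBE (-R2) (-R1) (-R2) R2) : Set Edg) ⊆ _))
  have mTR : Reach (↑F ∩ ↑(RE (-R2) R2 (-R2) R2)) (-R2, t) (r, -R2) :=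
    cross_meet (by omega) h2 le_rfl (by omega) h2 le_rfl hT' (by simp only; omega) le_rfl hR'
      (by simp only; omega) le_rfl
  have mBR : Reach (↑F ∩ ↑(RE (-R2) R2 (-R2) R2)) (-R2, b) (r, -R2) :=
    cross_meet (by omega) h2 le_rfl le_rfl (by omega) (by omega) hB' (by simp only; omega) le_rfl
      hR' le_rfl (by simp only; omega)
  have mTL : Reach (↑F ∩ ↑(RE (-R2) R2 (-R2) R2)) (-R2, t) (l, -R2) :=
    cross_meet le_rfl (by omega) (by omega) (by omega) h2 le_rfl hT' le_rfl (by simp only; omega)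
      hL' (by simp only; omega) le_rfl
  refine ⟨(r, -R2), ?_⟩
  intro u v hu hv hP
  unfold inR at hu
  rcases hv with hv | hv | hv | hv
  · have m : Reach (↑F ∩ ↑(RE (-R2) R2 (-R2) R2)) v (l, -R2) :=
      cross_meet le_rfl (by omega) (by omega) le_rfl (by omega) le_rfl hP.symm hv.le
        (show -R1 ≤ u.1 by omega) hL' le_rfl le_rfl
    exact hP.trans (m.trans (mTL.symm.trans mTR))
  · exact cross_meet (by omega) h2 le_rfl le_rfl (by omega) le_rfl hP (by omega) hv.ge hR' le_rfl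
      le_rfl
  · have m : Reach (↑F ∩ ↑(RE (-R2) R2 (-R2) R2)) (-R2, b) v :=
      cross_meet le_rfl (by omega) le_rfl le_rfl (by omega) (by omega) hB' le_rfl le_rfl hP.symm
        hv.le (show -R1 ≤ u.2 by omega)
    exact hP.trans (m.symm.trans mBR)
  · have m : Reach (↑F ∩ ↑(RE (-R2) R2 (-R2) R2)) (-R2, t) u :=
      cross_meet le_rfl (by omega) le_rfl (by omega) h2 le_rfl hT' le_rfl le_rfl hP
        (by omega) hv.ge
    exact m.symm.trans mTR

theorem pr_Circ {q : ℝ} (h0 : 0 ≤ q) (h1 : q ≤ 1) {R1 R2 : ℤ} (hR1 : 0 ≤ R1) (hR : R1 ≤ R2)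
    {S : Finset Edg} (hS : RE (-R2) R2 (-R2) R2 ⊆ S) :
    (hh q (2 * R2) (R2 - R1))^4 ≤ Pr (fun _ => q) S (Circ R1 R2) := by
  have s1 : LRE (-R2) R2 R1 R2 ⊆ S :=
    LRE_subset_RE.trans ((RE_subset le_rfl le_rfl (by omega) le_rfl).trans hS)
  have s2 : LRE (-R2) R2 (-R2) (-R1) ⊆ S :=
    LRE_subset_RE.trans ((RE_subset le_rfl le_rfl le_rfl (by omega)).trans hS)
  have s3 : TBE R1 R2 (-R2) R2 ⊆ S :=
    TBE_subset_RE.trans ((RE_subset (by omega) le_rfl le_rfl le_rfl).trans hS)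
  have s4 : TBE (-R2) (-R1) (-R2) R2 ⊆ S :=
    TBE_subset_RE.trans ((RE_subset le_rfl (by omega) le_rfl le_rfl).trans hS)
  have e1 := pr_LRc q s1
  have e2 := pr_LRc q s2
  have e3 := pr_TBc q s3
  have e4 := pr_TBc q s4
  have d1 : R2 - -R2 = 2 * R2 := by ring
  have d2 : -R1 - -R2 = R2 - R1 := by ring
  rw [d1] at e1
  rw [d1, d2] at e2
  rw [d1] at e3
  rw [d1, d2] at e4
  have i1 := Pr_harris (okq h0 h1) (LRc_incr S (-R2) R2 R1 R2) (LRc_incr S (-R2) R2 (-R2) (-R1))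
  have i2 := Pr_harris (okq h0 h1) (TBc_incr S R1 R2 (-R2) R2) (TBc_incr S (-R2) (-R1) (-R2) R2)
  have c1 : IncrE S (fun F => LRc (-R2) R2 R1 R2 F ∧ LRc (-R2) R2 (-R2) (-R1) F) :=
    fun F G hFG _ hF => ⟨hF.1.mono hFG, hF.2.mono hFG⟩
  have c2 : IncrE S (fun F => TBc R1 R2 (-R2) R2 F ∧ TBc (-R2) (-R1) (-R2) R2 F) :=
    fun F G hFG _ hF => ⟨hF.1.mono hFG, hF.2.mono hFG⟩
  have i3 := Pr_harris (okq h0 h1) c1 c2
  rw [e1, e2] at i1
  rw [e3, e4] at i2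
  have hn : 0 ≤ hh q (2 * R2) (R2 - R1) := hh_nonneg h0 h1 _ _
  have hn2 : 0 ≤ hh q (2 * R2) (R2 - R1) * hh q (2 * R2) (R2 - R1) := mul_nonneg hn hn
  calc (hh q (2 * R2) (R2 - R1))^4
      = (hh q (2 * R2) (R2 - R1) * hh q (2 * R2) (R2 - R1)) *
        (hh q (2 * R2) (R2 - R1) * hh q (2 * R2) (R2 - R1)) := by ring
    _ ≤ _ := mul_le_mul i1 i2 hn2 (hn2.trans i1)
    _ ≤ _ := i3

/-- Gluing an arm and a box-to-boundary connection by a circuit. -/
theorem arm_of_glue {F : Finset Edg} {r R n : ℕ} (hrR : r < R) (hRn : R ≤ n)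
    (h1 : Arm R F) (h2 : Circ r R F) (h3 : BArm r n F) : Arm n F := by
  obtain ⟨z, hz⟩ := circ_meet (by positivity) (by exact_mod_cast hrR) h2
  obtain ⟨v, hv, hr⟩ := h1
  obtain ⟨u', v', hu', hv', hr'⟩ := h3
  have hRn' : (R:ℤ) ≤ n := by exact_mod_cast hRn
  have hrR' : (r:ℤ) < R := by exact_mod_cast hrR
  have m1 := hz (0, 0) v (by unfold inR; simp) hv.2 hr
  obtain ⟨w, k1, k2, k3⟩ := first_exit (a := -R) (b := R) (c := -R) (d := R)
    (by unfold inR at hu' ⊢; omega) hr' (by unfold onB at hv'; omega)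
  have k3' : Reach ((↑F : Set Edg) ∩ ↑(RE (-(R:ℤ)) R (-R) R)) u' w :=
    k3.mono (by rintro e ⟨⟨h4, -⟩, h5⟩; exact ⟨h4, h5⟩)
  have m2 := hz u' w hu' k2 k3'
  have hsub : (↑F : Set Edg) ∩ ↑(RE (-(R:ℤ)) R (-R) R) ⊆ ↑F ∩ ↑(boxE n) :=
    Set.inter_subset_inter_right _ (by exact_mod_cast boxE_mono hRn)
  exact ⟨v', hv', (m1.mono hsub).trans ((m2.symm.mono hsub).trans hr')⟩

theorem rsw_p {p : ℝ} (hp : 1/2 ≤ p) (hp1 : p ≤ 1) {n w h : ℤ} (hn : 0 < n) (hw : 0 < w)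
    (hw8 : w ≤ 8 * n) (hh2 : 2 * n ≤ h) : (1/2 : ℝ)^47 ≤ hh p w h :=
  (rsw hn hw hw8 hh2).trans (hh_mono_param (by norm_num) hp hp1 _ _)

theorem arm_glue {p : ℝ} (hp : 1/2 ≤ p) (hp1 : p ≤ 1) {r n : ℕ} (hr : 0 < r) (hrn : 3 * r ≤ n) :
    (1/2 : ℝ)^188 * (arm p (3 * r) * barm p r n) ≤ arm p n := by
  have h0 : 0 ≤ p := by linarith
  have hr' : (0:ℤ) < r := by exact_mod_cast hr
  have hsub : boxE (3 * r) ⊆ boxE n := boxE_mono hrn
  have e1 := pr_Arm p hsub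
  have e2 := pr_BArm p (r := r) (Finset.Subset.refl (boxE n))
  have e3 : (1/2 : ℝ)^188 ≤ Pr (fun _ => p) (boxE n) (Circ r ((3 * r : ℕ) : ℤ)) := by
    refine le_trans ?_ (pr_Circ h0 hp1 (R1 := r) (R2 := ((3 * r : ℕ) : ℤ)) (by positivity)
      (by push_cast; omega) hsub)
    have k := rsw_p hp hp1 (n := r) (w := 2 * ((3 * r : ℕ) : ℤ)) (h := ((3 * r : ℕ) : ℤ) - r) hr'
      (by push_cast; omega) (by push_cast; omega) (by push_cast; omega)
    calc (1/2 : ℝ)^188 = ((1/2 : ℝ)^47)^4 := by norm_num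
      _ ≤ _ := pow_le_pow_left₀ (by positivity) k 4
  have i1 := Pr_harris (okq h0 hp1) (Arm_incr (boxE n) (3 * r))
    (B := Circ r ((3 * r : ℕ) : ℤ)) (fun F G h _ hF => hF.mono h)
  have i2 := Pr_harris (okq h0 hp1) (S := boxE n)
    (A := fun F => Arm (3 * r) F ∧ Circ r ((3 * r : ℕ) : ℤ) F)
    (B := BArm r n) (fun F G h _ hF => ⟨hF.1.mono h, hF.2.mono h⟩) (fun F G h _ hF => hF.mono h)
  have i3 : Pr (fun _ => p) (boxE n)
      (fun F => (Arm (3 * r) F ∧ Circ r ((3 * r : ℕ) : ℤ) F) ∧ BArm r n F) ≤ arm p n := by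
    unfold arm
    apply Pr_mono (okq h0 hp1)
    rintro F _ ⟨⟨k1, k2⟩, k3⟩
    exact arm_of_glue (by omega) hrn k1 k2 k3
  rw [e1] at i1
  rw [e2] at i2
  have hb : 0 ≤ barm p r n := barm_nonneg h0 hp1 _ _
  have ha : 0 ≤ arm p (3 * r) := arm_nonneg h0 hp1 _
  calc (1/2 : ℝ)^188 * (arm p (3 * r) * barm p r n)
      = (arm p (3 * r) * (1/2 : ℝ)^188) * barm p r n := by ring
    _ ≤ (arm p (3 * r) * Pr (fun _ => p) (boxE n) (Circ r ((3 * r : ℕ) : ℤ))) * barm p r n :=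
        mul_le_mul_of_nonneg_right (mul_le_mul_of_nonneg_left e3 ha) hb
    _ ≤ _ := mul_le_mul_of_nonneg_right i1 hb
    _ ≤ _ := i2
    _ ≤ _ := i3

/-- The constant of the comparison estimate. -/
noncomputable def kap : ℝ := (1/2 : ℝ)^188

theorem kap_pos : 0 < kap := by unfold kap; positivity
theorem kap_le : kap ≤ 1 := by unfold kap; norm_num

theorem arm_half_sq {p : ℝ} (hp : 1/2 ≤ p) (hp1 : p ≤ 1) {n : ℕ} (hn : 0 < n) :
    1 ≤ 16 * n * (arm p n)^2 := by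
  have h := barm_lower hn (Nat.zero_le n)
  rw [barm_zero] at h
  have h2 := arm_mono_param (by norm_num) hp hp1 n
  have h3 := arm_nonneg (q := 1/2) (by norm_num) (by norm_num) n
  have h4 : (arm (1/2) n)^2 ≤ (arm p n)^2 := pow_le_pow_left₀ h3 h2 2
  have hn1 : (1:ℝ) ≤ n := by exact_mod_cast hn
  push_cast at h
  nlinarith

/-- Comparison of one-arm probabilities. -/
theorem arm_ratio {p : ℝ} (hp : 1/2 ≤ p) (hp1 : p ≤ 1) {r n : ℕ} (hr : 0 < r) (hrn : r ≤ n) :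
    kap^2 * r * (arm p r)^2 ≤ 48 * n * (arm p n)^2 := by
  have h0 : 0 ≤ p := by linarith
  have hn : 0 < n := by omega
  have hn1 : (1:ℝ) ≤ n := by exact_mod_cast hn
  have hk2 : kap^2 ≤ 1 := pow_le_one₀ kap_pos.le kap_le
  have hk0 : 0 ≤ kap^2 := sq_nonneg _
  by_cases h3 : r < 3
  · have h4 := arm_half_sq hp hp1 hn
    have h5 : (arm p r)^2 ≤ 1 := pow_le_one₀ (arm_nonneg h0 hp1 _) (arm_le_one h0 hp1 _)
    have h6 : (r:ℝ) ≤ 2 := by
      have : r ≤ 2 := by omega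
      exact_mod_cast this
    have h7 : 0 ≤ (arm p r)^2 := sq_nonneg _
    have h8 : kap^2 * r ≤ 2 := by
      have := mul_le_mul hk2 h6 (Nat.cast_nonneg r) (by norm_num : (0:ℝ) ≤ 1)
      linarith
    have h9 : 0 ≤ kap^2 * r := by positivity
    calc kap^2 * r * (arm p r)^2 ≤ 2 * 1 := mul_le_mul h8 h5 h7 (by norm_num)
      _ ≤ 2 * (16 * n * (arm p n)^2) := by linarith
      _ ≤ 48 * n * (arm p n)^2 := by nlinarith [sq_nonneg (arm p n)]
  · push Not at h3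
    set s := r / 3 with hs
    have hs1 : 0 < s := by omega
    have hs2 : 3 * s ≤ r := by omega
    have hs3 : r ≤ 3 * (2 * s + 1) := by omega
    have g := arm_glue hp hp1 hs1 (hs2.trans hrn)
    have hb := barm_lower hn (show s ≤ n by omega)
    have hb2 : (barm (1/2) s n)^2 ≤ (barm p s n)^2 :=
      pow_le_pow_left₀ (barm_nonneg (by norm_num) (by norm_num) _ _)
        (barm_mono_param (by norm_num) hp hp1 _ _) 2
    have ha : arm p r ≤ arm p (3 * s) := arm_anti h0 hp1 hs2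
    have ha2 : (arm p r)^2 ≤ (arm p (3 * s))^2 := pow_le_pow_left₀ (arm_nonneg h0 hp1 _) ha 2
    have g2 : (kap * (arm p (3 * s) * barm p s n))^2 ≤ (arm p n)^2 :=
      pow_le_pow_left₀ (mul_nonneg kap_pos.le (mul_nonneg (arm_nonneg h0 hp1 _)
        (barm_nonneg h0 hp1 _ _))) g 2
    have hr3 : (r:ℝ) ≤ 3 * (2 * s + 1) := by exact_mod_cast hs3
    have hA : 0 ≤ (arm p (3 * s))^2 := sq_nonneg _
    calc kap^2 * r * (arm p r)^2
        ≤ kap^2 * (3 * (2 * s + 1)) * (arm p (3 * s))^2 := by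
          apply mul_le_mul _ ha2 (sq_nonneg _) (by positivity)
          exact mul_le_mul_of_nonneg_left hr3 hk0
      _ = 3 * kap^2 * (arm p (3 * s))^2 * (2 * s + 1) := by ring
      _ ≤ 3 * kap^2 * (arm p (3 * s))^2 * (16 * n * (barm (1/2) s n)^2) :=
          mul_le_mul_of_nonneg_left hb (by positivity)
      _ ≤ 3 * kap^2 * (arm p (3 * s))^2 * (16 * n * (barm p s n)^2) := by
          apply mul_le_mul_of_nonneg_left _ (by positivity)
          exact mul_le_mul_of_nonneg_left hb2 (by positivity)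
      _ = 48 * n * (kap * (arm p (3 * s) * barm p s n))^2 := by ring
      _ ≤ 48 * n * (arm p n)^2 := mul_le_mul_of_nonneg_left g2 (by positivity)

theorem sum_inv_sqrt (n : ℕ) :
    ∑ r ∈ Finset.range n, 1 / Real.sqrt ((r:ℝ) + 1) ≤ 2 * Real.sqrt n := by
  induction n with
  | zero => simp
  | succ n ih =>
    rw [Finset.sum_range_succ]
    have h1 : 0 < Real.sqrt ((n:ℝ) + 1) := Real.sqrt_pos.mpr (by positivity)
    have h2 : Real.sqrt n ≤ Real.sqrt ((n:ℝ) + 1) := Real.sqrt_le_sqrt (by linarith)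
    have h3 : Real.sqrt n * Real.sqrt n = n := Real.mul_self_sqrt (by positivity)
    have h4 : Real.sqrt ((n:ℝ) + 1) * Real.sqrt ((n:ℝ) + 1) = n + 1 :=
      Real.mul_self_sqrt (by positivity)
    have h5 : 1 / Real.sqrt ((n:ℝ) + 1) ≤ 2 * (Real.sqrt ((n:ℝ) + 1) - Real.sqrt n) := by
      rw [div_le_iff₀ h1]
      have h6 : 0 ≤ Real.sqrt n := Real.sqrt_nonneg _
      nlinarith [sq_nonneg (Real.sqrt ((n:ℝ) + 1) - Real.sqrt n)]
    push_cast
    linarith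

/-- The sum of the one-arm probabilities is dominated by its last term. -/
theorem SS_le {p : ℝ} (hp : 1/2 ≤ p) (hp1 : p ≤ 1) {n : ℕ} (hn : 0 < n) :
    SS p n ≤ 30 / kap * n * arm p n := by
  have h0 : 0 ≤ p := by linarith
  have hn1 : (1:ℝ) ≤ n := by exact_mod_cast hn
  have hk := kap_pos
  have hk1 := kap_le
  have hM := arm_nonneg h0 hp1 n
  have hM1 := arm_le_one h0 hp1 n
  have h16 := arm_half_sq hp hp1 hn
  have hterm : ∀ r ∈ Finset.range n, arm p (r + 1) ≤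
      (7 / kap * Real.sqrt n * arm p n) * (1 / Real.sqrt ((r:ℝ) + 1)) := by
    intro r hr
    rw [Finset.mem_range] at hr
    have h1 := arm_ratio hp hp1 (Nat.succ_pos r) (show r + 1 ≤ n by omega)
    have hs : 0 < Real.sqrt ((r:ℝ) + 1) := Real.sqrt_pos.mpr (by positivity)
    have hs2 : Real.sqrt ((r:ℝ) + 1) * Real.sqrt ((r:ℝ) + 1) = r + 1 :=
      Real.mul_self_sqrt (by positivity)
    have hs3 : Real.sqrt n * Real.sqrt n = n := Real.mul_self_sqrt (by positivity)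
    rw [mul_one_div, le_div_iff₀ hs]
    have h2 : (kap * (arm p (r + 1) * Real.sqrt ((r:ℝ) + 1)))^2 ≤
        (7 * (Real.sqrt n * arm p n))^2 := by
      calc (kap * (arm p (r + 1) * Real.sqrt ((r:ℝ) + 1)))^2
          = kap^2 * (Real.sqrt ((r:ℝ) + 1) * Real.sqrt ((r:ℝ) + 1)) * (arm p (r + 1))^2 := by ring
        _ = kap^2 * ((r + 1 : ℕ) : ℝ) * (arm p (r + 1))^2 := by rw [hs2]; push_cast; ring
        _ ≤ 48 * n * (arm p n)^2 := h1
        _ ≤ 49 * n * (arm p n)^2 := by nlinarith [sq_nonneg (arm p n)]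
        _ = 49 * (Real.sqrt n * Real.sqrt n) * (arm p n)^2 := by rw [hs3]
        _ = (7 * (Real.sqrt n * arm p n))^2 := by ring
    have h3 : kap * (arm p (r + 1) * Real.sqrt ((r:ℝ) + 1)) ≤ 7 * (Real.sqrt n * arm p n) := by
      have := abs_le_of_sq_le_sq h2 (by positivity)
      exact (le_abs_self _).trans this
    rw [div_mul_eq_mul_div, div_mul_eq_mul_div, le_div_iff₀ hk]
    linarith
  have hsum : SS p n = 1 + ∑ r ∈ Finset.range n, arm p (r + 1) := by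
    unfold SS
    rw [Finset.sum_range_succ', arm_zero]
    ring
  have h1 : ∑ r ∈ Finset.range n, arm p (r + 1) ≤
      (7 / kap * Real.sqrt n * arm p n) * (2 * Real.sqrt n) := by
    calc ∑ r ∈ Finset.range n, arm p (r + 1)
        ≤ ∑ r ∈ Finset.range n, (7 / kap * Real.sqrt n * arm p n) * (1 / Real.sqrt ((r:ℝ) + 1)) :=
          Finset.sum_le_sum hterm
      _ = (7 / kap * Real.sqrt n * arm p n) * ∑ r ∈ Finset.range n, (1 / Real.sqrt ((r:ℝ) + 1)) :=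
          by rw [Finset.mul_sum]
      _ ≤ _ := mul_le_mul_of_nonneg_left (sum_inv_sqrt n) (by positivity)
  have h2 : (7 / kap * Real.sqrt n * arm p n) * (2 * Real.sqrt n) = 14 / kap * n * arm p n := by
    have hs3 : Real.sqrt n * Real.sqrt n = n := Real.mul_self_sqrt (by positivity)
    calc (7 / kap * Real.sqrt n * arm p n) * (2 * Real.sqrt n)
        = 14 / kap * (Real.sqrt n * Real.sqrt n) * arm p n := by ring
      _ = _ := by rw [hs3]
  have h3 : 1 ≤ 16 / kap * n * arm p n := by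
    have k1 : (16:ℝ) ≤ 16 / kap := by
      rw [le_div_iff₀ hk]
      linarith
    have k2 : 16 * n * (arm p n)^2 ≤ 16 * n * arm p n := by
      apply mul_le_mul_of_nonneg_left _ (by positivity)
      nlinarith
    calc 1 ≤ 16 * n * arm p n := by linarith
      _ ≤ 16 / kap * n * arm p n := by
        apply mul_le_mul_of_nonneg_right _ hM
        exact mul_le_mul_of_nonneg_right k1 (by positivity)
  rw [hsum]
  calc 1 + ∑ r ∈ Finset.range n, arm p (r + 1)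
      ≤ 16 / kap * n * arm p n + 14 / kap * n * arm p n := by linarith
    _ = 30 / kap * n * arm p n := by ring

end H99L
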