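import Pool.Agent.H99.L.Static
import Pool.Agent.H99.L.BK

/-!
The number of clusters joining a finite set to a boundary, and the abstract four-arm bound.
-/

set_option maxHeartbeats 400000

namespace H99L

open Finset

section Count

variable {E V V' : Type*} [DecidableEq E]

theorem GR_restrict {s t : E → V} {F H : Set E} {x y : V} (h : GR s t F x y)
    (hH : ∀ e ∈ F, GR s t F x (s e) → e ∈ H) : GR s t H x y := by
  induction h with
  | refl => exact GR.refl _ _
  | @tail y' y'' hpath hs ih =>
    obtain ⟨e, he, hcase⟩ := hs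
    have hse : GR s t F x (s e) := by
      rcases hcase with ⟨h1, _⟩ | ⟨h1, h2⟩
      · rw [h1]; exact hpath
      · rw [h1]
        exact hpath.tail ⟨e, he, Or.inr ⟨h1, h2⟩⟩
    exact ih.tail ⟨e, hH e he hse, hcase⟩

/-- The vertex `x` is connected to `B`. -/
def RB (s t : E → V) (B : Set V) (F : Set E) (x : V) : Prop := ∃ b ∈ B, GR s t F x b

/-- The cluster of `x`. -/
def clu (s t : E → V) (F : Set E) (x : V) : Set V := {y | GR s t F x y}

open Classical in
/-- The clusters containing a vertex of `K` and reaching `B`. -/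
noncomputable def TC (s t : E → V) (K : Finset V) (B : Set V) (F : Set E) : Finset (Set V) :=
  (K.filter (fun x => RB s t B F x)).image (clu s t F)

theorem mem_TC {s t : E → V} {K : Finset V} {B : Set V} {F : Set E} {C : Set V} :
    C ∈ TC s t K B F ↔ ∃ x ∈ K, RB s t B F x ∧ clu s t F x = C := by
  classical
  unfold TC
  rw [Finset.mem_image]
  constructor
  · rintro ⟨x, hx, rfl⟩
    rw [Finset.mem_filter] at hx
    exact ⟨x, hx.1, hx.2, rfl⟩
  · rintro ⟨x, hx, hr, rfl⟩
    exact ⟨x, Finset.mem_filter.mpr ⟨hx, hr⟩, rfl⟩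

/-- The number of clusters containing a vertex of `K` and reaching `B`. -/
noncomputable def NC (s t : E → V) (K : Finset V) (B : Set V) (F : Set E) : ℕ :=
  (TC s t K B F).card

theorem NC_le (s t : E → V) (K : Finset V) (B : Set V) (F : Set E) :
    NC s t K B F ≤ K.card := by
  classical
  unfold NC TC
  exact Finset.card_image_le.trans (Finset.card_le_card (Finset.filter_subset _ _))

theorem clu_eq {s t : E → V} {F : Set E} {x y : V} (h : GR s t F x y) :
    clu s t F x = clu s t F y := by
  ext z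
  exact ⟨fun hz => h.symm.trans hz, fun hz => h.trans hz⟩

theorem RB_iff {s t : E → V} {B : Set V} {F : Set E} {x y : V} (h : GR s t F x y) :
    RB s t B F x ↔ RB s t B F y := by
  constructor
  · rintro ⟨b, hb, hr⟩; exact ⟨b, hb, h.symm.trans hr⟩
  · rintro ⟨b, hb, hr⟩; exact ⟨b, hb, h.trans hr⟩

theorem NC_insert {s t : E → V} {K : Finset V} {B : Set V} {F : Set E} {e : E}
    (hs : s e ∈ K) (ht : t e ∈ K) :
    (NC s t K B F : ℝ) - NC s t K B (insert e F) =
      ind (RB s t B F (s e) ∧ RB s t B F (t e) ∧ ¬ GR s t F (s e) (t e)) := by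
  classical
  set u := s e with hu
  set v := t e with hv
  have hins : ∀ x y, GR s t (insert e F) x y ↔
      GR s t F x y ∨ (GR s t F x u ∧ GR s t F v y) ∨ (GR s t F x v ∧ GR s t F u y) :=
    fun x y => GR_insert
  by_cases huv : GR s t F u v
  · have hsame : ∀ x y, GR s t (insert e F) x y ↔ GR s t F x y := by
      intro x y
      rw [hins]
      constructor
      · rintro (h | ⟨h1, h2⟩ | ⟨h1, h2⟩)
        · exact h
        · exact h1.trans (huv.trans h2)
        · exact h1.trans (huv.symm.trans h2)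
      · exact Or.inl
    have hc : ∀ x, clu s t (insert e F) x = clu s t F x := fun x => by
      ext y; exact hsame x y
    have hr : ∀ x, RB s t B (insert e F) x ↔ RB s t B F x := fun x => by
      unfold RB; simp only [hsame]
    have hT : TC s t K B (insert e F) = TC s t K B F := by
      ext C
      rw [mem_TC, mem_TC]
      simp only [hc, hr]
    rw [ind_not_of (by rintro ⟨_, _, h⟩; exact h huv)]
    unfold NC
    rw [hT, sub_self]
  · -- the set of clusters away from `e`
    set T0 : Finset (Set V) := (K.filter (fun x => RB s t B F x ∧ ¬ GR s t F x u ∧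
      ¬ GR s t F x v)).image (clu s t F) with hT0
    have mT0 : ∀ C, C ∈ T0 ↔ ∃ x ∈ K, (RB s t B F x ∧ ¬ GR s t F x u ∧ ¬ GR s t F x v) ∧
        clu s t F x = C := by
      intro C
      rw [hT0, Finset.mem_image]
      constructor
      · rintro ⟨x, hx, rfl⟩
        rw [Finset.mem_filter] at hx
        exact ⟨x, hx.1, hx.2, rfl⟩
      · rintro ⟨x, hx, hr, rfl⟩
        exact ⟨x, Finset.mem_filter.mpr ⟨hx, hr⟩, rfl⟩
    have far : ∀ x, ¬ GR s t F x u → ¬ GR s t F x v →
        (clu s t (insert e F) x = clu s t F x ∧ (RB s t B (insert e F) x ↔ RB s t B F x)) := by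
      intro x h1 h2
      have hsame : ∀ y, GR s t (insert e F) x y ↔ GR s t F x y := by
        intro y
        rw [hins]
        constructor
        · rintro (h | ⟨h3, _⟩ | ⟨h3, _⟩)
          · exact h
          · exact absurd h3 h1
          · exact absurd h3 h2
        · exact Or.inl
      refine ⟨?_, ?_⟩
      · ext y; exact hsame y
      · unfold RB; simp only [hsame]
    have near : ∀ x, (GR s t F x u ∨ GR s t F x v) →
        (clu s t (insert e F) x = clu s t F u ∪ clu s t F v ∧
          (RB s t B (insert e F) x ↔ RB s t B F u ∨ RB s t B F v)) := by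
      intro x h1
      have hsame : ∀ y, GR s t (insert e F) x y ↔ GR s t F u y ∨ GR s t F v y := by
        intro y
        rw [hins]
        constructor
        · rintro (h | ⟨_, h3⟩ | ⟨_, h3⟩)
          · rcases h1 with h1 | h1
            · exact Or.inl (h1.symm.trans h)
            · exact Or.inr (h1.symm.trans h)
          · exact Or.inr h3
          · exact Or.inl h3
        · rintro (h | h)
          · rcases h1 with h1 | h1
            · exact Or.inl (h1.trans h)
            · exact Or.inr (Or.inr ⟨h1, h⟩)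
          · rcases h1 with h1 | h1
            · exact Or.inr (Or.inl ⟨h1, h⟩)
            · exact Or.inl (h1.trans h)
      refine ⟨?_, ?_⟩
      · ext y; exact hsame y
      · unfold RB
        simp only [hsame]
        constructor
        · rintro ⟨b, hb, h | h⟩
          · exact Or.inl ⟨b, hb, h⟩
          · exact Or.inr ⟨b, hb, h⟩
        · rintro (⟨b, hb, h⟩ | ⟨b, hb, h⟩)
          · exact ⟨b, hb, Or.inl h⟩
          · exact ⟨b, hb, Or.inr h⟩
    have hcu : clu s t F u ∉ T0 := by
      rw [mT0]
      rintro ⟨x, _, ⟨_, h1, _⟩, h2⟩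
      apply h1
      have : u ∈ clu s t F x := by rw [h2]; exact GR.refl _ _
      exact this
    have hcv : clu s t F v ∉ T0 := by
      rw [mT0]
      rintro ⟨x, _, ⟨_, _, h1⟩, h2⟩
      apply h1
      have : v ∈ clu s t F x := by rw [h2]; exact GR.refl _ _
      exact this
    have hcuv : clu s t F u ∪ clu s t F v ∉ T0 := by
      rw [mT0]
      rintro ⟨x, _, ⟨_, h1, _⟩, h2⟩
      apply h1
      have : u ∈ clu s t F x := by rw [h2]; exact Or.inl (GR.refl _ _)
      exact this
    have hne : clu s t F u ≠ clu s t F v := by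
      intro h
      apply huv
      have : v ∈ clu s t F u := by rw [h]; exact GR.refl _ _
      exact this
    -- description of `TC F`
    have d1 : ∀ C, C ∈ TC s t K B F ↔ (RB s t B F u ∧ C = clu s t F u) ∨
        (RB s t B F v ∧ C = clu s t F v) ∨ C ∈ T0 := by
      intro C
      rw [mem_TC, mT0]
      constructor
      · rintro ⟨x, hx, hr, rfl⟩
        by_cases h1 : GR s t F x u
        · exact Or.inl ⟨(RB_iff h1).mp hr, clu_eq h1⟩
        · by_cases h2 : GR s t F x v
          · exact Or.inr (Or.inl ⟨(RB_iff h2).mp hr, clu_eq h2⟩)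
          · exact Or.inr (Or.inr ⟨x, hx, ⟨hr, h1, h2⟩, rfl⟩)
      · rintro (⟨h1, rfl⟩ | ⟨h1, rfl⟩ | ⟨x, hx, ⟨hr, _, _⟩, rfl⟩)
        · exact ⟨u, hs, h1, rfl⟩
        · exact ⟨v, ht, h1, rfl⟩
        · exact ⟨x, hx, hr, rfl⟩
    have d2 : ∀ C, C ∈ TC s t K B (insert e F) ↔ ((RB s t B F u ∨ RB s t B F v) ∧
        C = clu s t F u ∪ clu s t F v) ∨ C ∈ T0 := by
      intro C
      rw [mem_TC, mT0]
      constructor
      · rintro ⟨x, hx, hr, rfl⟩
        by_cases h1 : GR s t F x u ∨ GR s t F x v
        · obtain ⟨k1, k2⟩ := near x h1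
          exact Or.inl ⟨k2.mp hr, k1⟩
        · push Not at h1
          obtain ⟨k1, k2⟩ := far x h1.1 h1.2
          exact Or.inr ⟨x, hx, ⟨k2.mp hr, h1.1, h1.2⟩, k1.symm⟩
      · rintro (⟨h1, rfl⟩ | ⟨x, hx, ⟨hr, h1, h2⟩, rfl⟩)
        · obtain ⟨k1, k2⟩ := near u (Or.inl (GR.refl _ _))
          exact ⟨u, hs, k2.mpr h1, k1⟩
        · obtain ⟨k1, k2⟩ := far x h1 h2
          exact ⟨x, hx, k2.mpr hr, k1⟩
    unfold NC
    by_cases h1 : RB s t B F u
    · by_cases h2 : RB s t B F v
      · have e1 : TC s t K B F = insert (clu s t F u) (insert (clu s t F v) T0) := by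
          ext C
          rw [d1, Finset.mem_insert, Finset.mem_insert]
          simp only [h1, h2, true_and]
        have e2 : TC s t K B (insert e F) = insert (clu s t F u ∪ clu s t F v) T0 := by
          ext C
          rw [d2, Finset.mem_insert]
          simp only [h1, true_or, true_and]
        rw [ind_of ⟨h1, h2, huv⟩, e1, e2, Finset.card_insert_of_notMem hcuv,
          Finset.card_insert_of_notMem (by
            rw [Finset.mem_insert]; exact fun h => h.elim hne hcu),
          Finset.card_insert_of_notMem hcv]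
        push_cast
        ring
      · have e1 : TC s t K B F = insert (clu s t F u) T0 := by
          ext C
          rw [d1, Finset.mem_insert]
          simp only [h1, h2, true_and, false_and, false_or]
        have e2 : TC s t K B (insert e F) = insert (clu s t F u ∪ clu s t F v) T0 := by
          ext C
          rw [d2, Finset.mem_insert]
          simp only [h1, true_or, true_and]
        rw [ind_not_of (by rintro ⟨_, h, _⟩; exact h2 h), e1, e2,
          Finset.card_insert_of_notMem hcuv, Finset.card_insert_of_notMem hcu]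
        ring
    · by_cases h2 : RB s t B F v
      · have e1 : TC s t K B F = insert (clu s t F v) T0 := by
          ext C
          rw [d1, Finset.mem_insert]
          simp only [h1, h2, true_and, false_and, false_or]
        have e2 : TC s t K B (insert e F) = insert (clu s t F u ∪ clu s t F v) T0 := by
          ext C
          rw [d2, Finset.mem_insert]
          simp only [h2, or_true, true_and]
        rw [ind_not_of (by rintro ⟨h, _, _⟩; exact h1 h), e1, e2,
          Finset.card_insert_of_notMem hcuv, Finset.card_insert_of_notMem hcv]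
        ring
      · have e1 : TC s t K B F = T0 := by
          ext C
          rw [d1]
          simp only [h1, h2, false_and, false_or]
        have e2 : TC s t K B (insert e F) = T0 := by
          ext C
          rw [d2]
          simp only [h1, h2, or_self, false_and, false_or]
        rw [ind_not_of (by rintro ⟨h, _, _⟩; exact h1 h), e1, e2]
        ring

/-- `k`-fold disjoint occurrence. -/
def kOcc (A : Finset E → Prop) : ℕ → Finset E → Prop
  | 0, _ => True
  | k + 1, F => DisjOcc A (kOcc A k) F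

omit [DecidableEq E] in
theorem kOcc_mono {A : Finset E → Prop} {k : ℕ} {F G : Finset E} (h : F ⊆ G)
    (hF : kOcc A k F) : kOcc A k G := by
  cases k with
  | zero => trivial
  | succ k =>
    obtain ⟨K, L, h1, h2, h3⟩ := hF
    exact ⟨K, L, h1.trans h, h2.trans h, h3⟩

theorem pr_kOcc {p : E → ℝ} (hp : Ok p) {S : Finset E} {A : Finset E → Prop}
    (hA : ∀ F G : Finset E, F ⊆ G → A F → A G) (k : ℕ) :
    Pr p S (kOcc A k) ≤ (Pr p S A)^k := by
  induction k with
  | zero => simp only [pow_zero]; exact Pr_le_one hp _ _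
  | succ k ih =>
    have h1 : Pr p S (kOcc A (k + 1)) ≤ Pr p S A * Pr p S (kOcc A k) :=
      bk hp (fun F G h _ => hA F G h) (fun F G h _ hF => kOcc_mono h hF)
    rw [pow_succ']
    exact h1.trans (mul_le_mul_of_nonneg_left ih (Pr_nonneg hp _ _))

theorem NC_kOcc (s t : E → V) (K : Finset V) (B : Set V) (k : ℕ) (F : Finset E)
    (h : k ≤ NC s t K B (↑F : Set E)) :
    kOcc (fun G : Finset E => ∃ x ∈ K, RB s t B (↑G : Set E) x) k F := by
  classical
  induction k generalizing F with
  | zero => trivial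
  | succ k ih =>
    have hpos : 0 < (TC s t K B (↑F : Set E)).card := by
      unfold NC at h; omega
    obtain ⟨C, hC⟩ := Finset.card_pos.mp hpos
    obtain ⟨x, hx, ⟨b, hb, hr⟩, hxC⟩ := mem_TC.mp hC
    set K1 := F.filter (fun e => s e ∈ C) with hK1
    set L := F.filter (fun e => s e ∉ C) with hL
    refine ⟨K1, L, Finset.filter_subset _ _, Finset.filter_subset _ _, ?_, ?_, ?_⟩
    · rw [Finset.disjoint_left]
      intro e h1 h2
      rw [hK1, Finset.mem_filter] at h1
      rw [hL, Finset.mem_filter] at h2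
      exact h2.2 h1.2
    · refine ⟨x, hx, b, hb, GR_restrict hr ?_⟩
      intro e he hse
      rw [hK1, Finset.coe_filter]
      refine ⟨by exact_mod_cast he, ?_⟩
      rw [← hxC]; exact hse
    · apply ih
      have hsub : (TC s t K B (↑F : Set E)).erase C ⊆ TC s t K B (↑L : Set E) := by
        intro C' hC'
        rw [Finset.mem_erase] at hC'
        obtain ⟨hne, hC'⟩ := hC'
        obtain ⟨x', hx', ⟨b', hb', hr'⟩, hxC'⟩ := mem_TC.mp hC'
        have key : ∀ y, GR s t (↑F : Set E) x' y → GR s t (↑L : Set E) x' y := by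
          intro y hy
          apply GR_restrict hy
          intro e he hse
          rw [hL, Finset.coe_filter]
          refine ⟨by exact_mod_cast he, ?_⟩
          intro hmem
          apply hne
          rw [← hxC, ← hxC']
          have h1 : GR s t (↑F : Set E) x (s e) := by
            have : s e ∈ clu s t (↑F : Set E) x := by rw [hxC]; exact hmem
            exact this
          rw [clu_eq h1, clu_eq hse]
        have hLF : (↑L : Set E) ⊆ ↑F := by
          rw [hL]; exact_mod_cast Finset.filter_subset _ _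
        rw [mem_TC]
        refine ⟨x', hx', ⟨b', hb', key _ hr'⟩, ?_⟩
        rw [← hxC']
        ext y
        exact ⟨fun hy => GR.mono hLF hy, fun hy => key y hy⟩
      have hcard := Finset.card_le_card hsub
      rw [Finset.card_erase_of_mem hC] at hcard
      unfold NC at h ⊢
      omega

theorem geom_bound {lam : ℝ} (h0 : 0 ≤ lam) (h1 : lam < 1) (M : ℕ) :
    ∑ k ∈ Finset.range M, ((k:ℝ) + 1) * lam^k ≤ 1 / (1 - lam)^2 := by
  have h2 : 0 < (1 - lam)^2 := by
    have : 0 < 1 - lam := by linarith
    positivity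
  rw [le_div_iff₀ h2]
  have key : (∑ k ∈ Finset.range M, ((k:ℝ) + 1) * lam^k) * (1 - lam)^2 =
      1 - ((M:ℝ) + 1) * lam^M + M * lam^(M+1) := by
    induction M with
    | zero => simp
    | succ M ih =>
      rw [Finset.sum_range_succ, add_mul, ih]
      push_cast
      ring
  rw [key]
  have h3 : 0 ≤ lam^M := pow_nonneg h0 M
  have h4 : 0 ≤ (M:ℝ) := Nat.cast_nonneg M
  rw [pow_succ]
  nlinarith [mul_nonneg h4 (mul_nonneg h3 (by linarith : 0 ≤ 1 - lam))]

theorem sq_eq_sum (n M : ℕ) (h : n ≤ M) :
    ((n:ℝ))^2 = ∑ k ∈ Finset.range M, (2 * (k:ℝ) + 1) * ind (k + 1 ≤ n) := by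
  have h1 : ∑ k ∈ Finset.range M, (2 * (k:ℝ) + 1) * ind (k + 1 ≤ n) =
      ∑ k ∈ Finset.range n, (2 * (k:ℝ) + 1) := by
    rw [← Finset.sum_subset (Finset.range_mono h)]
    · apply Finset.sum_congr rfl
      intro k hk
      rw [Finset.mem_range] at hk
      rw [ind_of (by omega), mul_one]
    · intro k _ hk
      rw [Finset.mem_range] at hk
      rw [ind_not_of (by omega), mul_zero]
  rw [h1]
  have h2 : ∀ n : ℕ, ∑ k ∈ Finset.range n, (2 * (k:ℝ) + 1) = (n:ℝ)^2 := by
    intro n
    induction n with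
    | zero => simp
    | succ n ih => rw [Finset.sum_range_succ, ih]; push_cast; ring
  rw [h2]

/-- Second moment of the number of clusters. -/
theorem NC_sq {p : E → ℝ} (hp : Ok p) (S : Finset E) (s t : E → V) (K : Finset V) (B : Set V)
    {lam : ℝ} (h1 : lam < 1)
    (hA : Pr p S (fun G : Finset E => ∃ x ∈ K, RB s t B (↑G : Set E) x) ≤ lam) :
    Ex p S (fun F => ((NC s t K B (↑F : Set E) : ℕ) : ℝ)^2) ≤ 2 / (1 - lam)^2 := by
  have h0 : 0 ≤ lam := (Pr_nonneg hp _ _).trans hA
  have e1 : Ex p S (fun F => ((NC s t K B (↑F : Set E) : ℕ) : ℝ)^2) =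
      ∑ k ∈ Finset.range K.card, (2 * (k:ℝ) + 1) *
        Pr p S (fun F => k + 1 ≤ NC s t K B (↑F : Set E)) := by
    have e0 : ∀ F : Finset E, F ⊆ S → ((NC s t K B (↑F : Set E) : ℕ) : ℝ)^2 =
        ∑ k ∈ Finset.range K.card, (2 * (k:ℝ) + 1) * ind (k + 1 ≤ NC s t K B (↑F : Set E)) :=
      fun F _ => sq_eq_sum _ _ (NC_le s t K B _)
    rw [Ex_congr e0, Ex_sum p S (Finset.range K.card)
      (fun k F => (2 * (k:ℝ) + 1) * ind (k + 1 ≤ NC s t K B (↑F : Set E)))]
    apply Finset.sum_congr rfl
    intro k _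
    unfold Pr
    exact Ex_mul_left p S (2 * (k:ℝ) + 1) (fun F => ind (k + 1 ≤ NC s t K B (↑F : Set E)))
  rw [e1]
  have e2 : ∀ k ∈ Finset.range K.card, (2 * (k:ℝ) + 1) *
      Pr p S (fun F => k + 1 ≤ NC s t K B (↑F : Set E)) ≤ 2 * (((k:ℝ) + 1) * lam^k) := by
    intro k _
    have k1 : Pr p S (fun F => k + 1 ≤ NC s t K B (↑F : Set E)) ≤
        Pr p S (kOcc (fun G : Finset E => ∃ x ∈ K, RB s t B (↑G : Set E) x) (k + 1)) :=
      Pr_mono hp (fun F _ h => NC_kOcc s t K B (k + 1) F h)
    have k2 := pr_kOcc hp (S := S) (A := fun G : Finset E => ∃ x ∈ K, RB s t B (↑G : Set E) x)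
      (by
        rintro F G h ⟨x, hx, b, hb, hr⟩
        exact ⟨x, hx, b, hb, hr.mono (by exact_mod_cast h)⟩) (k + 1)
    have k3 : (Pr p S (fun G : Finset E => ∃ x ∈ K, RB s t B (↑G : Set E) x))^(k+1) ≤
        lam^(k+1) := pow_le_pow_left₀ (Pr_nonneg hp _ _) hA _
    have k4 : lam^(k+1) ≤ lam^k := by
      rw [pow_succ]
      exact mul_le_of_le_one_right (pow_nonneg h0 k) h1.le
    have k5 : Pr p S (fun F => k + 1 ≤ NC s t K B (↑F : Set E)) ≤ lam^k := by linarith
    have k6 : 0 ≤ (k:ℝ) := Nat.cast_nonneg k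
    have k7 : 0 ≤ lam^k := pow_nonneg h0 k
    calc (2 * (k:ℝ) + 1) * Pr p S (fun F => k + 1 ≤ NC s t K B (↑F : Set E))
        ≤ (2 * (k:ℝ) + 1) * lam^k := mul_le_mul_of_nonneg_left k5 (by positivity)
      _ ≤ 2 * (((k:ℝ) + 1) * lam^k) := by nlinarith
  refine (Finset.sum_le_sum e2).trans ?_
  rw [← Finset.mul_sum]
  have := geom_bound h0 h1 K.card
  calc 2 * ∑ i ∈ Finset.range K.card, ((i:ℝ) + 1) * lam^i ≤ 2 * (1 / (1 - lam)^2) := by linarith
    _ = 2 / (1 - lam)^2 := by ring

/-- Two distinct clusters meet at `e` and reach `B`. -/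
def F4 (s t : E → V) (B : Set V) (e : E) (F : Finset E) : Prop :=
  RB s t B (↑F : Set E) (s e) ∧ RB s t B (↑F : Set E) (t e) ∧
    ¬ GR s t (↑F : Set E) (s e) (t e)

/-- The abstract four-arm bound. -/
theorem abs4 {s t : E → V} {s' t' : E → V'} {B : Set V} {B' : Set V'} {S core : Finset E}
    {p : E → ℝ} (hp : ∀ e, 1/4 ≤ p e ∧ p e ≤ 3/4) (hcore : core ⊆ S) {K : Finset V}
    (hK : ∀ e ∈ core, s e ∈ K ∧ t e ∈ K) {lam : ℝ} (h1 : lam < 1)
    (hA : Pr p S (fun G : Finset E => ∃ x ∈ K, RB s t B (↑G : Set E) x) ≤ lam) {bet : ℝ}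
    (hbet : ∀ e ∈ core, Pr p (S.erase e) (GG s t s' t' B B' S e) ≤ bet) :
    (∑ e ∈ core, Pr p (S.erase e) (fun F => F4 s t B e F ∧ GG s t s' t' B B' S e F))^2 ≤
      15 * (core.card * bet) / (1 - lam)^2 := by
  have ok : Ok p := fun e => ⟨by linarith [(hp e).1], by linarith [(hp e).2]⟩
  have hw : ∀ e, 3/16 ≤ p e * (1 - p e) := fun e => by nlinarith [(hp e).1, (hp e).2]
  have hw' : ∀ e, p e * (1 - p e) ≤ 1/4 := fun e => by nlinarith [sq_nonneg (p e - 1/2)]
  have hst := static_bound (s := s) (t := t) (s' := s') (t' := t') (B := B) (B' := B') ok hcore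
    (fun F => - ((NC s t K B (↑F : Set E) : ℕ) : ℝ))
  have e1 : ∀ e ∈ core, p e * (1 - p e) * Ex p (S.erase e)
      (fun F => (-((NC s t K B (↑(insert e F) : Set E) : ℕ) : ℝ) -
        -((NC s t K B (↑F : Set E) : ℕ) : ℝ)) * ind (GG s t s' t' B B' S e F)) =
      p e * (1 - p e) * Pr p (S.erase e) (fun F => F4 s t B e F ∧ GG s t s' t' B B' S e F) := by
    intro e he
    congr 1
    unfold Pr
    apply Ex_congr
    intro F _
    rw [ind_and, Finset.coe_insert]
    congr 1
    have := NC_insert (s := s) (t := t) (K := K) (B := B) (F := (↑F : Set E)) (hK e he).1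
      (hK e he).2
    unfold F4
    linarith
  rw [Finset.sum_congr rfl e1] at hst
  have e2 : Ex p S (fun F => (-((NC s t K B (↑F : Set E) : ℕ) : ℝ))^2) ≤ 2 / (1 - lam)^2 := by
    have := NC_sq ok S s t K B h1 hA
    simpa only [neg_sq] using this
  have e3 : ∑ e ∈ core, p e * (1 - p e) * Pr p (S.erase e) (GG s t s' t' B B' S e) ≤
      core.card * bet / 4 := by
    calc ∑ e ∈ core, p e * (1 - p e) * Pr p (S.erase e) (GG s t s' t' B B' S e)
        ≤ ∑ _e ∈ core, (1/4) * bet := by
          apply Finset.sum_le_sum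
          intro e he
          exact mul_le_mul (hw' e) (hbet e he) (Pr_nonneg ok _ _) (by norm_num)
      _ = core.card * bet / 4 := by
          rw [Finset.sum_const, nsmul_eq_mul]; ring
  have e4 : 3/16 * ∑ e ∈ core, Pr p (S.erase e) (fun F => F4 s t B e F ∧
      GG s t s' t' B B' S e F) ≤ ∑ e ∈ core, p e * (1 - p e) * Pr p (S.erase e)
        (fun F => F4 s t B e F ∧ GG s t s' t' B B' S e F) := by
    rw [Finset.mul_sum]
    apply Finset.sum_le_sum
    intro e _
    exact mul_le_mul_of_nonneg_right (hw e) (Pr_nonneg ok _ _)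
  set X := ∑ e ∈ core, Pr p (S.erase e) (fun F => F4 s t B e F ∧ GG s t s' t' B B' S e F)
    with hX
  have hX0 : 0 ≤ X := Finset.sum_nonneg (fun e _ => Pr_nonneg ok _ _)
  have hl : 0 < 1 - lam := by linarith
  have e5 : (3/16 * X)^2 ≤ (2 / (1 - lam)^2) * (core.card * bet / 4) := by
    have k1 : (3/16 * X)^2 ≤ (∑ e ∈ core, p e * (1 - p e) * Pr p (S.erase e)
        (fun F => F4 s t B e F ∧ GG s t s' t' B B' S e F))^2 :=
      pow_le_pow_left₀ (by positivity) e4 2
    have k2 : 0 ≤ ∑ e ∈ core, p e * (1 - p e) * Pr p (S.erase e) (GG s t s' t' B B' S e) :=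
      Finset.sum_nonneg (fun e _ => mul_nonneg (by linarith [hw e]) (Pr_nonneg ok _ _))
    exact k1.trans (hst.trans (mul_le_mul e2 e3 k2 (by positivity)))
  have e6 : (2 / (1 - lam)^2) * (core.card * bet / 4) =
      (core.card * bet) / (1 - lam)^2 / 2 := by
    field_simp
    ring
  rw [e6] at e5
  have e7 : 0 ≤ (core.card * bet) / (1 - lam)^2 := by
    have := sq_nonneg (3/16 * X)
    linarith
  calc X^2 = (256/9) * (3/16 * X)^2 := by ring
    _ ≤ (256/9) * ((core.card * bet) / (1 - lam)^2 / 2) :=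
        mul_le_mul_of_nonneg_left e5 (by norm_num)
    _ ≤ 15 * (core.card * bet) / (1 - lam)^2 := by
        have e8 : 15 * (core.card * bet) / (1 - lam)^2 =
            15 * ((core.card * bet) / (1 - lam)^2) := by ring
        rw [e8]
        linarith

end Count

end H99L
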