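import Pool.Agent.H99.L.Sym

/-!
Crossings of rectangles: sub-crossings, gluing, duality, and circuits in annuli.
-/

set_option maxHeartbeats 400000

namespace H99L

open Finset

/-- Left-right crossing. -/
def LRc (a b c d : ℤ) (F : Finset Edg) : Prop :=
  ∃ y y', (c ≤ y ∧ y ≤ d) ∧ (c ≤ y' ∧ y' ≤ d) ∧ Reach (↑F ∩ ↑(LRE a b c d)) (a, y) (b, y')

/-- Top-bottom crossing. -/
def TBc (a b c d : ℤ) (F : Finset Edg) : Prop :=
  ∃ x x', (a ≤ x ∧ x ≤ b) ∧ (a ≤ x' ∧ x' ≤ b) ∧ Reach (↑F ∩ ↑(TBE a b c d)) (x, c) (x', d)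

theorem LRc.mono {a b c d : ℤ} {F G : Finset Edg} (h : F ⊆ G) (hF : LRc a b c d F) :
    LRc a b c d G := by
  obtain ⟨y, y', h1, h2, h3⟩ := hF
  exact ⟨y, y', h1, h2, h3.mono (Set.inter_subset_inter_left _ (by exact_mod_cast h))⟩

theorem TBc.mono {a b c d : ℤ} {F G : Finset Edg} (h : F ⊆ G) (hF : TBc a b c d F) :
    TBc a b c d G := by
  obtain ⟨y, y', h1, h2, h3⟩ := hF
  exact ⟨y, y', h1, h2, h3.mono (Set.inter_subset_inter_left _ (by exact_mod_cast h))⟩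

theorem LRc_incr (S : Finset Edg) (a b c d : ℤ) : IncrE S (LRc a b c d) :=
  fun _ _ h _ hF => hF.mono h

theorem TBc_incr (S : Finset Edg) (a b c d : ℤ) : IncrE S (TBc a b c d) :=
  fun _ _ h _ hF => hF.mono h

theorem coe_inter_eq {F S T : Finset Edg} (hT : T ⊆ S) :
    (↑(F ∩ S) : Set Edg) ∩ ↑T = ↑F ∩ ↑T := by
  ext e
  simp only [Finset.coe_inter, Set.mem_inter_iff, Finset.mem_coe]
  constructor
  · rintro ⟨⟨h1, h2⟩, h3⟩; exact ⟨h1, h3⟩
  · rintro ⟨h1, h3⟩; exact ⟨⟨h1, hT h3⟩, h3⟩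

theorem LRc_local {a b c d : ℤ} {F S : Finset Edg} (hS : LRE a b c d ⊆ S) :
    LRc a b c d F ↔ LRc a b c d (F ∩ S) := by
  unfold LRc
  rw [coe_inter_eq hS]

theorem TBc_local {a b c d : ℤ} {F S : Finset Edg} (hS : TBE a b c d ⊆ S) :
    TBc a b c d F ↔ TBc a b c d (F ∩ S) := by
  unfold TBc
  rw [coe_inter_eq hS]

theorem LSym.image_inter (g : LSym) (F T : Finset Edg) :
    g.φ '' ((F : Set Edg) ∩ ↑T) = ↑(g.mp F) ∩ ↑(g.mp T) := by
  rw [Set.image_inter g.φ.injective, LSym.coe_mp, LSym.coe_mp]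

theorem LRc_trl {a b c d s t : ℤ} {F : Finset Edg} (h : LRc a b c d F) :
    LRc (a + s) (b + s) (c + t) (d + t) ((trl s t).mp F) := by
  obtain ⟨y, y', h1, h2, h3⟩ := h
  have := (trl s t).reach h3
  rw [LSym.image_inter, trl_LRE, trl_ψ, trl_ψ] at this
  exact ⟨y + t, y' + t, by omega, by omega, this⟩

theorem TBc_trl {a b c d s t : ℤ} {F : Finset Edg} (h : TBc a b c d F) :
    TBc (a + s) (b + s) (c + t) (d + t) ((trl s t).mp F) := by
  obtain ⟨y, y', h1, h2, h3⟩ := h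
  have := (trl s t).reach h3
  rw [LSym.image_inter, trl_TBE, trl_ψ, trl_ψ] at this
  exact ⟨y + s, y' + s, by omega, by omega, this⟩

theorem TBc_tps {a b c d : ℤ} {F : Finset Edg} (h : LRc a b c d F) :
    TBc c d a b (tps.mp F) := by
  obtain ⟨y, y', h1, h2, h3⟩ := h
  have := tps.reach h3
  rw [LSym.image_inter, tps_LRE, tps_ψ, tps_ψ] at this
  exact ⟨y, y', h1, h2, this⟩

theorem LRc_tps {a b c d : ℤ} {F : Finset Edg} (h : TBc a b c d F) :
    LRc c d a b (tps.mp F) := by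
  obtain ⟨y, y', h1, h2, h3⟩ := h
  have := tps.reach h3
  rw [LSym.image_inter, tps_TBE, tps_ψ, tps_ψ] at this
  exact ⟨y, y', h1, h2, this⟩

theorem tps_tps (F : Finset Edg) : tps.mp (tps.mp F) = F := by
  ext ⟨x, y, b⟩
  simp [LSym.mem_mp]

theorem trl_trl (s t : ℤ) (F : Finset Edg) : (trl (-s) (-t)).mp ((trl s t).mp F) = F := by
  ext ⟨x, y, b⟩
  simp [LSym.mem_mp]

theorem LRc_tps_iff {a b c d : ℤ} {F : Finset Edg} : LRc c d a b (tps.mp F) ↔ TBc a b c d F := by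
  constructor
  · intro h
    have := TBc_tps h
    rwa [tps_tps] at this
  · exact LRc_tps

theorem TBc_tps_iff {a b c d : ℤ} {F : Finset Edg} : TBc c d a b (tps.mp F) ↔ LRc a b c d F := by
  constructor
  · intro h
    have := LRc_tps h
    rwa [tps_tps] at this
  · exact TBc_tps

theorem LRc_trl_iff {a b c d s t : ℤ} {F : Finset Edg} :
    LRc (a + s) (b + s) (c + t) (d + t) ((trl s t).mp F) ↔ LRc a b c d F := by
  constructor
  · intro h
    have := LRc_trl (s := -s) (t := -t) h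
    rw [trl_trl] at this
    simpa using this
  · exact LRc_trl

/-- Crossing probability of a rectangle of width `w` and height `h`. -/
noncomputable def hh (q : ℝ) (w h : ℤ) : ℝ := Pr (fun _ => q) (LRE 0 w 0 h) (LRc 0 w 0 h)

theorem pr_LRc0 (q : ℝ) {a b c d : ℤ} {S : Finset Edg} (hS : LRE a b c d ⊆ S) :
    Pr (fun _ => q) S (LRc a b c d) = Pr (fun _ => q) (LRE a b c d) (LRc a b c d) := by
  apply Pr_local hS
  intro F _
  exact LRc_local (Finset.Subset.refl _)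

theorem pr_TBc0 (q : ℝ) {a b c d : ℤ} {S : Finset Edg} (hS : TBE a b c d ⊆ S) :
    Pr (fun _ => q) S (TBc a b c d) = Pr (fun _ => q) (TBE a b c d) (TBc a b c d) := by
  apply Pr_local hS
  intro F _
  exact TBc_local (Finset.Subset.refl _)

theorem pr_LRc (q : ℝ) {a b c d : ℤ} {S : Finset Edg} (hS : LRE a b c d ⊆ S) :
    Pr (fun _ => q) S (LRc a b c d) = hh q (b - a) (d - c) := by
  rw [pr_LRc0 q hS]
  unfold hh
  have h1 : LRE a b c d = (trl a c).mp (LRE 0 (b - a) 0 (d - c)) := by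
    rw [trl_LRE]; congr 1 <;> ring
  rw [h1, LSym.pr]
  apply Pr_congr
  intro F _
  have := LRc_trl_iff (a := 0) (b := b - a) (c := 0) (d := d - c) (s := a) (t := c) (F := F)
  simpa using this

theorem pr_TBc (q : ℝ) {a b c d : ℤ} {S : Finset Edg} (hS : TBE a b c d ⊆ S) :
    Pr (fun _ => q) S (TBc a b c d) = hh q (d - c) (b - a) := by
  rw [pr_TBc0 q hS]
  have h1 : TBE a b c d = tps.mp (LRE c d a b) := by rw [tps_LRE]
  rw [h1, LSym.pr]
  rw [← pr_LRc q (Finset.Subset.refl (LRE c d a b))]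
  apply Pr_congr
  intro F _
  exact TBc_tps_iff

theorem okq {q : ℝ} (h0 : 0 ≤ q) (h1 : q ≤ 1) : Ok (fun _ : Edg => q) := fun _ => ⟨h0, h1⟩

/-- Duality for crossing probabilities. -/
theorem hh_dual {q : ℝ} {w h : ℤ} (hw : 0 < w) (hh0 : 0 ≤ h) :
    hh q w h = 1 - hh (1 - q) (h + 1) (w - 1) := by
  have h1 : hh (1 - q) (h + 1) (w - 1)
      = Pr (fun _ => 1 - q) (TBE 0 (w - 1) (-1) h) (TBc 0 (w - 1) (-1) h) := by
    rw [pr_TBc (1 - q) (Finset.Subset.refl (TBE 0 (w - 1) (-1) h))]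
    congr 1; ring
  rw [h1]
  have h2 : TBE 0 (w - 1) (-1) h = dmp (LRE 0 w 0 h) := by rw [dmp_LRE]; rfl
  rw [h2, pr_dmp, Pr_compl (fun _ : Edg => q), ← Pr_not]
  unfold hh
  apply Pr_congr
  intro F hF
  constructor
  · rintro ⟨y, y', h3, h4, h5⟩ ⟨x, x', h6, h7, h8⟩
    have h9 : ((↑(dmp (LRE 0 w 0 h \ F)) : Set Edg) ∩ ↑(TBE 0 (w - 1) (-1) h))
        = dl '' ((↑F : Set Edg)ᶜ ∩ ↑(LRE 0 w 0 h)) := by
      rw [h2, coe_dmp, coe_dmp, ← Set.image_inter dl.injective]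
      congr 1
      ext e
      simp only [Finset.coe_sdiff, Set.mem_inter_iff, Set.mem_sdiff, Finset.mem_coe,
        Set.mem_compl_iff]
      tauto
    rw [h9, reach_dl] at h8
    exact no_both hh0 h4 (a := 0) (b := w) (x := x) (by omega) h5 (by simpa using h8)
  · intro hno
    by_contra hcon
    apply hno
    set W : Vtx → Prop := fun v => ∃ y, (0 ≤ y ∧ y ≤ h) ∧ Reach (↑F ∩ ↑(LRE 0 w 0 h)) (0, y) v
      with hW
    have hL : ∀ y, 0 ≤ y → y ≤ h → W (0, y) := fun y h3 h4 => ⟨y, ⟨h3, h4⟩, Reach.refl _ _⟩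
    have hR : ∀ y, 0 ≤ y → y ≤ h → ¬ W (w, y) := by
      rintro y h3 h4 ⟨y0, h5, h6⟩
      exact hcon ⟨y0, y, h5, ⟨h3, h4⟩, h6⟩
    obtain ⟨x, x', hx, hx', hr⟩ := dual_crossing hw.le hh0 W hL hR
    refine ⟨x, x', by omega, by omega, ?_⟩
    have h9 : ((↑(dmp (LRE 0 w 0 h \ F)) : Set Edg) ∩ ↑(TBE 0 (w - 1) (-1) h))
        = dl '' ((↑F : Set Edg)ᶜ ∩ ↑(LRE 0 w 0 h)) := by
      rw [h2, coe_dmp, coe_dmp, ← Set.image_inter dl.injective]
      congr 1
      ext e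
      simp only [Finset.coe_sdiff, Set.mem_inter_iff, Set.mem_sdiff, Finset.mem_coe,
        Set.mem_compl_iff]
      tauto
    rw [h9, reach_dl]
    refine DReach.mono ?_ (by simpa using hr)
    rintro e ⟨he1, he2⟩
    refine ⟨?_, he2⟩
    intro heF
    apply he1
    constructor
    · rintro ⟨y, h3, h4⟩
      exact ⟨y, h3, h4.trans (Adj.reach ⟨e, ⟨heF, he2⟩, Or.inl ⟨rfl, rfl⟩⟩)⟩
    · rintro ⟨y, h3, h4⟩
      exact ⟨y, h3, h4.trans (Adj.reach ⟨e, ⟨heF, he2⟩, Or.inr ⟨rfl, rfl⟩⟩)⟩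

theorem hh_half (n : ℤ) (hn : 0 ≤ n) : hh (1/2) (n + 1) n = 1/2 := by
  have h := hh_dual (q := 1/2) (w := n + 1) (h := n) (by omega) hn
  have e1 : (1:ℝ) - 1/2 = 1/2 := by norm_num
  rw [e1] at h
  have e2 : n + 1 - 1 = n := by ring
  rw [e2] at h
  linarith

/-! ### Sub-crossings -/

/-- A path from the left of the strip `a ≤ x ≤ b` to its right contains a crossing. -/
theorem sub_LR {G : Set Edg} {a b c d : ℤ} (hab : a < b)
    (hH : ∀ x y, ((x, y, true) : Edg) ∈ G → a ≤ x → x < b → c ≤ y ∧ y ≤ d)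
    (hV : ∀ x y, ((x, y, false) : Edg) ∈ G → a < x → x < b → c ≤ y ∧ y < d)
    {u v : Vtx} (h : Reach G u v) (hu : u.1 ≤ a) (hv : b ≤ v.1) :
    ∃ y1 y2, (c ≤ y1 ∧ y1 ≤ d) ∧ (c ≤ y2 ∧ y2 ≤ d) ∧
      Reach (G ∩ ↑(LRE a b c d)) (a, y1) (b, y2) ∧ Reach G u (a, y1) := by
  have key : ∀ w, Reach G u w →
      (∃ y1 y2, (c ≤ y1 ∧ y1 ≤ d) ∧ (c ≤ y2 ∧ y2 ≤ d) ∧
        Reach (G ∩ ↑(LRE a b c d)) (a, y1) (b, y2) ∧ Reach G u (a, y1)) ∨ w.1 ≤ a ∨
      (a < w.1 ∧ w.1 < b ∧ ∃ y1, (c ≤ y1 ∧ y1 ≤ d) ∧ Reach (G ∩ ↑(LRE a b c d)) (a, y1) w ∧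
        Reach G u (a, y1)) := by
    intro w hw
    induction hw with
    | refl => exact Or.inr (Or.inl hu)
    | @tail w w' hw hs ih =>
      rcases ih with ih | ih | ⟨ih1, ih2, y1, ih3, ih4, ih5⟩
      · exact Or.inl ih
      · obtain ⟨⟨x0, y0, bo⟩, heG, hcase⟩ := hs
        cases bo
        · simp only [src_mk, tgt_false] at hcase
          right; left
          rcases hcase with ⟨h3, h4⟩ | ⟨h3, h4⟩
          · rw [← h4]; rw [← h3] at ih; exact ih
          · rw [← h3]; rw [← h4] at ih; exact ih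
        · simp only [src_mk, tgt_true] at hcase
          rcases hcase with ⟨h3, h4⟩ | ⟨h3, h4⟩
          · rw [← h3] at ih hw
            rw [← h4]
            simp only at ih
            rcases eq_or_lt_of_le ih with h5 | h5
            · subst h5
              have hcd := hH _ _ heG le_rfl hab
              have hm : ((x0, y0, true) : Edg) ∈ G ∩ ↑(LRE x0 b c d) :=
                ⟨heG, by simp only [mem_coe, mem_LRE_true]; omega⟩
              have hr : Reach (G ∩ ↑(LRE x0 b c d)) (x0, y0) (x0 + 1, y0) :=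
                Adj.reach ⟨_, hm, Or.inl ⟨by simp, by simp⟩⟩
              by_cases hb : x0 + 1 = b
              · left
                refine ⟨y0, y0, hcd, hcd, ?_, hw⟩
                rw [← hb]; rw [← hb] at hr; exact hr
              · right; right
                refine ⟨by simp, by simp only; omega, y0, hcd, hr, hw⟩
            · right; left; simp only; omega
          · rw [← h4] at ih
            rw [← h3]
            right; left; simp only at ih ⊢; omega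
      · obtain ⟨⟨x0, y0, bo⟩, heG, hcase⟩ := hs
        cases bo
        · simp only [src_mk, tgt_false] at hcase
          have hx : a < x0 ∧ x0 < b := by
            rcases hcase with ⟨h3, h4⟩ | ⟨h3, h4⟩
            · rw [← h3] at ih1 ih2; exact ⟨ih1, ih2⟩
            · rw [← h4] at ih1 ih2; exact ⟨ih1, ih2⟩
          have hcd := hV _ _ heG hx.1 hx.2
          have hm : ((x0, y0, false) : Edg) ∈ G ∩ ↑(LRE a b c d) :=
            ⟨heG, by simp only [mem_coe, mem_LRE_false]; omega⟩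
          right; right
          have hadj : Adj (G ∩ ↑(LRE a b c d)) w w' :=
            ⟨_, hm, by simpa only [src_mk, tgt_false] using hcase⟩
          refine ⟨?_, ?_, y1, ih3, ih4.trans hadj.reach, ih5⟩
          · rcases hcase with ⟨h3, h4⟩ | ⟨h3, h4⟩
            · rw [← h4]; exact hx.1
            · rw [← h3]; exact hx.1
          · rcases hcase with ⟨h3, h4⟩ | ⟨h3, h4⟩
            · rw [← h4]; exact hx.2
            · rw [← h3]; exact hx.2
        · simp only [src_mk, tgt_true] at hcase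
          have hx : a ≤ x0 ∧ x0 < b := by
            rcases hcase with ⟨h3, h4⟩ | ⟨h3, h4⟩
            · rw [← h3] at ih1 ih2; simp only at ih1 ih2; omega
            · rw [← h4] at ih1 ih2; simp only at ih1 ih2; omega
          have hcd := hH _ _ heG hx.1 hx.2
          have hm : ((x0, y0, true) : Edg) ∈ G ∩ ↑(LRE a b c d) :=
            ⟨heG, by simp only [mem_coe, mem_LRE_true]; omega⟩
          have hadj : Adj (G ∩ ↑(LRE a b c d)) w w' :=
            ⟨_, hm, by simpa only [src_mk, tgt_true] using hcase⟩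
          have hr := ih4.trans hadj.reach
          rcases hcase with ⟨h3, h4⟩ | ⟨h3, h4⟩
          · rw [← h4] at hr ⊢
            by_cases hb : x0 + 1 = b
            · left
              rw [hb] at hr
              exact ⟨y1, y0, ih3, hcd, hr, ih5⟩
            · right; right
              rw [← h3] at ih1
              simp only at ih1
              exact ⟨by simp only; omega, by simp only; omega, y1, ih3, hr, ih5⟩
          · rw [← h3] at hr ⊢
            by_cases hb : x0 = a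
            · right; left; simp only; omega
            · right; right
              exact ⟨by simp only; omega, by simp only; omega, y1, ih3, hr, ih5⟩
  rcases key v h with h1 | h1 | h1
  · exact h1
  · omega
  · omega

theorem tps_image_image (G : Set Edg) : tps.φ '' (tps.φ '' G) = G := by
  rw [Set.image_image]
  have : (fun x => tps.φ (tps.φ x)) = id := by
    funext ⟨x, y, b⟩; simp
  rw [this, Set.image_id]

/-- A path from below the strip `c ≤ y ≤ d` to above it contains a crossing. -/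
theorem sub_TB {G : Set Edg} {a b c d : ℤ} (hcd : c < d)
    (hV : ∀ x y, ((x, y, false) : Edg) ∈ G → c ≤ y → y < d → a ≤ x ∧ x ≤ b)
    (hH : ∀ x y, ((x, y, true) : Edg) ∈ G → c < y → y < d → a ≤ x ∧ x < b)
    {u v : Vtx} (h : Reach G u v) (hu : u.2 ≤ c) (hv : d ≤ v.2) :
    ∃ x1 x2, (a ≤ x1 ∧ x1 ≤ b) ∧ (a ≤ x2 ∧ x2 ≤ b) ∧
      Reach (G ∩ ↑(TBE a b c d)) (x1, c) (x2, d) ∧ Reach G u (x1, c) := by
  have h1 := tps.reach h
  obtain ⟨x1, x2, h2, h3, h4, h5⟩ := sub_LR (G := tps.φ '' G) (a := c) (b := d) (c := a) (d := b)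
    hcd (by
      rintro x y ⟨⟨x', y', b'⟩, he, heq⟩ h2 h3
      simp only [tps_φ, Prod.mk.injEq] at heq
      obtain ⟨rfl, rfl, hb⟩ := heq
      have : b' = false := by simpa using hb
      subst this
      exact hV _ _ he h2 h3) (by
      rintro x y ⟨⟨x', y', b'⟩, he, heq⟩ h2 h3
      simp only [tps_φ, Prod.mk.injEq] at heq
      obtain ⟨rfl, rfl, hb⟩ := heq
      have : b' = true := by simpa using hb
      subst this
      exact hH _ _ he h2 h3) h1 hu hv
  refine ⟨x1, x2, h2, h3, ?_, ?_⟩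
  · have h6 := tps.reach h4
    rw [tps_ψ, tps_ψ, Set.image_inter tps.φ.injective, tps_image_image, ← LSym.coe_mp,
      tps_LRE] at h6
    exact h6
  · have h6 := tps.reach h5
    rw [tps_image_image] at h6
    exact h6

/-- The rectangle as a set of vertices. -/
def inR (a b c d : ℤ) (w : Vtx) : Prop := (a ≤ w.1 ∧ w.1 ≤ b) ∧ (c ≤ w.2 ∧ w.2 ≤ d)

/-- A path which leaves the interior of a rectangle visits its boundary. -/
theorem first_exit {G : Set Edg} {a b c d : ℤ} {u v : Vtx} (hu : inR a b c d u)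
    (h : Reach G u v) (hv : v.1 ≤ a ∨ b ≤ v.1 ∨ v.2 ≤ c ∨ d ≤ v.2) :
    ∃ w, inR a b c d w ∧ (w.1 = a ∨ w.1 = b ∨ w.2 = c ∨ w.2 = d) ∧
      Reach (G ∩ ↑(RE a b c d)) u w := by
  have key : ∀ w, Reach G u w → (∃ w, inR a b c d w ∧ (w.1 = a ∨ w.1 = b ∨ w.2 = c ∨ w.2 = d) ∧
      Reach (G ∩ ↑(RE a b c d)) u w) ∨
      ((a < w.1 ∧ w.1 < b) ∧ (c < w.2 ∧ w.2 < d) ∧ Reach (G ∩ ↑(RE a b c d)) u w) := by
    intro w hw
    induction hw with
    | refl =>
      by_cases hb : u.1 = a ∨ u.1 = b ∨ u.2 = c ∨ u.2 = d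
      · exact Or.inl ⟨u, hu, hb, Reach.refl _ _⟩
      · right
        obtain ⟨h1, h2⟩ := hu
        refine ⟨by omega, by omega, Reach.refl _ _⟩
    | @tail w w' _ hs ih =>
      rcases ih with ih | ⟨ih1, ih2, ih3⟩
      · exact Or.inl ih
      · obtain ⟨⟨x0, y0, bo⟩, heG, hcase⟩ := hs
        have hmem : ((x0, y0, bo) : Edg) ∈ RE a b c d := by
          cases bo
          · simp only [src_mk, tgt_false] at hcase
            rw [mem_RE_false]
            rcases hcase with ⟨h3, h4⟩ | ⟨h3, h4⟩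
            · rw [← h3] at ih1 ih2; simp only at ih1 ih2; omega
            · rw [← h4] at ih1 ih2; simp only at ih1 ih2; omega
          · simp only [src_mk, tgt_true] at hcase
            rw [mem_RE_true]
            rcases hcase with ⟨h3, h4⟩ | ⟨h3, h4⟩
            · rw [← h3] at ih1 ih2; simp only at ih1 ih2; omega
            · rw [← h4] at ih1 ih2; simp only at ih1 ih2; omega
        have hadj : Adj (G ∩ ↑(RE a b c d)) w w' := ⟨_, ⟨heG, hmem⟩, hcase⟩
        have hr := ih3.trans hadj.reach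
        have hin : inR a b c d w' := by
          unfold inR
          cases bo
          · simp only [src_mk, tgt_false] at hcase
            rcases hcase with ⟨h3, h4⟩ | ⟨h3, h4⟩
            · rw [← h3] at ih1 ih2; rw [← h4]; simp only at ih1 ih2 ⊢; omega
            · rw [← h4] at ih1 ih2; rw [← h3]; simp only at ih1 ih2 ⊢; omega
          · simp only [src_mk, tgt_true] at hcase
            rcases hcase with ⟨h3, h4⟩ | ⟨h3, h4⟩
            · rw [← h3] at ih1 ih2; rw [← h4]; simp only at ih1 ih2 ⊢; omega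
            · rw [← h4] at ih1 ih2; rw [← h3]; simp only at ih1 ih2 ⊢; omega
        by_cases hb : w'.1 = a ∨ w'.1 = b ∨ w'.2 = c ∨ w'.2 = d
        · exact Or.inl ⟨w', hin, hb, hr⟩
        · right
          obtain ⟨h1, h2⟩ := hin
          refine ⟨by omega, by omega, hr⟩
  rcases key v h with h1 | ⟨h1, h2, -⟩
  · exact h1
  · omega

theorem LRc_of_reach {F : Finset Edg} {a b c d : ℤ} (hab : a < b) {u v : Vtx}
    (h : Reach (↑F ∩ ↑(RE a b c d)) u v) (hu : u.1 = a) (hv : v.1 = b) : LRc a b c d F := by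
  obtain ⟨y1, y2, h1, h2, h3, -⟩ := sub_LR (c := c) (d := d) hab
    (by rintro x y ⟨-, h⟩ _ _; simp only [mem_coe, mem_RE_true] at h; omega)
    (by rintro x y ⟨-, h⟩ _ _; simp only [mem_coe, mem_RE_false] at h; omega) h hu.le hv.ge
  refine ⟨y1, y2, h1, h2, h3.mono ?_⟩
  rintro e ⟨⟨h4, -⟩, h5⟩
  exact ⟨h4, h5⟩

theorem TBc_of_reach {F : Finset Edg} {a b c d : ℤ} (hcd : c < d) {u v : Vtx}
    (h : Reach (↑F ∩ ↑(RE a b c d)) u v) (hu : u.2 = c) (hv : v.2 = d) : TBc a b c d F := by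
  obtain ⟨y1, y2, h1, h2, h3, -⟩ := sub_TB (a := a) (b := b) hcd
    (by rintro x y ⟨-, h⟩ _ _; simp only [mem_coe, mem_RE_false] at h; omega)
    (by rintro x y ⟨-, h⟩ _ _; simp only [mem_coe, mem_RE_true] at h; omega) h hu.le hv.ge
  refine ⟨y1, y2, h1, h2, h3.mono ?_⟩
  rintro e ⟨⟨h4, -⟩, h5⟩
  exact ⟨h4, h5⟩

/-- Crossings of long thin rectangles give crossings of short thick ones. -/
theorem LRc_sub {F : Finset Edg} {a b c d a' b' c' d' : ℤ} (ha : a ≤ a') (hab : a' < b')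
    (hb : b' ≤ b) (hc : c' ≤ c) (hd : d ≤ d') (h : LRc a b c d F) : LRc a' b' c' d' F := by
  obtain ⟨y, y', h1, h2, h3⟩ := h
  obtain ⟨y1, y2, h4, h5, h6, -⟩ := sub_LR (a := a') (b := b') (c := c') (d := d') hab
    (by rintro x y ⟨-, h⟩ _ _; simp only [mem_coe, mem_LRE_true] at h; omega)
    (by rintro x y ⟨-, h⟩ _ _; simp only [mem_coe, mem_LRE_false] at h; omega) h3 ha hb
  refine ⟨y1, y2, h4, h5, h6.mono ?_⟩
  rintro e ⟨⟨h7, -⟩, h8⟩
  exact ⟨h7, h8⟩

theorem TBc_sub {F : Finset Edg} {a b c d a' b' c' d' : ℤ} (hc : c ≤ c') (hcd : c' < d')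
    (hd : d' ≤ d) (ha : a' ≤ a) (hb : b ≤ b') (h : TBc a b c d F) : TBc a' b' c' d' F := by
  have := LRc_sub hc hcd hd ha hb (LRc_tps h)
  exact LRc_tps_iff.mp this

theorem hh_mono {q : ℝ} (h0 : 0 ≤ q) (h1 : q ≤ 1) {w w' h h' : ℤ} (hw : 0 < w') (hww : w' ≤ w)
    (hhh : h ≤ h') : hh q w h ≤ hh q w' h' := by
  have e1 : hh q w h = Pr (fun _ => q) (LRE 0 w 0 h ∪ LRE 0 w' 0 h') (LRc 0 w 0 h) := by
    rw [pr_LRc q Finset.subset_union_left]; simp
  have e2 : hh q w' h' = Pr (fun _ => q) (LRE 0 w 0 h ∪ LRE 0 w' 0 h') (LRc 0 w' 0 h') := by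
    rw [pr_LRc q Finset.subset_union_right]; simp
  rw [e1, e2]
  apply Pr_mono (okq h0 h1)
  intro F _ hF
  exact LRc_sub le_rfl hw hww le_rfl hhh hF

theorem hh_nonneg {q : ℝ} (h0 : 0 ≤ q) (h1 : q ≤ 1) (w h : ℤ) : 0 ≤ hh q w h :=
  Pr_nonneg (okq h0 h1) _ _

theorem hh_le_one {q : ℝ} (h0 : 0 ≤ q) (h1 : q ≤ 1) (w h : ℤ) : hh q w h ≤ 1 :=
  Pr_le_one (okq h0 h1) _ _

theorem hh_mono_param {p q : ℝ} (h0 : 0 ≤ p) (hpq : p ≤ q) (h1 : q ≤ 1) (w h : ℤ) :
    hh p w h ≤ hh q w h :=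
  Pr_mono_param (okq h0 (hpq.trans h1)) (okq (h0.trans hpq) h1) (fun _ => hpq)
    (LRc_incr _ _ _ _ _)

/-- Crossing probability of a square at the self-dual point. -/
theorem hh_square (n : ℤ) (hn : 0 < n) : 1/2 ≤ hh (1/2) n n := by
  have h1 : hh (1/2) (n + 1) n ≤ hh (1/2) n n :=
    hh_mono (by norm_num) (by norm_num) hn (by omega) le_rfl
  rw [hh_half n hn.le] at h1
  exact h1

/-- Gluing of two horizontal crossings through a vertical one. -/
theorem glue {F : Finset Edg} {a b a' b' c d : ℤ} (h1 : a ≤ a') (h2 : a' < b) (h3 : b ≤ b')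
    (hcd : c < d) (hA : LRc a b c d F) (hB : LRc a' b' c d F) (hC : TBc a' b c d F) :
    LRc a b' c d F := by
  obtain ⟨y1, y1', h4, h5, h6⟩ := hA
  obtain ⟨y2, y2', h7, h8, h9⟩ := hB
  obtain ⟨x, x', h10, h11, h12⟩ := hC
  obtain ⟨z1, z1', k1, k2, k3, k4⟩ := sub_LR (a := a') (b := b) (c := c) (d := d) h2
    (by rintro x y ⟨-, h⟩ _ _; simp only [mem_coe, mem_LRE_true] at h; omega)
    (by rintro x y ⟨-, h⟩ _ _; simp only [mem_coe, mem_LRE_false] at h; omega) h6 h1 le_rfl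
  obtain ⟨z2, z2', l1, l2, l3, l4⟩ := sub_LR (a := a') (b := b) (c := c) (d := d) h2
    (by rintro x y ⟨-, h⟩ _ _; simp only [mem_coe, mem_LRE_true] at h; omega)
    (by rintro x y ⟨-, h⟩ _ _; simp only [mem_coe, mem_LRE_false] at h; omega) h9 le_rfl h3
  have m1 := crossings_meet h2 hcd.le (F := ↑F) k2 h10
    (k3.mono (by rintro e ⟨⟨h7, -⟩, h8⟩; exact ⟨h7, h8⟩)) h12
  have m2 := crossings_meet h2 hcd.le (F := ↑F) l2 h10
    (l3.mono (by rintro e ⟨⟨h7, -⟩, h8⟩; exact ⟨h7, h8⟩)) h12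
  have sub1 : (↑F : Set Edg) ∩ ↑(RE a' b c d) ⊆ ↑F ∩ ↑(RE a b' c d) := by
    rintro ⟨x, y, _ | _⟩ ⟨h7, h8⟩
    · refine ⟨h7, ?_⟩
      simp only [mem_coe, mem_RE_false] at h8 ⊢; omega
    · refine ⟨h7, ?_⟩
      simp only [mem_coe, mem_RE_true] at h8 ⊢; omega
  have sub2 : (↑F : Set Edg) ∩ ↑(LRE a b c d) ⊆ ↑F ∩ ↑(RE a b' c d) := by
    rintro ⟨x, y, _ | _⟩ ⟨h7, h8⟩
    · refine ⟨h7, ?_⟩
      simp only [mem_coe, mem_RE_false, mem_LRE_false] at h8 ⊢; omega
    · refine ⟨h7, ?_⟩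
      simp only [mem_coe, mem_RE_true, mem_LRE_true] at h8 ⊢; omega
  have sub3 : (↑F : Set Edg) ∩ ↑(LRE a' b' c d) ⊆ ↑F ∩ ↑(RE a b' c d) := by
    rintro ⟨x, y, _ | _⟩ ⟨h7, h8⟩
    · refine ⟨h7, ?_⟩
      simp only [mem_coe, mem_RE_false, mem_LRE_false] at h8 ⊢; omega
    · refine ⟨h7, ?_⟩
      simp only [mem_coe, mem_RE_true, mem_LRE_true] at h8 ⊢; omega
  have r : Reach (↑F ∩ ↑(RE a b' c d)) (a, y1) (b', y2') :=
    (k4.mono sub2).trans ((m1.mono sub1).trans ((m2.symm.mono sub1).trans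
      ((l4.symm.mono sub3).trans (h9.mono sub3))))
  exact LRc_of_reach (by omega) r rfl rfl

/-- Gluing, in probability. -/
theorem hh_glue {q : ℝ} (h0 : 0 ≤ q) (h1 : q ≤ 1) {w1 w2 v h : ℤ} (hv : 0 < v) (hv1 : v ≤ w1)
    (hv2 : v ≤ w2) (hh0 : 0 < h) :
    hh q w1 h * hh q w2 h * hh q h v ≤ hh q (w1 + w2 - v) h := by
  set S := RE 0 (w1 + w2 - v) 0 h with hS
  have s1 : LRE 0 w1 0 h ⊆ S := by
    rintro ⟨x, y, _ | _⟩ h8
    · simp only [mem_RE_false, mem_LRE_false, hS] at h8 ⊢; omega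
    · simp only [mem_RE_true, mem_LRE_true, hS] at h8 ⊢; omega
  have s2 : LRE (w1 - v) (w1 + w2 - v) 0 h ⊆ S := by
    rintro ⟨x, y, _ | _⟩ h8
    · simp only [mem_RE_false, mem_LRE_false, hS] at h8 ⊢; omega
    · simp only [mem_RE_true, mem_LRE_true, hS] at h8 ⊢; omega
  have s3 : TBE (w1 - v) w1 0 h ⊆ S := by
    rintro ⟨x, y, _ | _⟩ h8
    · simp only [mem_RE_false, mem_TBE_false, hS] at h8 ⊢; omega
    · simp only [mem_RE_true, mem_TBE_true, hS] at h8 ⊢; omega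
  have s4 : LRE 0 (w1 + w2 - v) 0 h ⊆ S := LRE_subset_RE
  have e1 := pr_LRc q s1
  have e2 := pr_LRc q s2
  have e3 := pr_TBc q s3
  have e4 := pr_LRc q s4
  have i1 := Pr_harris (okq h0 h1) (LRc_incr S 0 w1 0 h) (LRc_incr S (w1 - v) (w1 + w2 - v) 0 h)
  have hinc : IncrE S (fun F => LRc 0 w1 0 h F ∧ LRc (w1 - v) (w1 + w2 - v) 0 h F) :=
    fun F G hFG _ hF => ⟨hF.1.mono hFG, hF.2.mono hFG⟩
  have i2 := Pr_harris (okq h0 h1) hinc (TBc_incr S (w1 - v) w1 0 h)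
  have i3 : Pr (fun _ => q) S (fun F => (LRc 0 w1 0 h F ∧ LRc (w1 - v) (w1 + w2 - v) 0 h F) ∧
      TBc (w1 - v) w1 0 h F) ≤ Pr (fun _ => q) S (LRc 0 (w1 + w2 - v) 0 h) := by
    apply Pr_mono (okq h0 h1)
    rintro F _ ⟨⟨hA, hB⟩, hC⟩
    exact glue (by omega) (by omega) (by omega) hh0 hA hB hC
  have d1 : w1 - 0 = w1 := by ring
  have d2 : w1 + w2 - v - (w1 - v) = w2 := by ring
  have d3 : w1 - (w1 - v) = v := by ring
  have d4 : w1 + w2 - v - 0 = w1 + w2 - v := by ring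
  have d5 : h - 0 = h := by ring
  rw [d1, d5] at e1
  rw [d2, d5] at e2
  rw [d5, d3] at e3
  rw [d4, d5] at e4
  rw [e1, e2] at i1
  rw [e3] at i2
  rw [e4] at i3
  have hn : 0 ≤ hh q h v := hh_nonneg h0 h1 _ _
  calc hh q w1 h * hh q w2 h * hh q h v
      ≤ _ * hh q h v := mul_le_mul_of_nonneg_right i1 hn
    _ ≤ _ := i2
    _ ≤ _ := i3

end H99L
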