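import Pool.Agent.H99.L.Explore

/-!
The differential inequality for crossing probabilities.
-/

set_option maxHeartbeats 400000

namespace H99L

open Finset

/-- Sums of one-arm probabilities. -/
noncomputable def SS (q : ℝ) (n : ℕ) : ℝ := ∑ r ∈ Finset.range (n + 1), arm q r

theorem pr_AA {q : ℝ} (h0 : 0 ≤ q) (h1 : q ≤ 1) (k H : ℤ) (S : Finset Edg) (v : Vtx) :
    Pr (fun _ => q) S (fun F => AA k H F v) ≤ arm q (v.1 - k).natAbs := by
  refine le_trans ?_ (arm_bound h0 h1 S v (v.1 - k).natAbs)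
  apply Pr_mono (okq h0 h1)
  rintro F _ ⟨y, _, hr⟩
  refine ⟨(k, y), ?_, hr⟩
  simp only
  omega

theorem pr_CC {q : ℝ} (h0 : 0 ≤ q) (h1 : q ≤ 1) (w l : ℤ) (S : Finset Edg) (v : Vtx) :
    Pr (fun _ => q) S (fun F => CC w l F v) ≤ arm q (v.2 - l).natAbs := by
  refine le_trans ?_ (arm_bound h0 h1 (dmp S) v (v.2 - l).natAbs)
  rw [pr_dmp]
  apply Pr_mono (okq h0 h1)
  rintro F _ ⟨x, _, hr⟩
  refine ⟨(x, l), ?_, ?_⟩
  · simp only
    omega
  · rw [coe_dmp, reach_dl]
    exact hr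

theorem pr_rev {q : ℝ} (h0 : 0 ≤ q) (h1 : q ≤ 1) (w H k l : ℤ) (e : Edg) :
    Pr (fun _ => q) (LRE 0 w 0 H) (fun F => e ∈ (ET w H k l).rev F) ≤
      (arm q ((src e).1 - k).natAbs + arm q ((tgt e).1 - k).natAbs) *
      (arm (1 - q) ((dsrc e).2 - l).natAbs + arm (1 - q) ((dtgt e).2 - l).natAbs) := by
  set S := LRE 0 w 0 H with hS
  have ok := okq h0 h1
  have s1 : Pr (fun _ => q) S (fun F => e ∈ (ET w H k l).rev F) ≤
      Pr (fun _ => q) S (fun F => (AA k H ((F ∩ S).erase e) (src e) ∨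
        AA k H ((F ∩ S).erase e) (tgt e)) ∧ (CC w l ((S \ F).erase e) (dsrc e) ∨
        CC w l ((S \ F).erase e) (dtgt e))) := by
    apply Pr_mono ok
    intro F _ h
    have := explore_rev w H k l F (LRE 0 w 0 H).card (LRE 0 w 0 H) ∅ ∅ e h
    rw [Finset.empty_union, Finset.empty_union] at this
    exact this
  have s2 := Pr_harris_decr ok (S := S)
    (A := fun F => AA k H ((F ∩ S).erase e) (src e) ∨ AA k H ((F ∩ S).erase e) (tgt e))
    (B := fun F => CC w l ((S \ F).erase e) (dsrc e) ∨ CC w l ((S \ F).erase e) (dtgt e))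
    (by
      intro F G hFG _ hF
      have hs : (F ∩ S).erase e ⊆ (G ∩ S).erase e :=
        Finset.erase_subset_erase _ (Finset.inter_subset_inter_right hFG)
      exact hF.imp (fun x => x.mono hs) (fun x => x.mono hs))
    (by
      intro F G hFG _ hF hG
      apply hF
      have hs : (S \ G).erase e ⊆ (S \ F).erase e :=
        Finset.erase_subset_erase _ (Finset.sdiff_subset_sdiff (Finset.Subset.refl _) hFG)
      exact hG.imp (fun x => x.mono hs) (fun x => x.mono hs))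
  have s3 : Pr (fun _ => q) S (fun F => AA k H ((F ∩ S).erase e) (src e) ∨
      AA k H ((F ∩ S).erase e) (tgt e)) ≤
      arm q ((src e).1 - k).natAbs + arm q ((tgt e).1 - k).natAbs := by
    refine le_trans ?_ (add_le_add (pr_AA h0 h1 k H S (src e)) (pr_AA h0 h1 k H S (tgt e)))
    refine le_trans ?_ (Pr_or_le ok S _ _)
    apply Pr_mono ok
    intro F _ hF
    have hs : (F ∩ S).erase e ⊆ F := (Finset.erase_subset _ _).trans Finset.inter_subset_left
    exact hF.imp (fun x => x.mono hs) (fun x => x.mono hs)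
  have h0' : 0 ≤ 1 - q := by linarith
  have h1' : 1 - q ≤ 1 := by linarith
  have s4 : Pr (fun _ => q) S (fun F => CC w l ((S \ F).erase e) (dsrc e) ∨
      CC w l ((S \ F).erase e) (dtgt e)) ≤
      arm (1 - q) ((dsrc e).2 - l).natAbs + arm (1 - q) ((dtgt e).2 - l).natAbs := by
    refine le_trans ?_ (add_le_add (pr_CC h0' h1' w l S (dsrc e)) (pr_CC h0' h1' w l S (dtgt e)))
    refine le_trans ?_ (Pr_or_le (okq h0' h1') S _ _)
    rw [Pr_compl (fun _ : Edg => q)]
    apply Pr_mono ok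
    intro F _ hF
    have hs : (S \ F).erase e ⊆ S \ F := Finset.erase_subset _ _
    exact hF.imp (fun x => x.mono hs) (fun x => x.mono hs)
  calc Pr (fun _ => q) S (fun F => e ∈ (ET w H k l).rev F) ≤ _ := s1
    _ ≤ _ := s2
    _ ≤ _ := mul_le_mul s3 s4 (Pr_nonneg ok _ _)
        (add_nonneg (arm_nonneg h0 h1 _) (arm_nonneg h0 h1 _))

theorem sum_inj_le (f : ℕ → ℝ) (hf : ∀ n, 0 ≤ f n) (K : Finset ℕ) (g : ℕ → ℕ) (N : ℕ)
    (hinj : Set.InjOn g ↑K) (hg : ∀ k ∈ K, g k < N) :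
    ∑ k ∈ K, f (g k) ≤ ∑ r ∈ Finset.range N, f r := by
  rw [← Finset.sum_image (f := f) hinj]
  apply Finset.sum_le_sum_of_subset_of_nonneg
  · intro r hr
    rw [Finset.mem_image] at hr
    obtain ⟨k, hk, rfl⟩ := hr
    exact Finset.mem_range.mpr (hg k hk)
  · intro i _ _
    exact hf i

theorem sum_dist_le (f : ℕ → ℝ) (hf : ∀ n, 0 ≤ f n) (a : ℤ) (w N : ℕ)
    (h : ∀ k : ℕ, k ≤ w → (a - k).natAbs < N) :
    ∑ k ∈ Finset.range (w + 1), f (a - (k:ℤ)).natAbs ≤ 2 * ∑ r ∈ Finset.range N, f r := by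
  rw [← Finset.sum_filter_add_sum_filter_not (Finset.range (w + 1)) (fun k : ℕ => (k:ℤ) ≤ a)]
  have e1 := sum_inj_le f hf ((Finset.range (w + 1)).filter (fun k : ℕ => (k:ℤ) ≤ a))
    (fun k => (a - (k:ℤ)).natAbs) N
    (by
      intro x hx y hy hxy
      simp only [Finset.coe_filter, Finset.mem_range, Set.mem_setOf_eq] at hx hy hxy
      omega)
    (by
      intro k hk
      simp only [Finset.mem_filter, Finset.mem_range] at hk
      exact h k (by omega))
  have e2 := sum_inj_le f hf ((Finset.range (w + 1)).filter (fun k : ℕ => ¬ (k:ℤ) ≤ a))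
    (fun k => (a - (k:ℤ)).natAbs) N
    (by
      intro x hx y hy hxy
      simp only [Finset.coe_filter, Finset.mem_range, Set.mem_setOf_eq] at hx hy hxy
      omega)
    (by
      intro k hk
      simp only [Finset.mem_filter, Finset.mem_range] at hk
      exact h k (by omega))
  linarith

/-- The total influence of a crossing event, as a derivative. -/
noncomputable def dh (q : ℝ) (w h : ℤ) : ℝ :=
  ∑ e ∈ LRE 0 w 0 h, Ex (fun _ => q) ((LRE 0 w 0 h).erase e)
    (fun F => ind (LRc 0 w 0 h (insert e F)) - ind (LRc 0 w 0 h F))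

theorem hh_hasDerivAt (q : ℝ) (w h : ℤ) : HasDerivAt (fun q => hh q w h) (dh q w h) q := by
  have := Ex_hasDerivAt (fun (q : ℝ) (_ : Edg) => q) (fun _ => 1) q (fun _ => hasDerivAt_id q)
    (LRE 0 w 0 h) (fun F => ind (LRc 0 w 0 h F))
  simp only [one_mul] at this
  exact this

theorem Inf_LRc (q : ℝ) (w h : ℤ) (e : Edg) :
    Inf (fun _ => q) (LRE 0 w 0 h) (fun F => ind (LRc 0 w 0 h F)) e =
    2 * (q * (1 - q)) * Ex (fun _ => q) ((LRE 0 w 0 h).erase e)
    (fun F => ind (LRc 0 w 0 h (insert e F)) - ind (LRc 0 w 0 h F)) := by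
  unfold Inf
  congr 1
  apply Ex_congr
  intro F _
  apply abs_of_nonneg
  have : ind (LRc 0 w 0 h F) ≤ ind (LRc 0 w 0 h (insert e F)) :=
    ind_mono (fun h => h.mono (Finset.subset_insert _ _))
  linarith

/-- The differential inequality. -/
theorem diff_ineq {q : ℝ} (h0 : 0 ≤ q) (h1 : q ≤ 1) {w H : ℕ} (hw : 0 < w) :
    ((w:ℝ) + 1) * ((H:ℝ) + 1) * (hh q w H * (1 - hh q w H)) ≤
      16 * (SS q w * SS (1 - q) (H + 1)) * (q * (1 - q) * dh q w H) := by
  set S := LRE 0 (w:ℤ) 0 (H:ℤ) with hS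
  have ok := okq h0 h1
  have h0' : 0 ≤ 1 - q := by linarith
  have h1' : 1 - q ≤ 1 := by linarith
  set I : Edg → ℝ := fun e => Inf (fun _ => q) S (fun F => ind (LRc 0 w 0 H F)) e with hI
  have hInn : ∀ e, 0 ≤ I e := fun e => Inf_nonneg ok _ _ _
  -- the inequality for each exploration
  have step : ∀ k ∈ Finset.range (w + 1), ∀ l ∈ Finset.range (H + 1),
      2 * (hh q w H * (1 - hh q w H)) ≤ ∑ e ∈ S,
        ((arm q ((src e).1 - (k:ℤ)).natAbs + arm q ((tgt e).1 - (k:ℤ)).natAbs) *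
        (arm (1 - q) ((dsrc e).2 - (l:ℤ)).natAbs + arm (1 - q) ((dtgt e).2 - (l:ℤ)).natAbs)) *
          I e := by
    intro k hk l hl
    rw [Finset.mem_range] at hk hl
    have := osss ok (ET w H k l) S (ET_valid w H k l) (LRc 0 w 0 H)
      (fun F F' hF hF' h => ET_det (by exact_mod_cast hw) (by omega) (by omega) (by omega)
        F F' hF hF' h)
    refine le_trans this ?_
    apply Finset.sum_le_sum
    intro e _
    exact mul_le_mul_of_nonneg_right (pr_rev h0 h1 w H k l e) (hInn e)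
  have tot := Finset.sum_le_sum (fun k hk => Finset.sum_le_sum (step k hk))
  simp only [Finset.sum_const, Finset.card_range, nsmul_eq_mul] at tot
  -- rearrange the sums
  have rearr : ∑ k ∈ Finset.range (w + 1), ∑ l ∈ Finset.range (H + 1), ∑ e ∈ S,
        ((arm q ((src e).1 - (k:ℤ)).natAbs + arm q ((tgt e).1 - (k:ℤ)).natAbs) *
        (arm (1 - q) ((dsrc e).2 - (l:ℤ)).natAbs + arm (1 - q) ((dtgt e).2 - (l:ℤ)).natAbs)) *
          I e = ∑ e ∈ S,
      ((∑ k ∈ Finset.range (w + 1),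
        (arm q ((src e).1 - (k:ℤ)).natAbs + arm q ((tgt e).1 - (k:ℤ)).natAbs)) *
      (∑ l ∈ Finset.range (H + 1),
        (arm (1 - q) ((dsrc e).2 - (l:ℤ)).natAbs + arm (1 - q) ((dtgt e).2 - (l:ℤ)).natAbs))) *
        I e := by
    have e1 : ∀ k ∈ Finset.range (w + 1), ∑ l ∈ Finset.range (H + 1), ∑ e ∈ S,
        ((arm q ((src e).1 - (k:ℤ)).natAbs + arm q ((tgt e).1 - (k:ℤ)).natAbs) *
        (arm (1 - q) ((dsrc e).2 - (l:ℤ)).natAbs + arm (1 - q) ((dtgt e).2 - (l:ℤ)).natAbs)) *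
          I e = ∑ e ∈ S, ∑ l ∈ Finset.range (H + 1),
        ((arm q ((src e).1 - (k:ℤ)).natAbs + arm q ((tgt e).1 - (k:ℤ)).natAbs) *
        (arm (1 - q) ((dsrc e).2 - (l:ℤ)).natAbs + arm (1 - q) ((dtgt e).2 - (l:ℤ)).natAbs)) *
          I e := fun k _ => Finset.sum_comm
    rw [Finset.sum_congr rfl e1, Finset.sum_comm]
    apply Finset.sum_congr rfl
    intro e _
    rw [Finset.sum_mul_sum, Finset.sum_mul]
    apply Finset.sum_congr rfl
    intro k _
    rw [Finset.sum_mul]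
  rw [rearr] at tot
  have bound : ∀ e ∈ S, ((∑ k ∈ Finset.range (w + 1),
        (arm q ((src e).1 - (k:ℤ)).natAbs + arm q ((tgt e).1 - (k:ℤ)).natAbs)) *
      (∑ l ∈ Finset.range (H + 1),
        (arm (1 - q) ((dsrc e).2 - (l:ℤ)).natAbs + arm (1 - q) ((dtgt e).2 - (l:ℤ)).natAbs))) *
        I e ≤ (4 * SS q w * (4 * SS (1 - q) (H + 1))) * I e := by
    intro e he
    apply mul_le_mul_of_nonneg_right _ (hInn e)
    have hb : (0 ≤ (src e).1 ∧ (src e).1 ≤ w) ∧ (0 ≤ (tgt e).1 ∧ (tgt e).1 ≤ w) ∧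
        (-1 ≤ (dsrc e).2 ∧ (dsrc e).2 ≤ H) ∧ (-1 ≤ (dtgt e).2 ∧ (dtgt e).2 ≤ H) := by
      obtain ⟨x, y, _ | _⟩ := e
      · rw [hS, mem_LRE_false] at he
        simp only [src_mk, tgt_false, dsrc_false, dtgt_mk]; omega
      · rw [hS, mem_LRE_true] at he
        simp only [src_mk, tgt_true, dsrc_true, dtgt_mk]; omega
    apply mul_le_mul
    · rw [Finset.sum_add_distrib]
      have a1 := sum_dist_le (arm q) (arm_nonneg h0 h1) (src e).1 w (w + 1) (by intro k hk; omega)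
      have a2 := sum_dist_le (arm q) (arm_nonneg h0 h1) (tgt e).1 w (w + 1) (by intro k hk; omega)
      unfold SS
      linarith
    · rw [Finset.sum_add_distrib]
      have a1 := sum_dist_le (arm (1 - q)) (arm_nonneg h0' h1') (dsrc e).2 H (H + 1 + 1)
        (by intro k hk; omega)
      have a2 := sum_dist_le (arm (1 - q)) (arm_nonneg h0' h1') (dtgt e).2 H (H + 1 + 1)
        (by intro k hk; omega)
      unfold SS
      linarith
    · exact Finset.sum_nonneg (fun l _ => add_nonneg (arm_nonneg h0' h1' _) (arm_nonneg h0' h1' _))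
    · apply mul_nonneg (by norm_num)
      exact Finset.sum_nonneg (fun l _ => arm_nonneg h0 h1 _)
  have tot2 := tot.trans (Finset.sum_le_sum bound)
  rw [← Finset.mul_sum] at tot2
  have hsum : ∑ e ∈ S, I e = 2 * (q * (1 - q)) * dh q w H := by
    simp only [hI, hS]
    unfold dh
    rw [Finset.mul_sum]
    apply Finset.sum_congr rfl
    intro e _
    exact Inf_LRc q w H e
  rw [hsum] at tot2
  push_cast at tot2
  nlinarith [tot2]

end H99L
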