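import Pool.Agent.H99.L.Arm
import Pool.Agent.H99.L.OSSS

/-!
The two-colour exploration of a rectangle.
-/

set_option maxHeartbeats 400000

namespace H99L

open Finset

/-- Vertices connected to the vertical line `x = k` of the rectangle. -/
def AA (k H : ℤ) (O : Finset Edg) (v : Vtx) : Prop := ∃ y, (0 ≤ y ∧ y ≤ H) ∧ Reach ↑O v (k, y)

/-- Faces connected to the horizontal line `y = l` of faces. -/
def CC (w l : ℤ) (Cl : Finset Edg) (f : Vtx) : Prop := ∃ x, (0 ≤ x ∧ x < w) ∧ DReach ↑Cl f (x, l)

/-- The edge `e` touches both clusters. -/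
def touch (w H k l : ℤ) (e : Edg) (O Cl : Finset Edg) : Prop :=
  (AA k H O (src e) ∨ AA k H O (tgt e)) ∧ (CC w l Cl (dsrc e) ∨ CC w l Cl (dtgt e))

theorem AA.mono {k H : ℤ} {O O' : Finset Edg} (h : O ⊆ O') {v : Vtx} (hA : AA k H O v) :
    AA k H O' v := by
  obtain ⟨y, hy, hr⟩ := hA
  exact ⟨y, hy, hr.mono (by exact_mod_cast h)⟩

theorem CC.mono {w l : ℤ} {O O' : Finset Edg} (h : O ⊆ O') {v : Vtx} (hA : CC w l O v) :
    CC w l O' v := by
  obtain ⟨y, hy, hr⟩ := hA
  exact ⟨y, hy, hr.mono (by exact_mod_cast h)⟩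

theorem touch.mono {w H k l : ℤ} {e : Edg} {O O' Cl Cl' : Finset Edg} (h : O ⊆ O')
    (h' : Cl ⊆ Cl') (ht : touch w H k l e O Cl) : touch w H k l e O' Cl' :=
  ⟨ht.1.imp (fun x => x.mono h) (fun x => x.mono h),
   ht.2.imp (fun x => x.mono h') (fun x => x.mono h')⟩

open Classical in
/-- The exploration as a decision tree. -/
noncomputable def explore (w H k l : ℤ) : ℕ → Finset Edg → Finset Edg → Finset Edg → DT Edg
  | 0, _, _, _ => DT.leaf
  | n + 1, rem, O, Cl =>
    if h : ∃ e ∈ rem, touch w H k l e O Cl then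
      DT.node h.choose (explore w H k l n (rem.erase h.choose) (insert h.choose O) Cl)
        (explore w H k l n (rem.erase h.choose) O (insert h.choose Cl))
    else DT.leaf

theorem explore_valid (w H k l : ℤ) : ∀ (n : ℕ) (rem O Cl : Finset Edg),
    (explore w H k l n rem O Cl).Valid rem
  | 0, _, _, _ => by simp [explore, DT.Valid]
  | n + 1, rem, O, Cl => by
    unfold explore
    split_ifs with h
    · exact ⟨h.choose_spec.1, explore_valid w H k l n _ _ _, explore_valid w H k l n _ _ _⟩
    · trivial

theorem explore_stop (w H k l : ℤ) (F : Finset Edg) : ∀ (n : ℕ) (rem O Cl : Finset Edg),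
    rem.card ≤ n → ∀ e ∈ rem, e ∉ (explore w H k l n rem O Cl).rev F →
    ¬ touch w H k l e (O ∪ (F ∩ (explore w H k l n rem O Cl).rev F))
      (Cl ∪ ((explore w H k l n rem O Cl).rev F \ F))
  | 0, rem, O, Cl => by
    intro hc e he
    have : rem = ∅ := Finset.card_eq_zero.mp (Nat.le_zero.mp hc)
    rw [this] at he
    simp at he
  | n + 1, rem, O, Cl => by
    intro hc e he
    unfold explore
    split_ifs with h
    · set e0 := h.choose with he0
      have hspec := h.choose_spec
      have hc' : (rem.erase e0).card ≤ n := by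
        rw [Finset.card_erase_of_mem hspec.1]
        omega
      intro hrev
      simp only [DT.rev, Finset.mem_insert, not_or] at hrev
      by_cases hF : e0 ∈ F
      · rw [if_pos hF] at hrev
        have ih := explore_stop w H k l F n (rem.erase e0) (insert e0 O) Cl hc' e
          (Finset.mem_erase.mpr ⟨hrev.1, he⟩) hrev.2
        simp only [DT.rev, if_pos hF]
        set R1 := (explore w H k l n (rem.erase e0) (insert e0 O) Cl).rev F
        have e1 : O ∪ F ∩ insert e0 R1 = insert e0 O ∪ F ∩ R1 := by
          ext x; simp only [Finset.mem_union, Finset.mem_inter, Finset.mem_insert]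
          constructor
          · rintro (h1 | ⟨h1, h2 | h2⟩) <;> tauto
          · rintro ((h1 | h1) | ⟨h1, h2⟩)
            · subst h1; tauto
            · tauto
            · tauto
        have e2 : Cl ∪ insert e0 R1 \ F = Cl ∪ R1 \ F := by
          ext x; simp only [Finset.mem_union, Finset.mem_sdiff, Finset.mem_insert]
          constructor
          · rintro (h1 | ⟨h2 | h2, h1⟩)
            · tauto
            · subst h2; exact absurd hF h1
            · tauto
          · tauto
        rw [e1, e2]
        exact ih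
      · rw [if_neg hF] at hrev
        have ih := explore_stop w H k l F n (rem.erase e0) O (insert e0 Cl) hc' e
          (Finset.mem_erase.mpr ⟨hrev.1, he⟩) hrev.2
        simp only [DT.rev, if_neg hF]
        set R1 := (explore w H k l n (rem.erase e0) O (insert e0 Cl)).rev F
        have e1 : O ∪ F ∩ insert e0 R1 = O ∪ F ∩ R1 := by
          ext x; simp only [Finset.mem_union, Finset.mem_inter, Finset.mem_insert]
          constructor
          · rintro (h1 | ⟨h1, h2 | h2⟩)
            · tauto
            · subst h2; exact absurd h1 hF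
            · tauto
          · tauto
        have e2 : Cl ∪ insert e0 R1 \ F = insert e0 Cl ∪ R1 \ F := by
          ext x; simp only [Finset.mem_union, Finset.mem_sdiff, Finset.mem_insert]
          constructor
          · rintro (h1 | ⟨h2 | h2, h1⟩) <;> tauto
          · rintro ((h1 | h1) | ⟨h1, h2⟩)
            · subst h1; tauto
            · tauto
            · tauto
        rw [e1, e2]
        exact ih
    · intro _ ht
      simp only [DT.rev, Finset.inter_empty, Finset.union_empty, Finset.empty_sdiff] at ht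
      exact h ⟨e, he, ht⟩

theorem explore_rev (w H k l : ℤ) (F : Finset Edg) : ∀ (n : ℕ) (rem O Cl : Finset Edg) (e : Edg),
    e ∈ (explore w H k l n rem O Cl).rev F →
    touch w H k l e (O ∪ (F ∩ rem).erase e) (Cl ∪ (rem \ F).erase e)
  | 0, rem, O, Cl, e => by simp [explore, DT.rev]
  | n + 1, rem, O, Cl, e => by
    unfold explore
    split_ifs with h
    · set e0 := h.choose with he0
      have hspec := h.choose_spec
      intro hrev
      simp only [DT.rev, Finset.mem_insert] at hrev
      rcases hrev with hrev | hrev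
      · rw [hrev]
        exact hspec.2.mono Finset.subset_union_left Finset.subset_union_left
      · by_cases hF : e0 ∈ F
        · rw [if_pos hF] at hrev
          have hee : e ≠ e0 := by
            intro h1
            have := DT.rev_subset _ _ (explore_valid w H k l n (rem.erase e0) (insert e0 O) Cl) F hrev
            rw [h1] at this
            simp at this
          have ih := explore_rev w H k l F n _ _ _ e hrev
          refine ih.mono ?_ ?_
          · intro x hx
            simp only [Finset.mem_union, Finset.mem_insert, Finset.mem_erase,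
              Finset.mem_inter] at hx ⊢
            rcases hx with (h1 | h1) | h1
            · right; rw [h1]; exact ⟨fun h => hee h.symm, hF, hspec.1⟩
            · left; exact h1
            · right; exact ⟨h1.1, h1.2.1, h1.2.2.2⟩
          · intro x hx
            simp only [Finset.mem_union, Finset.mem_erase, Finset.mem_sdiff] at hx ⊢
            tauto
        · rw [if_neg hF] at hrev
          have hee : e ≠ e0 := by
            intro h1
            have := DT.rev_subset _ _ (explore_valid w H k l n (rem.erase e0) O (insert e0 Cl)) F hrev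
            rw [h1] at this
            simp at this
          have ih := explore_rev w H k l F n _ _ _ e hrev
          refine ih.mono ?_ ?_
          · intro x hx
            simp only [Finset.mem_union, Finset.mem_erase, Finset.mem_inter] at hx ⊢
            tauto
          · intro x hx
            simp only [Finset.mem_union, Finset.mem_insert, Finset.mem_erase,
              Finset.mem_sdiff] at hx ⊢
            rcases hx with (h1 | h1) | h1
            · right; rw [h1]; exact ⟨fun h => hee h.symm, hspec.1, hF⟩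
            · left; exact h1
            · right; exact ⟨h1.1, h1.2.1.2, h1.2.2⟩
    · intro hrev
      simp [DT.rev] at hrev

/-- When the exploration stops, the crossing event is decided. -/
theorem dichotomy {w H k l : ℤ} (hw : 0 < w) (hH : 0 ≤ H) (hk : 0 ≤ k ∧ k ≤ w)
    (hl : -1 ≤ l ∧ l ≤ H) {R O Cl : Finset Edg}
    (hR : ∀ e ∈ R, e ∈ O ∨ e ∈ Cl)
    (hstop : ∀ e ∈ LRE 0 w 0 H, e ∉ R → ¬ touch w H k l e O Cl) :
    (∃ y y', (0 ≤ y ∧ y ≤ H) ∧ (0 ≤ y' ∧ y' ≤ H) ∧ Reach ↑O (0, y) (w, y')) ∨
    (∃ x x', (0 ≤ x ∧ x < w) ∧ DReach (↑Cl ∩ ↑(LRE 0 w 0 H)) (x, -1) (x', H)) := by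
  by_cases hL : ∃ y y', (0 ≤ y ∧ y ≤ H) ∧ (0 ≤ y' ∧ y' ≤ H) ∧ Reach ↑O (0, y) (w, y')
  · exact Or.inl hL
  right
  set A : Vtx → Prop := fun v => AA k H O v with hA
  set AL : Vtx → Prop := fun v => ∃ y, (0 ≤ y ∧ y ≤ H) ∧ Reach ↑O (0, y) v with hAL
  set W : Vtx → Prop := fun v => (AL v ∧ A v) ∨ (¬ A v ∧ v.1 < k) with hW
  have hWL : ∀ y, 0 ≤ y → y ≤ H → W (0, y) := by
    intro y h1 h2
    by_cases hAv : A (0, y)
    · exact Or.inl ⟨⟨y, ⟨h1, h2⟩, Reach.refl _ _⟩, hAv⟩
    · right
      refine ⟨hAv, ?_⟩
      rcases eq_or_lt_of_le hk.1 with h3 | h3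
      · exact absurd ⟨y, ⟨h1, h2⟩, by rw [← h3]; exact Reach.refl _ _⟩ hAv
      · exact h3
  have hWR : ∀ y, 0 ≤ y → y ≤ H → ¬ W (w, y) := by
    rintro y h1 h2 (⟨⟨y0, h3, h4⟩, -⟩ | ⟨-, h3⟩)
    · exact hL ⟨y0, y, h3, ⟨h1, h2⟩, h4⟩
    · simp only at h3; omega
  obtain ⟨x, x', hx, hx', hr⟩ := dual_crossing hw.le hH W hWL hWR
  set Bd : Set Edg := bdry W ∩ ↑(LRE 0 w 0 H) with hBd
  have hx1 : (0:ℤ) - 1 = -1 := by norm_num
  rw [hx1] at hr
  -- boundary edges touch `A`
  have hedge : ∀ e ∈ LRE 0 w 0 H, ¬ A (src e) → ¬ A (tgt e) → ((src e).1 < k ↔ (tgt e).1 < k) := by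
    rintro ⟨x1, y1, _ | _⟩ he h1 h2
    · simp
    · have hm : 0 ≤ x1 ∧ x1 < w ∧ 0 ≤ y1 ∧ y1 ≤ H := by simpa using he
      simp only [src_mk, tgt_true] at h1 h2 ⊢
      constructor
      · intro h3
        by_contra h4
        have h5 : x1 + 1 = k := by omega
        apply h2
        exact ⟨y1, ⟨hm.2.2.1, hm.2.2.2⟩, by rw [h5]; exact Reach.refl _ _⟩
      · intro h3; omega
  have hBA : ∀ e ∈ Bd, A (src e) ∨ A (tgt e) := by
    rintro e ⟨h1, h2⟩
    by_contra hno
    push Not at hno
    apply h1
    simp only [hW, hno.1, hno.2, and_false, false_or, not_false_eq_true, true_and]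
    exact hedge e h2 hno.1 hno.2
  have hBO : ∀ e ∈ Bd, e ∉ O := by
    rintro e ⟨h1, h2⟩ heO
    have hadj : Reach (↑O : Set Edg) (src e) (tgt e) :=
      Adj.reach ⟨e, heO, Or.inl ⟨rfl, rfl⟩⟩
    have hAe : A (src e) ↔ A (tgt e) := by
      constructor
      · rintro ⟨y, hy, h⟩; exact ⟨y, hy, hadj.symm.trans h⟩
      · rintro ⟨y, hy, h⟩; exact ⟨y, hy, hadj.trans h⟩
    have hALe : AL (src e) ↔ AL (tgt e) := by
      constructor
      · rintro ⟨y, hy, h⟩; exact ⟨y, hy, h.trans hadj⟩
      · rintro ⟨y, hy, h⟩; exact ⟨y, hy, h.trans hadj.symm⟩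
    apply h1
    by_cases hAs : A (src e)
    · have hAt := hAe.mp hAs
      simp only [hW, hAs, hAt, and_true, not_true_eq_false, false_and, or_false]
      exact hALe
    · have hAt : ¬ A (tgt e) := fun h => hAs (hAe.mpr h)
      simp only [hW, hAs, hAt, and_false, false_or, not_false_eq_true, true_and]
      exact hedge e h2 hAs hAt
  -- the dual path visits row `l`
  have hrow : ∃ x0, (0 ≤ x0 ∧ x0 < w) ∧ DReach Bd (x, -1) (x0, l) := by
    have key : ∀ f, DReach Bd (x, -1) f → (0 ≤ f.1 ∧ f.1 < w) ∧
        ((∃ x0, (0 ≤ x0 ∧ x0 < w) ∧ DReach Bd (x, -1) (x0, l)) ∨ f.2 < l) := by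
      intro f hf
      induction hf with
      | refl =>
        refine ⟨hx, ?_⟩
        rcases eq_or_lt_of_le hl.1 with h3 | h3
        · left; exact ⟨x, hx, by rw [← h3]; exact DReach.refl _ _⟩
        · right; exact h3
      | @tail g g' hg hst ih =>
        obtain ⟨ih1, ih2⟩ := ih
        have hcol : 0 ≤ g'.1 ∧ g'.1 < w := by
          obtain ⟨⟨x1, y1, bo⟩, ⟨-, heR⟩, hcase⟩ := hst
          cases bo
          · have hm : 0 < x1 ∧ x1 < w ∧ 0 ≤ y1 ∧ y1 < H := by simpa using heR
            simp only [dsrc_false, dtgt_mk] at hcase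
            rcases hcase with ⟨h1, h2⟩ | ⟨h1, h2⟩
            · rw [← h2]; simp only; omega
            · rw [← h1]; simp only; omega
          · have hm : 0 ≤ x1 ∧ x1 < w ∧ 0 ≤ y1 ∧ y1 ≤ H := by simpa using heR
            simp only [dsrc_true, dtgt_mk] at hcase
            rcases hcase with ⟨h1, h2⟩ | ⟨h1, h2⟩
            · rw [← h2]; simp only; omega
            · rw [← h1]; simp only; omega
        refine ⟨hcol, ?_⟩
        rcases ih2 with ih2 | ih2
        · exact Or.inl ih2
        · by_cases hgl : g'.2 < l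
          · exact Or.inr hgl
          · left
            have : g'.2 = l := by
              obtain ⟨⟨x1, y1, bo⟩, -, hcase⟩ := hst
              cases bo
              · simp only [dsrc_false, dtgt_mk] at hcase
                rcases hcase with ⟨h1, h2⟩ | ⟨h1, h2⟩
                · rw [← h2] at hgl ⊢; rw [← h1] at ih2; simp only at hgl ih2 ⊢; omega
                · rw [← h1] at hgl ⊢; rw [← h2] at ih2; simp only at hgl ih2 ⊢; omega
              · simp only [dsrc_true, dtgt_mk] at hcase
                rcases hcase with ⟨h1, h2⟩ | ⟨h1, h2⟩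
                · rw [← h2] at hgl ⊢; rw [← h1] at ih2; simp only at hgl ih2 ⊢; omega
                · rw [← h1] at hgl ⊢; rw [← h2] at ih2; simp only at hgl ih2 ⊢; omega
            refine ⟨g'.1, hcol, ?_⟩
            rw [← this]
            exact hg.trans hst.reach
    rcases (key _ hr).2 with h1 | h1
    · exact h1
    · simp only at h1; omega
  obtain ⟨x0, hx0, hr0⟩ := hrow
  -- following the path from row `l`
  have follow : ∀ f, DReach Bd (x0, l) f → DReach (↑Cl ∩ ↑(LRE 0 w 0 H)) (x0, l) f := by
    intro f hf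
    induction hf with
    | refl => exact DReach.refl _ _
    | @tail g g' _ hst ih =>
      obtain ⟨e, heB, hcase⟩ := hst
      have hCg : CC w l Cl g :=
        ⟨x0, hx0, (ih.mono Set.inter_subset_left).symm⟩
      have ht : touch w H k l e O Cl := by
        refine ⟨hBA e heB, ?_⟩
        rcases hcase with ⟨h1, h2⟩ | ⟨h1, h2⟩
        · left; rw [h1]; exact hCg
        · right; rw [h2]; exact hCg
      have heR : e ∈ R := by
        by_contra h3
        exact hstop e heB.2 h3 ht
      have heC : e ∈ Cl := by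
        rcases hR e heR with h3 | h3
        · exact absurd h3 (hBO e heB)
        · exact h3
      exact ih.trans (DAdj.reach ⟨e, ⟨heC, heB.2⟩, hcase⟩)
  have f1 := follow _ hr0.symm
  have f2 := follow _ (hr0.symm.trans hr)
  exact ⟨x, x', hx, f1.symm.trans f2⟩

/-- The exploration tree of the rectangle. -/
noncomputable def ET (w H k l : ℤ) : DT Edg :=
  explore w H k l (LRE 0 w 0 H).card (LRE 0 w 0 H) ∅ ∅

theorem ET_valid (w H k l : ℤ) : (ET w H k l).Valid (LRE 0 w 0 H) := explore_valid _ _ _ _ _ _ _ _

theorem ET_det {w H k l : ℤ} (hw : 0 < w) (hH : 0 ≤ H) (hk : 0 ≤ k ∧ k ≤ w)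
    (hl : -1 ≤ l ∧ l ≤ H) (F F' : Finset Edg) (hF : F ⊆ LRE 0 w 0 H) (hF' : F' ⊆ LRE 0 w 0 H)
    (h : F ∩ (ET w H k l).rev F = F' ∩ (ET w H k l).rev F) :
    LRc 0 w 0 H F ↔ LRc 0 w 0 H F' := by
  set R := (ET w H k l).rev F with hR
  have hRS : R ⊆ LRE 0 w 0 H := DT.rev_subset _ _ (ET_valid w H k l) F
  have hstop : ∀ e ∈ LRE 0 w 0 H, e ∉ R → ¬ touch w H k l e (F ∩ R) (R \ F) := by
    intro e he heR
    have := explore_stop w H k l F (LRE 0 w 0 H).card (LRE 0 w 0 H) ∅ ∅ le_rfl e he heR
    rw [Finset.empty_union, Finset.empty_union] at this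
    exact this
  have hd : R \ F = R \ F' := by
    ext e
    have := Finset.ext_iff.mp h e
    simp only [Finset.mem_inter, Finset.mem_sdiff] at this ⊢
    tauto
  rcases dichotomy hw hH hk hl (R := R) (O := F ∩ R) (Cl := R \ F)
    (by intro e he; by_cases h1 : e ∈ F
        · left; exact Finset.mem_inter.mpr ⟨h1, he⟩
        · right; exact Finset.mem_sdiff.mpr ⟨he, h1⟩) hstop with
    ⟨y, y', hy, hy', hr⟩ | ⟨x, x', hx, hr⟩
  · constructor
    · intro _
      rw [h] at hr
      refine ⟨y, y', hy, hy', hr.mono ?_⟩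
      intro e he
      simp only [Finset.coe_inter, Set.mem_inter_iff, Finset.mem_coe] at he
      exact ⟨he.1, hRS he.2⟩
    · intro _
      refine ⟨y, y', hy, hy', hr.mono ?_⟩
      intro e he
      simp only [Finset.coe_inter, Set.mem_inter_iff, Finset.mem_coe] at he
      exact ⟨he.1, hRS he.2⟩
  · constructor
    · rintro ⟨y, y', _, hy', hr'⟩
      exact (no_both hH hy' hx hr' (by
        have e0 : (0:ℤ) - 1 = -1 := by norm_num
        rw [e0]
        refine hr.mono ?_
        apply Set.inter_subset_inter_left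
        intro e he
        simp only [Finset.coe_sdiff, Set.mem_sdiff, Finset.mem_coe] at he
        exact he.2)).elim
    · rintro ⟨y, y', _, hy', hr'⟩
      exact (no_both hH hy' hx hr' (by
        have e0 : (0:ℤ) - 1 = -1 := by norm_num
        rw [e0]
        rw [hd] at hr
        refine hr.mono ?_
        apply Set.inter_subset_inter_left
        intro e he
        simp only [Finset.coe_sdiff, Set.mem_sdiff, Finset.mem_coe] at he
        exact he.2)).elim

end H99L
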