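import Pool.Agent.H99.L.Basic

/-!
The square lattice, its dual, and planar duality for rectangles.
-/

namespace H99L

open Finset

/-- Vertices of the square lattice. The face `(x, y)` is the unit square with lower left
corner `(x, y)`. -/
abbrev Vtx := ℤ × ℤ

/-- Edges: `(x, y, true)` joins `(x, y)` and `(x + 1, y)`, and `(x, y, false)` joins `(x, y)` and
`(x, y + 1)`. -/
abbrev Edg := ℤ × ℤ × Bool

/-- First endpoint. -/
def src (e : Edg) : Vtx := (e.1, e.2.1)

/-- Second endpoint. -/
def tgt (e : Edg) : Vtx := if e.2.2 then (e.1 + 1, e.2.1) else (e.1, e.2.1 + 1)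

/-- First face next to an edge. -/
def dsrc (e : Edg) : Vtx := if e.2.2 then (e.1, e.2.1 - 1) else (e.1 - 1, e.2.1)

/-- Second face next to an edge. -/
def dtgt (e : Edg) : Vtx := (e.1, e.2.1)

@[simp] theorem src_mk (x y : ℤ) (b : Bool) : src (x, y, b) = (x, y) := rfl
@[simp] theorem dtgt_mk (x y : ℤ) (b : Bool) : dtgt (x, y, b) = (x, y) := rfl
@[simp] theorem tgt_true (x y : ℤ) : tgt (x, y, true) = (x + 1, y) := rfl
@[simp] theorem tgt_false (x y : ℤ) : tgt (x, y, false) = (x, y + 1) := rfl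
@[simp] theorem dsrc_true (x y : ℤ) : dsrc (x, y, true) = (x, y - 1) := rfl
@[simp] theorem dsrc_false (x y : ℤ) : dsrc (x, y, false) = (x - 1, y) := rfl

/-- Adjacency through an edge of `F`. -/
def Adj (F : Set Edg) (u v : Vtx) : Prop :=
  ∃ e ∈ F, (src e = u ∧ tgt e = v) ∨ (src e = v ∧ tgt e = u)

/-- Connection by a path of edges of `F`. -/
def Reach (F : Set Edg) (u v : Vtx) : Prop := Relation.ReflTransGen (Adj F) u v

/-- Adjacency of faces through an edge of `F`. -/
def DAdj (F : Set Edg) (u v : Vtx) : Prop :=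
  ∃ e ∈ F, (dsrc e = u ∧ dtgt e = v) ∨ (dsrc e = v ∧ dtgt e = u)

/-- Connection of faces by a dual path crossing edges of `F`. -/
def DReach (F : Set Edg) (u v : Vtx) : Prop := Relation.ReflTransGen (DAdj F) u v

theorem Adj.symm {F : Set Edg} {u v : Vtx} (h : Adj F u v) : Adj F v u := by
  obtain ⟨e, he, h⟩ := h
  exact ⟨e, he, h.symm⟩

theorem DAdj.symm {F : Set Edg} {u v : Vtx} (h : DAdj F u v) : DAdj F v u := by
  obtain ⟨e, he, h⟩ := h
  exact ⟨e, he, h.symm⟩

theorem Reach.refl (F : Set Edg) (u : Vtx) : Reach F u u := Relation.ReflTransGen.refl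

theorem DReach.refl (F : Set Edg) (u : Vtx) : DReach F u u := Relation.ReflTransGen.refl

theorem Reach.symm {F : Set Edg} {u v : Vtx} (h : Reach F u v) : Reach F v u := by
  induction h with
  | refl => exact Relation.ReflTransGen.refl
  | tail _ hs ih => exact Relation.ReflTransGen.head hs.symm ih

theorem DReach.symm {F : Set Edg} {u v : Vtx} (h : DReach F u v) : DReach F v u := by
  induction h with
  | refl => exact Relation.ReflTransGen.refl
  | tail _ hs ih => exact Relation.ReflTransGen.head hs.symm ih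

theorem Reach.trans {F : Set Edg} {u v w : Vtx} (h : Reach F u v) (h' : Reach F v w) :
    Reach F u w := Relation.ReflTransGen.trans h h'

theorem DReach.trans {F : Set Edg} {u v w : Vtx} (h : DReach F u v) (h' : DReach F v w) :
    DReach F u w := Relation.ReflTransGen.trans h h'

theorem Adj.mono {F G : Set Edg} (hFG : F ⊆ G) {u v : Vtx} (h : Adj F u v) : Adj G u v := by
  obtain ⟨e, he, h⟩ := h
  exact ⟨e, hFG he, h⟩

theorem DAdj.mono {F G : Set Edg} (hFG : F ⊆ G) {u v : Vtx} (h : DAdj F u v) : DAdj G u v := by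
  obtain ⟨e, he, h⟩ := h
  exact ⟨e, hFG he, h⟩

theorem Reach.mono {F G : Set Edg} (hFG : F ⊆ G) {u v : Vtx} (h : Reach F u v) :
    Reach G u v := by
  induction h with
  | refl => exact Relation.ReflTransGen.refl
  | tail _ hs ih => exact Relation.ReflTransGen.tail ih (hs.mono hFG)

theorem DReach.mono {F G : Set Edg} (hFG : F ⊆ G) {u v : Vtx} (h : DReach F u v) :
    DReach G u v := by
  induction h with
  | refl => exact Relation.ReflTransGen.refl
  | tail _ hs ih => exact Relation.ReflTransGen.tail ih (hs.mono hFG)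

theorem Adj.reach {F : Set Edg} {u v : Vtx} (h : Adj F u v) : Reach F u v :=
  Relation.ReflTransGen.single h

theorem DAdj.reach {F : Set Edg} {u v : Vtx} (h : DAdj F u v) : DReach F u v :=
  Relation.ReflTransGen.single h

/-- Edges relevant for left-right crossings of the rectangle `[a, b] × [c, d]`. -/
noncomputable def LRE (a b c d : ℤ) : Finset Edg :=
  (Finset.Icc a b ×ˢ (Finset.Icc c d ×ˢ Finset.univ)).filter
    (fun e => if e.2.2 then e.1 < b else (a < e.1 ∧ e.1 < b ∧ e.2.1 < d))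

/-- Edges relevant for top-bottom crossings of the rectangle `[a, b] × [c, d]`. -/
noncomputable def TBE (a b c d : ℤ) : Finset Edg :=
  (Finset.Icc a b ×ˢ (Finset.Icc c d ×ˢ Finset.univ)).filter
    (fun e => if e.2.2 then (e.1 < b ∧ c < e.2.1 ∧ e.2.1 < d) else e.2.1 < d)

/-- All edges of the rectangle `[a, b] × [c, d]`. -/
noncomputable def RE (a b c d : ℤ) : Finset Edg :=
  (Finset.Icc a b ×ˢ (Finset.Icc c d ×ˢ Finset.univ)).filter
    (fun e => if e.2.2 then e.1 < b else e.2.1 < d)

@[simp] theorem mem_LRE_true {a b c d x y : ℤ} :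
    ((x, y, true) : Edg) ∈ LRE a b c d ↔ a ≤ x ∧ x < b ∧ c ≤ y ∧ y ≤ d := by
  simp only [LRE, Finset.mem_filter, Finset.mem_product, Finset.mem_Icc, Finset.mem_univ,
    and_true, if_true]
  constructor
  · rintro ⟨⟨h1, h2⟩, h3⟩; exact ⟨h1.1, h3, h2.1, h2.2⟩
  · rintro ⟨h1, h2, h3, h4⟩; exact ⟨⟨⟨h1, h2.le⟩, h3, h4⟩, h2⟩

@[simp] theorem mem_LRE_false {a b c d x y : ℤ} :
    ((x, y, false) : Edg) ∈ LRE a b c d ↔ a < x ∧ x < b ∧ c ≤ y ∧ y < d := by
  simp only [LRE, Finset.mem_filter, Finset.mem_product, Finset.mem_Icc, Finset.mem_univ,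
    and_true, Bool.false_eq_true, if_false]
  constructor
  · rintro ⟨⟨h1, h2⟩, h3⟩; exact ⟨h3.1, h3.2.1, h2.1, h3.2.2⟩
  · rintro ⟨h1, h2, h3, h4⟩; exact ⟨⟨⟨h1.le, h2.le⟩, h3, h4.le⟩, h1, h2, h4⟩

@[simp] theorem mem_TBE_true {a b c d x y : ℤ} :
    ((x, y, true) : Edg) ∈ TBE a b c d ↔ a ≤ x ∧ x < b ∧ c < y ∧ y < d := by
  simp only [TBE, Finset.mem_filter, Finset.mem_product, Finset.mem_Icc, Finset.mem_univ,
    and_true, if_true]
  constructor
  · rintro ⟨⟨h1, h2⟩, h3⟩; exact ⟨h1.1, h3.1, h3.2.1, h3.2.2⟩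
  · rintro ⟨h1, h2, h3, h4⟩; exact ⟨⟨⟨h1, h2.le⟩, h3.le, h4.le⟩, h2, h3, h4⟩

@[simp] theorem mem_TBE_false {a b c d x y : ℤ} :
    ((x, y, false) : Edg) ∈ TBE a b c d ↔ a ≤ x ∧ x ≤ b ∧ c ≤ y ∧ y < d := by
  simp only [TBE, Finset.mem_filter, Finset.mem_product, Finset.mem_Icc, Finset.mem_univ,
    and_true, Bool.false_eq_true, if_false]
  constructor
  · rintro ⟨⟨h1, h2⟩, h3⟩; exact ⟨h1.1, h1.2, h2.1, h3⟩
  · rintro ⟨h1, h2, h3, h4⟩; exact ⟨⟨⟨h1, h2⟩, h3, h4.le⟩, h4⟩

@[simp] theorem mem_RE_true {a b c d x y : ℤ} :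
    ((x, y, true) : Edg) ∈ RE a b c d ↔ a ≤ x ∧ x < b ∧ c ≤ y ∧ y ≤ d := by
  simp only [RE, Finset.mem_filter, Finset.mem_product, Finset.mem_Icc, Finset.mem_univ,
    and_true, if_true]
  constructor
  · rintro ⟨⟨h1, h2⟩, h3⟩; exact ⟨h1.1, h3, h2.1, h2.2⟩
  · rintro ⟨h1, h2, h3, h4⟩; exact ⟨⟨⟨h1, h2.le⟩, h3, h4⟩, h2⟩

@[simp] theorem mem_RE_false {a b c d x y : ℤ} :
    ((x, y, false) : Edg) ∈ RE a b c d ↔ a ≤ x ∧ x ≤ b ∧ c ≤ y ∧ y < d := by
  simp only [RE, Finset.mem_filter, Finset.mem_product, Finset.mem_Icc, Finset.mem_univ,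
    and_true, Bool.false_eq_true, if_false]
  constructor
  · rintro ⟨⟨h1, h2⟩, h3⟩; exact ⟨h1.1, h1.2, h2.1, h3⟩
  · rintro ⟨h1, h2, h3, h4⟩; exact ⟨⟨⟨h1, h2⟩, h3, h4.le⟩, h4⟩

theorem LRE_subset_RE {a b c d : ℤ} : LRE a b c d ⊆ RE a b c d := by
  rintro ⟨x, y, _ | _⟩ h
  · simp only [mem_LRE_false, mem_RE_false] at h ⊢; omega
  · simp only [mem_LRE_true, mem_RE_true] at h ⊢; omega

theorem TBE_subset_RE {a b c d : ℤ} : TBE a b c d ⊆ RE a b c d := by
  rintro ⟨x, y, _ | _⟩ h
  · simp only [mem_TBE_false, mem_RE_false] at h ⊢; omega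
  · simp only [mem_TBE_true, mem_RE_true] at h ⊢; omega

/-! ### Sums over integer intervals -/

theorem sum_Ico_int_succ {M : Type*} [AddCommMonoid M] {a x : ℤ} (h : a ≤ x) (f : ℤ → M) :
    ∑ i ∈ Finset.Ico a (x + 1), f i = ∑ i ∈ Finset.Ico a x, f i + f x := by
  have : Finset.Ico a (x + 1) = insert x (Finset.Ico a x) := by
    ext i
    simp only [Finset.mem_Ico, Finset.mem_insert]
    omega
  rw [this, Finset.sum_insert (by simp), add_comm]

theorem zmod2_add_self (x : ZMod 2) : x + x = 0 := CharTwo.add_self_eq_zero x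

theorem telescope {a : ℤ} (n : ℕ) (t : ℤ → ZMod 2) :
    ∑ i ∈ Finset.Ico a (a + n), (t i + t (i + 1)) = t a + t (a + n) := by
  induction n with
  | zero => simp [zmod2_add_self]
  | succ n ih =>
    have : a + ((n + 1 : ℕ) : ℤ) = (a + n) + 1 := by push_cast; ring
    rw [this, sum_Ico_int_succ (by omega), ih]
    have h := zmod2_add_self (t (a + n))
    linear_combination h

theorem telescope' {a b : ℤ} (h : a ≤ b) (t : ℤ → ZMod 2) :
    ∑ i ∈ Finset.Ico a b, (t i + t (i + 1)) = t a + t b := by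
  obtain ⟨n, hn⟩ := Int.eq_ofNat_of_zero_le (sub_nonneg.mpr h)
  have : b = a + n := by omega
  rw [this]
  exact telescope n t

/-! ### Dual chains -/

/-- Indicator with values in `ZMod 2`. -/
noncomputable def b2 (P : Prop) : ZMod 2 := by
  classical exact if P then 1 else 0

theorem b2_of {P : Prop} (h : P) : b2 P = 1 := by simp [b2, h]

theorem b2_not_of {P : Prop} (h : ¬ P) : b2 P = 0 := by simp [b2, h]

theorem b2_congr {P Q : Prop} (h : P ↔ Q) : b2 P = b2 Q := by rw [propext h]

/-- Boundary of a dual chain at a face. -/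
def bd (Z : Edg → ZMod 2) (x y : ℤ) : ZMod 2 :=
  Z (x, y, true) + Z (x, y + 1, true) + Z (x, y, false) + Z (x + 1, y, false)

theorem bd_single (e : Edg) (x y : ℤ) :
    bd (fun e' => b2 (e' = e)) x y = b2 (dsrc e = (x, y)) + b2 (dtgt e = (x, y)) := by
  obtain ⟨x0, y0, b⟩ := e
  cases b
  · have h1 : ((x, y, true) : Edg) ≠ (x0, y0, false) := by simp
    have h2 : ((x, y + 1, true) : Edg) ≠ (x0, y0, false) := by simp
    simp only [bd, b2_not_of h1, b2_not_of h2, zero_add, dsrc_false, dtgt_mk]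
    have e1 : (((x, y, false) : Edg) = (x0, y0, false)) ↔ ((x0, y0) : Vtx) = (x, y) := by
      simp only [Prod.mk.injEq]; tauto
    have e2 : (((x + 1, y, false) : Edg) = (x0, y0, false)) ↔ ((x0 - 1, y0) : Vtx) = (x, y) := by
      simp only [Prod.mk.injEq, and_true]; constructor <;> rintro ⟨h1, h2⟩ <;> constructor <;> omega
    rw [b2_congr e1, b2_congr e2]
    ring
  · have h1 : ((x, y, false) : Edg) ≠ (x0, y0, true) := by simp
    have h2 : ((x + 1, y, false) : Edg) ≠ (x0, y0, true) := by simp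
    simp only [bd, b2_not_of h1, b2_not_of h2, add_zero, dsrc_true, dtgt_mk]
    have e1 : (((x, y, true) : Edg) = (x0, y0, true)) ↔ ((x0, y0) : Vtx) = (x, y) := by
      simp only [Prod.mk.injEq]; tauto
    have e2 : (((x, y + 1, true) : Edg) = (x0, y0, true)) ↔ ((x0, y0 - 1) : Vtx) = (x, y) := by
      simp only [Prod.mk.injEq, and_true]; constructor <;> rintro ⟨h1, h2⟩ <;> constructor <;> omega
    rw [b2_congr e1, b2_congr e2]
    ring

theorem chain_of_dreach {G : Set Edg} {f g : Vtx} (h : DReach G f g) :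
    ∃ Z : Edg → ZMod 2, (∀ e, Z e ≠ 0 → e ∈ G) ∧
      ∀ x y, bd Z x y = b2 (f = (x, y)) + b2 (g = (x, y)) := by
  induction h with
  | refl =>
    refine ⟨fun _ => 0, fun e h => absurd rfl h, ?_⟩
    intro x y
    rw [zmod2_add_self]
    simp [bd]
  | @tail g' g'' _ hstep ih =>
    obtain ⟨Z, hZ1, hZ2⟩ := ih
    obtain ⟨e, he, hcase⟩ := hstep
    refine ⟨fun e' => Z e' + b2 (e' = e), ?_, ?_⟩
    · intro e' h
      by_cases hee : e' = e
      · rw [hee]; exact he
      · have h' : Z e' + b2 (e' = e) ≠ 0 := h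
        rw [b2_not_of hee, add_zero] at h'
        exact hZ1 e' h'
    · intro x y
      have h1 : bd (fun e' => Z e' + b2 (e' = e)) x y
          = bd Z x y + bd (fun e' => b2 (e' = e)) x y := by
        simp only [bd]; ring
      rw [h1, hZ2, bd_single]
      have h2 : b2 (dsrc e = (x, y)) + b2 (dtgt e = (x, y))
          = b2 (g' = (x, y)) + b2 (g'' = (x, y)) := by
        rcases hcase with ⟨h3, h4⟩ | ⟨h3, h4⟩
        · rw [h3, h4]
        · rw [h3, h4, add_comm]
      rw [h2]
      have := zmod2_add_self (b2 (g' = (x, y)))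
      linear_combination this

/-- An open left-right crossing and a closed dual top-bottom crossing cannot coexist. -/
theorem no_both {a b c d : ℤ} (hcd : c ≤ d) {F : Set Edg} {y y' x x' : ℤ}
    (hy' : c ≤ y' ∧ y' ≤ d) (hx : a ≤ x ∧ x < b)
    (h1 : Reach (F ∩ LRE a b c d) (a, y) (b, y'))
    (h2 : DReach (Fᶜ ∩ LRE a b c d) (x, c - 1) (x', d)) : False := by
  obtain ⟨Z, hZ1, hZ2⟩ := chain_of_dreach h2
  have hab : a ≤ b := by omega
  have hZout : ∀ e, e ∉ LRE a b c d → Z e = 0 := by
    intro e he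
    by_contra h
    exact he (hZ1 e h).2
  have hZF : ∀ e, e ∈ F → Z e = 0 := by
    intro e he
    by_contra h
    exact (hZ1 e h).1 he
  have hcyc : ∀ x y, c ≤ y → y < d → bd Z x y = 0 := by
    intro x1 y1 h3 h4
    rw [hZ2, b2_not_of, b2_not_of, add_zero]
    · simp only [Prod.mk.injEq]; omega
    · simp only [Prod.mk.injEq]; omega
  set s : ℤ → ℤ → ZMod 2 := fun x y => ∑ i ∈ Finset.Ico a x, Z (i, y, true) with hs
  have sH : ∀ x y, a ≤ x → s (x + 1) y = s x y + Z (x, y, true) := by
    intro x y hx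
    simp only [hs]
    rw [sum_Ico_int_succ hx]
  have sV : ∀ (n : ℕ) (y : ℤ), c ≤ y → y < d →
      s (a + n) (y + 1) + s (a + n) y = Z (a + n, y, false) := by
    intro n y hc hd
    induction n with
    | zero =>
      have : Z (a + ((0:ℕ):ℤ), y, false) = 0 := hZout _ (by simp)
      rw [this]
      simp [hs]
    | succ n ih =>
      have e1 : a + ((n + 1 : ℕ) : ℤ) = (a + n) + 1 := by push_cast; ring
      rw [e1, sH _ _ (by omega), sH _ _ (by omega)]
      have h3 := hcyc (a + n) y hc hd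
      unfold bd at h3
      have h4 := zmod2_add_self (Z (a + n, y, false))
      have h5 := zmod2_add_self (Z (a + n + 1, y, false))
      linear_combination ih + h3 - h5
  have sV' : ∀ x y, a ≤ x → c ≤ y → y < d → s x (y + 1) = s x y + Z (x, y, false) := by
    intro x y hx hc hd
    obtain ⟨n, hn⟩ := Int.eq_ofNat_of_zero_le (sub_nonneg.mpr hx)
    have e1 : x = a + n := by omega
    have h3 := sV n y hc hd
    rw [← e1] at h3
    have h4 := zmod2_add_self (s x y)
    linear_combination h3 - h4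
  -- `s` is constant along open paths
  have hpath : ∀ w : Vtx, Reach (F ∩ LRE a b c d) (a, y) w → s w.1 w.2 = 0 := by
    intro w hw
    induction hw with
    | refl => simp [hs]
    | @tail w' w'' _ hstep ih =>
      obtain ⟨⟨x0, y0, bo⟩, ⟨heF, heR⟩, hcase⟩ := hstep
      have hZe := hZF _ heF
      cases bo
      · have hm : a < x0 ∧ x0 < b ∧ c ≤ y0 ∧ y0 < d := by simpa using heR
        have h3 := sV' x0 y0 (by omega) hm.2.2.1 hm.2.2.2
        rw [hZe, add_zero] at h3
        simp only [src_mk, tgt_false] at hcase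
        rcases hcase with ⟨h4, h5⟩ | ⟨h4, h5⟩
        · rw [← h4] at ih; rw [← h5]; simpa [h3] using ih
        · rw [← h5] at ih; rw [← h4]; simpa [h3] using ih
      · have hm : a ≤ x0 ∧ x0 < b ∧ c ≤ y0 ∧ y0 ≤ d := by simpa using heR
        have h3 := sH x0 y0 hm.1
        rw [hZe, add_zero] at h3
        simp only [src_mk, tgt_true] at hcase
        rcases hcase with ⟨h4, h5⟩ | ⟨h4, h5⟩
        · rw [← h4] at ih; rw [← h5]; simpa [h3] using ih
        · rw [← h5] at ih; rw [← h4]; simpa [h3] using ih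
  have hend := hpath _ h1
  simp only at hend
  -- flux through rows
  have hflux : ∀ n : ℕ, c + n ≤ d → s b (c + n) = s b c := by
    intro n
    induction n with
    | zero => intro _; simp
    | succ n ih =>
      intro hn
      push_cast at hn ⊢
      rw [← add_assoc, sV' b (c + n) hab (by omega) (by omega), ih (by omega)]
      rw [hZout _ (by simp), add_zero]
  obtain ⟨n, hn⟩ := Int.eq_ofNat_of_zero_le (sub_nonneg.mpr hy'.1)
  have hsb : s b c = 0 := by
    rw [← hflux n (by omega)]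
    have : c + (n:ℤ) = y' := by omega
    rw [this]; exact hend
  have hone : s b c = 1 := by
    simp only [hs]
    have h3 : ∀ i ∈ Finset.Ico a b, Z (i, c, true) = if i = x then (1 : ZMod 2) else 0 := by
      intro i hi
      rw [Finset.mem_Ico] at hi
      have h4 := hZ2 i (c - 1)
      unfold bd at h4
      rw [hZout (i, c - 1, true) (by simp), hZout (i, c - 1, false) (by simp),
        hZout (i + 1, c - 1, false) (by simp), sub_add_cancel] at h4
      rw [b2_not_of (P := ((x', d) : Vtx) = (i, c - 1)) (by simp only [Prod.mk.injEq]; omega)] at h4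
      simp only [zero_add, add_zero] at h4
      rw [h4]
      split_ifs with h5
      · rw [h5, b2_of rfl]
      · rw [b2_not_of]
        simp only [Prod.mk.injEq]
        intro h6
        exact h5 h6.1.symm
    rw [Finset.sum_congr rfl h3, Finset.sum_ite_eq' (Finset.Ico a b) x (fun _ => (1 : ZMod 2))]
    rw [if_pos (by rw [Finset.mem_Ico]; exact hx)]
  rw [hone] at hsb
  exact one_ne_zero hsb

/-- Boundary edges of a vertex set. -/
def bdry (W : Vtx → Prop) : Set Edg := {e | ¬ (W (src e) ↔ W (tgt e))}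

/-- If `W` contains the left side and misses the right side, then there is a dual top-bottom
crossing through boundary edges of `W`. -/
theorem dual_crossing {a b c d : ℤ} (hab : a ≤ b) (hcd : c ≤ d) (W : Vtx → Prop)
    (hL : ∀ y, c ≤ y → y ≤ d → W (a, y)) (hR : ∀ y, c ≤ y → y ≤ d → ¬ W (b, y)) :
    ∃ x x', (a ≤ x ∧ x < b) ∧ (a ≤ x' ∧ x' < b) ∧
      DReach (bdry W ∩ LRE a b c d) (x, c - 1) (x', d) := by
  set G : Set Edg := bdry W ∩ LRE a b c d with hG
  set D : ℤ → ℤ → Prop := fun x y => ∃ x0, (a ≤ x0 ∧ x0 < b) ∧ DReach G (x0, c - 1) (x, y) with hD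
  set z : Edg → ZMod 2 := fun e => b2 (e ∈ G) with hz
  set w : ℤ → ℤ → ZMod 2 := fun x y => b2 (W (x, y)) with hw
  have hDcl : ∀ e ∈ G, D (dsrc e).1 (dsrc e).2 ↔ D (dtgt e).1 (dtgt e).2 := by
    intro e he
    constructor
    · rintro ⟨x0, h0, h1⟩
      exact ⟨x0, h0, h1.trans (DAdj.reach ⟨e, he, Or.inl ⟨rfl, rfl⟩⟩)⟩
    · rintro ⟨x0, h0, h1⟩
      exact ⟨x0, h0, h1.trans (DAdj.reach ⟨e, he, Or.inr ⟨rfl, rfl⟩⟩)⟩
  have hzH : ∀ x y, a ≤ x → x < b → c ≤ y → y ≤ d → z (x, y, true) = w x y + w (x + 1) y := by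
    intro x y h1 h2 h3 h4
    have hm : ((x, y, true) : Edg) ∈ LRE a b c d := by simp [h1, h2, h3, h4]
    simp only [hz, hw, hG]
    by_cases hA : W (x, y) <;> by_cases hB : W (x + 1, y)
    · rw [b2_not_of, b2_of hA, b2_of hB]; · rfl
      rintro ⟨h, -⟩; exact h (by simp [hA, hB])
    · rw [b2_of, b2_of hA, b2_not_of hB]; · rfl
      refine ⟨?_, hm⟩; simp [bdry, hA, hB]
    · rw [b2_of, b2_not_of hA, b2_of hB]; · rfl
      refine ⟨?_, hm⟩; simp [bdry, hA, hB]
    · rw [b2_not_of, b2_not_of hA, b2_not_of hB]; · rfl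
      rintro ⟨h, -⟩; exact h (by simp [hA, hB])
  have hzV : ∀ x y, a ≤ x → x ≤ b → c ≤ y → y < d → z (x, y, false) = w x y + w x (y + 1) := by
    intro x y h1 h2 h3 h4
    rcases eq_or_lt_of_le h1 with h1' | h1'
    · subst h1'
      have : ((a, y, false) : Edg) ∉ G := by
        rintro ⟨-, h⟩; simp at h
      simp only [hz, hw]
      rw [b2_not_of this, b2_of (hL y h3 h4.le), b2_of (hL (y+1) (by omega) (by omega))]; rfl
    · rcases eq_or_lt_of_le h2 with h2' | h2'
      · subst h2'
        have : ((x, y, false) : Edg) ∉ G := by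
          rintro ⟨-, h⟩; simp at h
        simp only [hz, hw]
        rw [b2_not_of this, b2_not_of (hR y h3 h4.le),
          b2_not_of (hR (y+1) (by omega) (by omega))]; rfl
      · have hm : ((x, y, false) : Edg) ∈ LRE a b c d := by simp [h1', h2', h3, h4]
        simp only [hz, hw, hG]
        by_cases hA : W (x, y) <;> by_cases hB : W (x, y + 1)
        · rw [b2_not_of, b2_of hA, b2_of hB]; · rfl
          rintro ⟨h, -⟩; exact h (by simp [hA, hB])
        · rw [b2_of, b2_of hA, b2_not_of hB]; · rfl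
          refine ⟨?_, hm⟩; simp [bdry, hA, hB]
        · rw [b2_of, b2_not_of hA, b2_of hB]; · rfl
          refine ⟨?_, hm⟩; simp [bdry, hA, hB]
        · rw [b2_not_of, b2_not_of hA, b2_not_of hB]; · rfl
          rintro ⟨h, -⟩; exact h (by simp [hA, hB])
  set Φ : ℤ → ZMod 2 := fun y => ∑ i ∈ Finset.Ico a b, z (i, y, true) * b2 (D i y) with hΦ
  have hΦc : Φ c = 1 := by
    simp only [hΦ]
    have h1 : ∀ i ∈ Finset.Ico a b, z (i, c, true) * b2 (D i c) = w i c + w (i + 1) c := by
      intro i hi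
      rw [Finset.mem_Ico] at hi
      rw [← hzH i c hi.1 hi.2 le_rfl hcd]
      by_cases hm : ((i, c, true) : Edg) ∈ G
      · have h2 := (hDcl _ hm).mp ⟨i, hi, by simpa using DReach.refl G (i, c - 1)⟩
        simp only [dtgt_mk] at h2
        rw [b2_of h2, mul_one]
      · simp only [hz]
        rw [b2_not_of hm, zero_mul]
    rw [Finset.sum_congr rfl h1, telescope' hab (fun i => w i c)]
    simp only [hw]
    rw [b2_of (hL c le_rfl hcd), b2_not_of (hR c le_rfl hcd)]
    rfl
  have hstep : ∀ y, c ≤ y → y < d → Φ (y + 1) = Φ y := by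
    intro y h3 h4
    have hsum : ∑ i ∈ Finset.Ico a b, b2 (D i y) *
        (z (i, y, true) + z (i, y + 1, true) + z (i, y, false) + z (i + 1, y, false)) = 0 := by
      apply Finset.sum_eq_zero
      intro i hi
      rw [Finset.mem_Ico] at hi
      rw [hzH i y hi.1 hi.2 h3 h4.le, hzH i (y + 1) hi.1 hi.2 (by omega) (by omega),
        hzV i y hi.1 hi.2.le h3 h4, hzV (i + 1) y (by omega) (by omega) h3 h4]
      have e1 := zmod2_add_self (w i y)
      have e2 := zmod2_add_self (w (i + 1) y)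
      have e3 := zmod2_add_self (w i (y + 1))
      have e4 := zmod2_add_self (w (i + 1) (y + 1))
      linear_combination (b2 (D i y)) * (e1 + e2 + e3 + e4)
    have hV : ∑ i ∈ Finset.Ico a b, (b2 (D i y) * z (i, y, false)
        + b2 (D (i + 1) y) * z (i + 1, y, false)) = 0 := by
      rw [telescope' hab (fun i => b2 (D i y) * z (i, y, false))]
      have h5 : z (a, y, false) = 0 := by
        simp only [hz]; rw [b2_not_of]; rintro ⟨-, h⟩; simp at h
      have h6 : z (b, y, false) = 0 := by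
        simp only [hz]; rw [b2_not_of]; rintro ⟨-, h⟩; simp at h
      rw [h5, h6]; ring
    have hVsw : ∀ i ∈ Finset.Ico a b, b2 (D i y) * z (i + 1, y, false)
        = b2 (D (i + 1) y) * z (i + 1, y, false) := by
      intro i hi
      by_cases hm : ((i + 1, y, false) : Edg) ∈ G
      · have h5 := hDcl _ hm
        simp only [dsrc_false, dtgt_mk, add_sub_cancel_right] at h5
        rw [b2_congr h5]
      · simp only [hz]
        rw [b2_not_of hm]; ring
    have hHsw : ∀ i ∈ Finset.Ico a b, b2 (D i y) * z (i, y + 1, true)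
        = z (i, y + 1, true) * b2 (D i (y + 1)) := by
      intro i hi
      by_cases hm : ((i, y + 1, true) : Edg) ∈ G
      · have h5 := hDcl _ hm
        simp only [dsrc_true, dtgt_mk, add_sub_cancel_right] at h5
        rw [b2_congr h5]; ring
      · simp only [hz]
        rw [b2_not_of hm]; ring
    have hsplit : ∑ i ∈ Finset.Ico a b, b2 (D i y) *
        (z (i, y, true) + z (i, y + 1, true) + z (i, y, false) + z (i + 1, y, false))
        = Φ y + Φ (y + 1) + ∑ i ∈ Finset.Ico a b, (b2 (D i y) * z (i, y, false)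
        + b2 (D (i + 1) y) * z (i + 1, y, false)) := by
      simp only [hΦ]
      rw [← Finset.sum_add_distrib, ← Finset.sum_add_distrib]
      apply Finset.sum_congr rfl
      intro i hi
      rw [← hVsw i hi, ← hHsw i hi]
      ring
    rw [hsum, hV, add_zero] at hsplit
    have h7 := zmod2_add_self (Φ y)
    linear_combination (-1) * hsplit - h7
  have hall : ∀ n : ℕ, c + n ≤ d → Φ (c + n) = 1 := by
    intro n
    induction n with
    | zero => intro _; simpa using hΦc
    | succ n ih =>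
      intro hn
      push_cast at hn ⊢
      rw [← add_assoc, hstep (c + n) (by omega) (by omega)]
      exact ih (by omega)
  obtain ⟨n, hn⟩ := Int.eq_ofNat_of_zero_le (sub_nonneg.mpr hcd)
  have hd1 := hall n (by omega)
  have hcn : c + (n : ℤ) = d := by omega
  rw [hcn] at hd1
  have hex : ∃ i ∈ Finset.Ico a b, z (i, d, true) * b2 (D i d) ≠ 0 := by
    by_contra hno
    push Not at hno
    have : Φ d = 0 := Finset.sum_eq_zero hno
    rw [this] at hd1
    exact zero_ne_one hd1
  obtain ⟨i, hi, hne⟩ := hex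
  rw [Finset.mem_Ico] at hi
  have hDi : D i d := by
    by_contra h
    rw [b2_not_of h, mul_zero] at hne
    exact hne rfl
  obtain ⟨x0, hx0, hr⟩ := hDi
  exact ⟨x0, i, hx0, hi, hr⟩

/-- A left-right crossing and a top-bottom crossing of the same rectangle meet. -/
theorem crossings_meet {a b c d : ℤ} (hab : a < b) (hcd : c ≤ d) {F : Set Edg}
    {y y' x x' : ℤ} (hy' : c ≤ y' ∧ y' ≤ d) (hx : a ≤ x ∧ x ≤ b) 
    (h1 : Reach (F ∩ LRE a b c d) (a, y) (b, y'))
    (h2 : Reach (F ∩ TBE a b c d) (x, c) (x', d)) :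
    Reach (F ∩ RE a b c d) (a, y) (x, c) := by
  by_contra hcon
  set C : Vtx → Prop := fun w => Reach (F ∩ RE a b c d) (a, y) w with hC
  set F1 : Set Edg := {e | C (src e) ∧ C (tgt e)} with hF1
  have hpath : Reach (F1 ∩ LRE a b c d) (a, y) (b, y') := by
    have : ∀ w, Reach (F ∩ LRE a b c d) (a, y) w → C w ∧ Reach (F1 ∩ LRE a b c d) (a, y) w := by
      intro w hw
      induction hw with
      | refl => exact ⟨Reach.refl _ _, Reach.refl _ _⟩
      | @tail w' w'' _ hstep ih =>
        obtain ⟨e, ⟨heF, heR⟩, hcase⟩ := hstep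
        have hadj : Adj (F ∩ RE a b c d) w' w'' :=
          ⟨e, ⟨heF, LRE_subset_RE heR⟩, hcase⟩
        have hC'' : C w'' := ih.1.trans hadj.reach
        refine ⟨hC'', ih.2.trans (Adj.reach ⟨e, ⟨?_, heR⟩, hcase⟩)⟩
        rcases hcase with ⟨h3, h4⟩ | ⟨h3, h4⟩
        · show C (src e) ∧ C (tgt e)
          rw [h3, h4]; exact ⟨ih.1, hC''⟩
        · show C (src e) ∧ C (tgt e)
          rw [h3, h4]; exact ⟨hC'', ih.1⟩
    exact (this _ h1).2
  have hout : ∀ (w : Vtx) (e : Edg), ¬ C w → (src e = w ∨ tgt e = w) → e ∈ F1ᶜ := by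
    intro w e hw h he
    rcases h with h | h
    · exact hw (h ▸ he.1)
    · exact hw (h ▸ he.2)
  have key : ∀ w, Reach (F ∩ TBE a b c d) (x, c) w →
      (a ≤ w.1 ∧ w.1 ≤ b) ∧ ¬ C w ∧
        DReach (F1ᶜ ∩ LRE a b c d) (min x (b - 1), c - 1) (min w.1 (b - 1), w.2) := by
    intro w hw
    induction hw with
    | refl =>
      refine ⟨hx, hcon, ?_⟩
      apply DAdj.reach
      refine ⟨(min x (b - 1), c, true), ⟨?_, ?_⟩, Or.inl ⟨rfl, rfl⟩⟩
      · apply hout (x, c) _ hcon
        rcases eq_or_lt_of_le hx.2 with h | h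
        · right
          have : min x (b - 1) = b - 1 := by omega
          rw [this]; simp [h]
        · left
          have : min x (b - 1) = x := by omega
          rw [this]; simp
      · simp only [mem_coe, mem_LRE_true]; omega
    | @tail w' w'' _ hstep ih =>
      obtain ⟨ihx, ihC, ihD⟩ := ih
      obtain ⟨e, ⟨heF, heR⟩, hcase⟩ := hstep
      have hC'' : ¬ C w'' := by
        intro h
        apply ihC
        exact h.trans (Adj.reach ⟨e, ⟨heF, TBE_subset_RE heR⟩, hcase.symm⟩)
      obtain ⟨x0, y0, bo⟩ := e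
      cases bo
      · have hm : a ≤ x0 ∧ x0 ≤ b ∧ c ≤ y0 ∧ y0 < d := by simpa using heR
        have hCend : ¬ C (x0, y0 + 1) := by
          rcases hcase with ⟨h3, h4⟩ | ⟨h3, h4⟩
          · simp only [tgt_false] at h4; rw [h4]; exact hC''
          · simp only [tgt_false] at h4; rw [h4]; exact ihC
        have hmem : ((min x0 (b - 1), y0 + 1, true) : Edg) ∈ F1ᶜ ∩ LRE a b c d := by
          refine ⟨?_, by simp only [mem_coe, mem_LRE_true]; omega⟩
          apply hout (x0, y0 + 1) _ hCend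
          rcases eq_or_lt_of_le hm.2.1 with h | h
          · right
            have : min x0 (b - 1) = b - 1 := by omega
            rw [this]; simp [h]
          · left
            have : min x0 (b - 1) = x0 := by omega
            rw [this]; simp
        have hDA : DAdj (F1ᶜ ∩ LRE a b c d) (min x0 (b - 1), y0) (min x0 (b - 1), y0 + 1) :=
          ⟨_, hmem, Or.inl ⟨by simp, by simp⟩⟩
        simp only [src_mk, tgt_false] at hcase
        rcases hcase with ⟨h3, h4⟩ | ⟨h3, h4⟩
        · rw [← h3] at ihD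
          rw [← h4] at hC'' ⊢
          exact ⟨⟨hm.1, hm.2.1⟩, hC'', ihD.trans hDA.reach⟩
        · rw [← h4] at ihD
          rw [← h3] at hC'' ⊢
          exact ⟨⟨hm.1, hm.2.1⟩, hC'', ihD.trans hDA.symm.reach⟩
      · have hm : a ≤ x0 ∧ x0 < b ∧ c < y0 ∧ y0 < d := by simpa using heR
        have hCend : ¬ C (x0 + 1, y0) := by
          rcases hcase with ⟨h3, h4⟩ | ⟨h3, h4⟩
          · simp only [tgt_true] at h4; rw [h4]; exact hC''
          · simp only [tgt_true] at h4; rw [h4]; exact ihC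
        have hDA : DReach (F1ᶜ ∩ LRE a b c d) (min x0 (b - 1), y0) (min (x0 + 1) (b - 1), y0) := by
          have hmin : min x0 (b - 1) = x0 := by omega
          rw [hmin]
          by_cases hb : x0 + 1 = b
          · have : min (x0 + 1) (b - 1) = x0 := by omega
            rw [this]; exact DReach.refl _ _
          · have : min (x0 + 1) (b - 1) = x0 + 1 := by omega
            rw [this]
            apply DAdj.reach
            refine ⟨(x0 + 1, y0, false), ⟨?_, ?_⟩, Or.inl ⟨by simp, by simp⟩⟩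
            · exact hout (x0 + 1, y0) _ hCend (Or.inl (by simp))
            · simp only [mem_coe, mem_LRE_false]; omega
        simp only [src_mk, tgt_true] at hcase
        rcases hcase with ⟨h3, h4⟩ | ⟨h3, h4⟩
        · rw [← h3] at ihD
          rw [← h4] at hC'' ⊢
          refine ⟨⟨by simp only; omega, by simp only; omega⟩, hC'', ihD.trans hDA⟩
        · rw [← h4] at ihD
          rw [← h3] at hC'' ⊢
          refine ⟨⟨by simp only; omega, by simp only; omega⟩, hC'', ihD.trans hDA.symm⟩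
  obtain ⟨-, -, hfin⟩ := key _ h2
  exact no_both hcd hy' (by omega) hpath hfin

end H99L
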