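import Pool.Agent.H99.L.Basic

/-!
Connections in a multigraph and the orthogonality of the two-colour increments.
-/

set_option maxHeartbeats 400000

namespace H99L

open Finset

section Graph

variable {E V : Type*}

/-- Adjacency in the multigraph with endpoint maps `s` and `t`, using edges of `F`. -/
def GAdj (s t : E → V) (F : Set E) (u v : V) : Prop :=
  ∃ e ∈ F, (s e = u ∧ t e = v) ∨ (s e = v ∧ t e = u)

/-- Connection in the multigraph with endpoint maps `s` and `t`, using edges of `F`. -/
def GR (s t : E → V) (F : Set E) (u v : V) : Prop := Relation.ReflTransGen (GAdj s t F) u v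

variable {s t : E → V}

theorem GAdj.symm {F : Set E} {u v : V} (h : GAdj s t F u v) : GAdj s t F v u := by
  obtain ⟨e, he, h⟩ := h
  exact ⟨e, he, h.symm⟩

theorem GAdj.mono {F G : Set E} (hFG : F ⊆ G) {u v : V} (h : GAdj s t F u v) :
    GAdj s t G u v := by
  obtain ⟨e, he, h⟩ := h
  exact ⟨e, hFG he, h⟩

theorem GR.refl (F : Set E) (u : V) : GR s t F u u := Relation.ReflTransGen.refl

theorem GR.trans {F : Set E} {u v w : V} (h : GR s t F u v) (h' : GR s t F v w) :
    GR s t F u w := Relation.ReflTransGen.trans h h'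

theorem GR.symm {F : Set E} {u v : V} (h : GR s t F u v) : GR s t F v u := by
  induction h with
  | refl => exact Relation.ReflTransGen.refl
  | tail _ hs ih => exact Relation.ReflTransGen.head hs.symm ih

theorem GR.mono {F G : Set E} (hFG : F ⊆ G) {u v : V} (h : GR s t F u v) : GR s t G u v := by
  induction h with
  | refl => exact Relation.ReflTransGen.refl
  | tail _ hs ih => exact Relation.ReflTransGen.tail ih (hs.mono hFG)

theorem GAdj.gr {F : Set E} {u v : V} (h : GAdj s t F u v) : GR s t F u v :=
  Relation.ReflTransGen.single h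

theorem GR_insert {F : Set E} {e : E} {x y : V} : GR s t (insert e F) x y ↔
    GR s t F x y ∨ (GR s t F x (s e) ∧ GR s t F (t e) y) ∨
      (GR s t F x (t e) ∧ GR s t F (s e) y) := by
  constructor
  · intro h
    induction h with
    | refl => exact Or.inl (GR.refl _ _)
    | @tail y' y'' _ hs ih =>
      obtain ⟨g, hg, hcase⟩ := hs
      rcases Set.mem_insert_iff.mp hg with rfl | hgF
      · rcases hcase with ⟨h1, h2⟩ | ⟨h1, h2⟩
        · subst h1; subst h2
          rcases ih with ih | ⟨ih1, _⟩ | ⟨ih1, _⟩
          · exact Or.inr (Or.inl ⟨ih, GR.refl _ _⟩)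
          · exact Or.inr (Or.inl ⟨ih1, GR.refl _ _⟩)
          · exact Or.inl ih1
        · subst h1; subst h2
          rcases ih with ih | ⟨ih1, _⟩ | ⟨ih1, _⟩
          · exact Or.inr (Or.inr ⟨ih, GR.refl _ _⟩)
          · exact Or.inl ih1
          · exact Or.inr (Or.inr ⟨ih1, GR.refl _ _⟩)
      · have hst : GR s t F y' y'' := GAdj.gr ⟨g, hgF, hcase⟩
        rcases ih with ih | ⟨ih1, ih2⟩ | ⟨ih1, ih2⟩
        · exact Or.inl (ih.trans hst)
        · exact Or.inr (Or.inl ⟨ih1, ih2.trans hst⟩)
        · exact Or.inr (Or.inr ⟨ih1, ih2.trans hst⟩)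
  · intro h
    have hsub : F ⊆ insert e F := Set.subset_insert _ _
    have he : GAdj s t (insert e F) (s e) (t e) :=
      ⟨e, Set.mem_insert _ _, Or.inl ⟨rfl, rfl⟩⟩
    rcases h with h | ⟨h1, h2⟩ | ⟨h1, h2⟩
    · exact h.mono hsub
    · exact (h1.mono hsub).trans (he.gr.trans (h2.mono hsub))
    · exact (h1.mono hsub).trans (he.symm.gr.trans (h2.mono hsub))

/-- An endpoint of `e` is connected to `B`. -/
def HR (s t : E → V) (B : Set V) (e : E) (F : Set E) : Prop :=
  ∃ b ∈ B, GR s t F (s e) b ∨ GR s t F (t e) b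

theorem HR.mono {B : Set V} {e : E} {F G : Set E} (hFG : F ⊆ G) (h : HR s t B e F) :
    HR s t B e G := by
  obtain ⟨b, hb, h⟩ := h
  exact ⟨b, hb, h.imp (fun x => x.mono hFG) (fun x => x.mono hFG)⟩

theorem HR_handover {B : Set V} {e f : E} {F : Set E} (h : HR s t B e (insert f F))
    (h' : ¬ HR s t B e F) : HR s t B f F := by
  obtain ⟨b, hb, h⟩ := h
  rcases h with h | h
  · rcases GR_insert.mp h with h1 | ⟨_, h2⟩ | ⟨_, h2⟩
    · exact absurd ⟨b, hb, Or.inl h1⟩ h'
    · exact ⟨b, hb, Or.inr h2⟩
    · exact ⟨b, hb, Or.inl h2⟩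
  · rcases GR_insert.mp h with h1 | ⟨_, h2⟩ | ⟨_, h2⟩
    · exact absurd ⟨b, hb, Or.inr h1⟩ h'
    · exact ⟨b, hb, Or.inr h2⟩
    · exact ⟨b, hb, Or.inl h2⟩

end Graph

section Static

variable {E V V' : Type*} [DecidableEq E]

theorem Ex_diff {p : E → ℝ} {S : Finset E} {e : E} (he : e ∈ S) (h : Finset E → ℝ) :
    Ex p S (fun F => (ind (e ∈ F) - p e) * h F) =
      p e * (1 - p e) * Ex p (S.erase e) (fun F => h (insert e F) - h F) := by
  have hS : S = insert e (S.erase e) := (Finset.insert_erase he).symm
  conv_lhs => rw [hS]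
  rw [Ex_insert p (Finset.notMem_erase _ _)]
  have h1 : Ex p (S.erase e) (fun F => (ind (e ∈ insert e F) - p e) * h (insert e F)) =
      (1 - p e) * Ex p (S.erase e) (fun F => h (insert e F)) := by
    rw [← Ex_mul_left]
    apply Ex_congr
    intro F _
    rw [ind_of (Finset.mem_insert_self _ _)]
  have h2 : Ex p (S.erase e) (fun F => (ind (e ∈ F) - p e) * h F) =
      (- p e) * Ex p (S.erase e) h := by
    rw [← Ex_mul_left]
    apply Ex_congr
    intro F hF
    have : e ∉ F := fun h => (Finset.notMem_erase e S) (hF h)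
    rw [ind_not_of this]
    ring
  rw [h1, h2, Ex_sub]
  ring

theorem Ex_cs {p : E → ℝ} (hp : Ok p) (S : Finset E) (f g : Finset E → ℝ) :
    (Ex p S (fun F => f F * g F))^2 ≤ Ex p S (fun F => (f F)^2) * Ex p S (fun F => (g F)^2) := by
  unfold Ex
  apply Finset.sum_sq_le_sum_mul_sum_of_sq_eq_mul
  · intro F _
    apply mul_nonneg _ (sq_nonneg _)
    apply mul_nonneg
    · exact Finset.prod_nonneg (fun e _ => (hp e).1)
    · exact Finset.prod_nonneg (fun e _ => by linarith [(hp e).2])
  · intro F _
    apply mul_nonneg _ (sq_nonneg _)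
    apply mul_nonneg
    · exact Finset.prod_nonneg (fun e _ => (hp e).1)
    · exact Finset.prod_nonneg (fun e _ => by linarith [(hp e).2])
  · intro F _
    ring

variable (s t : E → V) (s' t' : E → V') (B : Set V) (B' : Set V') (S : Finset E)

/-- The edge `e` touches an open cluster reaching `B` and a closed cluster reaching `B'`. -/
def GG (e : E) (F : Finset E) : Prop :=
  HR s t B e (↑(F.erase e) : Set E) ∧ HR s' t' B' e (↑((S \ F).erase e) : Set E)

variable {s t s' t' B B' S}

theorem GG_insert_self {e : E} {F : Finset E} :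
    GG s t s' t' B B' S e (insert e F) ↔ GG s t s' t' B B' S e F := by
  unfold GG
  have h1 : (insert e F).erase e = F.erase e := by
    ext x; simp only [Finset.mem_erase, Finset.mem_insert]; tauto
  have h2 : (S \ insert e F).erase e = (S \ F).erase e := by
    ext x; simp only [Finset.mem_erase, Finset.mem_insert, Finset.mem_sdiff]; tauto
  rw [h1, h2]

/-- The key pointwise inequality. -/
theorem GG_cross {e f : E} (hef : e ≠ f) {F : Finset E} (he : e ∉ F) (hf : f ∉ F)
    (heS : e ∈ S) (hfS : f ∈ S) :
    (ind (GG s t s' t' B B' S f (insert e F)) - ind (GG s t s' t' B B' S f F)) *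
      (ind (GG s t s' t' B B' S e (insert f F)) - ind (GG s t s' t' B B' S e F)) ≤ 0 := by
  -- closed sets
  have c1 : (S \ F).erase e = insert f ((S \ insert f F).erase e) := by
    ext x
    simp only [Finset.mem_erase, Finset.mem_sdiff, Finset.mem_insert]
    constructor
    · rintro ⟨h1, h2, h3⟩
      by_cases hx : x = f
      · exact Or.inl hx
      · exact Or.inr ⟨h1, h2, fun h => h.elim hx h3⟩
    · rintro (rfl | ⟨h1, h2, h3⟩)
      · exact ⟨hef.symm, hfS, hf⟩
      · exact ⟨h1, h2, fun h => h3 (Or.inr h)⟩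
  have c2 : (S \ F).erase f = insert e ((S \ insert e F).erase f) := by
    ext x
    simp only [Finset.mem_erase, Finset.mem_sdiff, Finset.mem_insert]
    constructor
    · rintro ⟨h1, h2, h3⟩
      by_cases hx : x = e
      · exact Or.inl hx
      · exact Or.inr ⟨h1, h2, fun h => h.elim hx h3⟩
    · rintro (rfl | ⟨h1, h2, h3⟩)
      · exact ⟨hef, heS, he⟩
      · exact ⟨h1, h2, fun h => h3 (Or.inr h)⟩
  have c3 : (S \ insert f F).erase e = (S \ insert e F).erase f := by
    ext x
    simp only [Finset.mem_erase, Finset.mem_sdiff, Finset.mem_insert]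
    tauto
  have o1 : (insert f F).erase e = insert f F :=
    Finset.erase_eq_of_notMem (by rw [Finset.mem_insert]; exact fun h => h.elim hef he)
  have o2 : (insert e F).erase f = insert e F :=
    Finset.erase_eq_of_notMem (by rw [Finset.mem_insert]; exact fun h => h.elim hef.symm hf)
  have o3 : F.erase e = F := Finset.erase_eq_of_notMem he
  have o4 : F.erase f = F := Finset.erase_eq_of_notMem hf
  set C : Finset E := (S \ insert f F).erase e with hC
  have cC : (S \ insert e F).erase f = C := c3.symm
  have ge1 : GG s t s' t' B B' S e (insert f F) ↔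
      HR s t B e (insert f (↑F : Set E)) ∧ HR s' t' B' e (↑C : Set E) := by
    unfold GG; rw [o1, Finset.coe_insert]
  have ge0 : GG s t s' t' B B' S e F ↔
      HR s t B e (↑F : Set E) ∧ HR s' t' B' e (insert f (↑C : Set E)) := by
    unfold GG; rw [o3, c1, Finset.coe_insert]
  have gf1 : GG s t s' t' B B' S f (insert e F) ↔
      HR s t B f (insert e (↑F : Set E)) ∧ HR s' t' B' f (↑C : Set E) := by
    unfold GG; rw [o2, Finset.coe_insert, cC]
  have gf0 : GG s t s' t' B B' S f F ↔
      HR s t B f (↑F : Set E) ∧ HR s' t' B' f (insert e (↑C : Set E)) := by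
    unfold GG; rw [o4, c2, Finset.coe_insert, cC]
  by_cases he1 : GG s t s' t' B B' S e (insert f F)
  · by_cases he0 : GG s t s' t' B B' S e F
    · rw [ind_of he1, ind_of he0]; simp
    · -- increment of `e` is `+1`
      have hO : ¬ HR s t B e (↑F : Set E) := by
        intro h
        exact he0 (ge0.mpr ⟨h, (ge1.mp he1).2.mono (Set.subset_insert _ _)⟩)
      have hf' : HR s t B f (↑F : Set E) := HR_handover (ge1.mp he1).1 hO
      have himp : GG s t s' t' B B' S f (insert e F) → GG s t s' t' B B' S f F := by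
        intro h
        exact gf0.mpr ⟨hf', (gf1.mp h).2.mono (Set.subset_insert _ _)⟩
      rw [ind_of he1, ind_not_of he0]
      have := ind_mono himp
      linarith
  · by_cases he0 : GG s t s' t' B B' S e F
    · -- increment of `e` is `-1`
      have hD : ¬ HR s' t' B' e (↑C : Set E) := by
        intro h
        exact he1 (ge1.mpr ⟨(ge0.mp he0).1.mono (Set.subset_insert _ _), h⟩)
      have hf' : HR s' t' B' f (↑C : Set E) := HR_handover (ge0.mp he0).2 hD
      have himp : GG s t s' t' B B' S f F → GG s t s' t' B B' S f (insert e F) := by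
        intro h
        exact gf1.mpr ⟨(gf0.mp h).1.mono (Set.subset_insert _ _), hf'⟩
      rw [ind_not_of he1, ind_of he0]
      have := ind_mono himp
      linarith
    · rw [ind_not_of he1, ind_not_of he0]; simp

variable (s t s' t' B B' S) in
/-- The two-colour increment sum. -/
noncomputable def MM (p : E → ℝ) (core : Finset E) (F : Finset E) : ℝ :=
  ∑ e ∈ core, (ind (e ∈ F) - p e) * ind (GG s t s' t' B B' S e F)

theorem MM_diag {p : E → ℝ} {e : E} (he : e ∈ S) :
    Ex p S (fun F => ((ind (e ∈ F) - p e) * ind (GG s t s' t' B B' S e F)) *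
      ((ind (e ∈ F) - p e) * ind (GG s t s' t' B B' S e F))) =
      p e * (1 - p e) * Pr p (S.erase e) (GG s t s' t' B B' S e) := by
  rw [Ex_congr (g := fun F => (ind (e ∈ F) - p e) *
    (ind (GG s t s' t' B B' S e F) * ((ind (e ∈ F) - p e) * ind (GG s t s' t' B B' S e F))))
    (fun F _ => by ring), Ex_diff he]
  unfold Pr
  congr 1
  apply Ex_congr
  intro F hF
  have heF : e ∉ F := fun h => (Finset.notMem_erase e S) (hF h)
  rw [ind_of (Finset.mem_insert_self e F), ind_not_of heF, ind_congr GG_insert_self]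
  have := ind_sq (GG s t s' t' B B' S e F)
  nlinarith

theorem MM_off {p : E → ℝ} (hp : Ok p) {e f : E} (hef : e ≠ f) (he : e ∈ S) (hf : f ∈ S) :
    Ex p S (fun F => ((ind (e ∈ F) - p e) * ind (GG s t s' t' B B' S e F)) *
      ((ind (f ∈ F) - p f) * ind (GG s t s' t' B B' S f F))) ≤ 0 := by
  rw [Ex_congr (g := fun F => (ind (e ∈ F) - p e) *
    (ind (GG s t s' t' B B' S e F) * ((ind (f ∈ F) - p f) * ind (GG s t s' t' B B' S f F))))
    (fun F _ => by ring), Ex_diff he]
  have hf' : f ∈ S.erase e := Finset.mem_erase.mpr ⟨hef.symm, hf⟩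
  have h1 : Ex p (S.erase e) (fun F => ind (GG s t s' t' B B' S e (insert e F)) *
      ((ind (f ∈ insert e F) - p f) * ind (GG s t s' t' B B' S f (insert e F))) -
      ind (GG s t s' t' B B' S e F) *
        ((ind (f ∈ F) - p f) * ind (GG s t s' t' B B' S f F))) =
      Ex p (S.erase e) (fun F => (ind (f ∈ F) - p f) * (ind (GG s t s' t' B B' S e F) *
        (ind (GG s t s' t' B B' S f (insert e F)) - ind (GG s t s' t' B B' S f F)))) := by
    apply Ex_congr
    intro F _
    have h2 : ind (f ∈ insert e F) = ind (f ∈ F) := by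
      apply ind_congr
      rw [Finset.mem_insert]
      exact ⟨fun h => h.elim (fun h => absurd h hef.symm) id, Or.inr⟩
    rw [h2, ind_congr (GG_insert_self (e := e))]
    ring
  rw [h1, Ex_diff hf']
  have hw : 0 ≤ p e * (1 - p e) := mul_nonneg (hp e).1 (by linarith [(hp e).2])
  have hw' : 0 ≤ p f * (1 - p f) := mul_nonneg (hp f).1 (by linarith [(hp f).2])
  apply mul_nonpos_of_nonneg_of_nonpos hw
  apply mul_nonpos_of_nonneg_of_nonpos hw'
  have h3 : Ex p ((S.erase e).erase f) (fun F => ind (GG s t s' t' B B' S e (insert f F)) *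
        (ind (GG s t s' t' B B' S f (insert e (insert f F))) -
          ind (GG s t s' t' B B' S f (insert f F))) -
      ind (GG s t s' t' B B' S e F) *
        (ind (GG s t s' t' B B' S f (insert e F)) - ind (GG s t s' t' B B' S f F))) ≤
      Ex p ((S.erase e).erase f) (fun _ => 0) := by
    apply Ex_mono hp
    intro F hF
    have heF : e ∉ F := fun h => by
      have := hF h
      simp at this
    have hfF : f ∉ F := fun h => by
      have := hF h
      simp at this
    have h4 : ind (GG s t s' t' B B' S f (insert e (insert f F))) =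
        ind (GG s t s' t' B B' S f (insert e F)) := by
      rw [Finset.insert_comm]
      exact ind_congr GG_insert_self
    rw [h4, ind_congr (GG_insert_self (e := f) (F := F))]
    have := GG_cross (s := s) (t := t) (s' := s') (t' := t') (B := B) (B' := B') (S := S) hef
      heF hfF he hf
    linarith
  rw [Ex_const] at h3
  exact h3

theorem MM_sq {p : E → ℝ} (hp : Ok p) {core : Finset E} (hcore : core ⊆ S) :
    Ex p S (fun F => (MM s t s' t' B B' S p core F)^2) ≤
      ∑ e ∈ core, p e * (1 - p e) * Pr p (S.erase e) (GG s t s' t' B B' S e) := by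
  have h1 : Ex p S (fun F => (MM s t s' t' B B' S p core F)^2) =
      ∑ e ∈ core, ∑ f ∈ core, Ex p S (fun F =>
        ((ind (e ∈ F) - p e) * ind (GG s t s' t' B B' S e F)) *
          ((ind (f ∈ F) - p f) * ind (GG s t s' t' B B' S f F))) := by
    rw [Ex_congr (g := fun F => ∑ e ∈ core, ∑ f ∈ core,
        ((ind (e ∈ F) - p e) * ind (GG s t s' t' B B' S e F)) *
          ((ind (f ∈ F) - p f) * ind (GG s t s' t' B B' S f F)))]
    · rw [Ex_sum]
      apply Finset.sum_congr rfl
      intro e _
      rw [Ex_sum]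
    · intro F _
      unfold MM
      rw [sq, Finset.sum_mul_sum]
  rw [h1]
  apply Finset.sum_le_sum
  intro e he
  rw [← Finset.add_sum_erase core _ he, MM_diag (hcore he)]
  have h2 : ∑ f ∈ core.erase e, Ex p S (fun F =>
        ((ind (e ∈ F) - p e) * ind (GG s t s' t' B B' S e F)) *
          ((ind (f ∈ F) - p f) * ind (GG s t s' t' B B' S f F))) ≤ 0 := by
    apply Finset.sum_nonpos
    intro f hf
    rw [Finset.mem_erase] at hf
    exact MM_off hp hf.1.symm (hcore he) (hcore hf.2)
  linarith

/-- The static orthogonality bound. -/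
theorem static_bound {p : E → ℝ} (hp : Ok p) {core : Finset E} (hcore : core ⊆ S)
    (g : Finset E → ℝ) :
    (∑ e ∈ core, p e * (1 - p e) * Ex p (S.erase e)
        (fun F => (g (insert e F) - g F) * ind (GG s t s' t' B B' S e F)))^2 ≤
      Ex p S (fun F => (g F)^2) *
        ∑ e ∈ core, p e * (1 - p e) * Pr p (S.erase e) (GG s t s' t' B B' S e) := by
  have h1 : ∑ e ∈ core, p e * (1 - p e) * Ex p (S.erase e)
        (fun F => (g (insert e F) - g F) * ind (GG s t s' t' B B' S e F)) =
      Ex p S (fun F => g F * MM s t s' t' B B' S p core F) := by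
    rw [Ex_congr (g := fun F => ∑ e ∈ core, (ind (e ∈ F) - p e) *
      (g F * ind (GG s t s' t' B B' S e F)))]
    · rw [Ex_sum]
      apply Finset.sum_congr rfl
      intro e he
      rw [Ex_diff (hcore he)]
      congr 1
      apply Ex_congr
      intro F _
      rw [ind_congr GG_insert_self]
      ring
    · intro F _
      unfold MM
      rw [Finset.mul_sum]
      apply Finset.sum_congr rfl
      intro e _
      ring
  rw [h1]
  refine (Ex_cs hp S _ _).trans ?_
  apply mul_le_mul_of_nonneg_left (MM_sq hp hcore)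
  apply Ex_nonneg hp
  intro F _
  exact sq_nonneg _

end Static

end H99L
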