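import Pool.Agent.H99.L.Cross
import Pool.Agent.H99.L.Static

/-!
Planar duality around an edge: dual arms from primal arms.
-/

set_option maxHeartbeats 400000

namespace H99L

open Finset

/-- The inner boundary of a rectangle. -/
def bdR (a b c d : ℤ) : Set Vtx :=
  {w | inR a b c d w ∧ (w.1 = a ∨ w.1 = b ∨ w.2 = c ∨ w.2 = d)}

/-- Faces outside a rectangle. -/
def outF (a b c d : ℤ) : Set Vtx := {f | f.1 < a ∨ b ≤ f.1 ∨ f.2 < c ∨ d ≤ f.2}

theorem cycle_sep {a b c d : ℤ} {Z : Edg → ZMod 2} (hZ : ∀ e, Z e ≠ 0 → e ∈ RE a b c d)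
    (hbd : ∀ x y, bd Z x y = 0) {G : Set Edg} (hG : G ⊆ ↑(RE a b c d))
    (hGZ : ∀ e ∈ G, Z e = 0) {e : Edg} (he : e ∈ RE a b c d)
    (hu : ∃ w ∈ bdR a b c d, Reach G (src e) w) (hv : ∃ w ∈ bdR a b c d, Reach G (tgt e) w) :
    Z e = 0 := by
  have hZ0 : ∀ e, e ∉ RE a b c d → Z e = 0 := by
    intro e he
    by_contra h
    exact he (hZ e h)
  set s : ℤ → ℤ → ZMod 2 := fun x y => ∑ i ∈ Finset.Ico a x, Z (i, y, true) with hs
  have sH : ∀ x y, a ≤ x → s (x + 1) y = s x y + Z (x, y, true) := by
    intro x y hx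
    simp only [hs]
    rw [sum_Ico_int_succ hx]
  have hleft : ∀ y, Z (a, y, false) = 0 := by
    intro y
    have h := hbd (a - 1) y
    unfold bd at h
    rw [hZ0 (a - 1, y, true) (by simp), hZ0 (a - 1, y + 1, true) (by simp),
      hZ0 (a - 1, y, false) (by simp), sub_add_cancel] at h
    simpa using h
  have hright : ∀ y, Z (b, y, false) = 0 := by
    intro y
    have h := hbd b y
    unfold bd at h
    rw [hZ0 (b, y, true) (by simp), hZ0 (b, y + 1, true) (by simp),
      hZ0 (b + 1, y, false) (by simp)] at h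
    simpa using h
  have sV : ∀ (n : ℕ) (y : ℤ), s (a + n) (y + 1) + s (a + n) y = Z (a + n, y, false) := by
    intro n y
    induction n with
    | zero =>
      have : Z (a + ((0:ℕ):ℤ), y, false) = 0 := by
        have := hleft y
        simpa using this
      rw [this]
      simp [hs]
    | succ n ih =>
      have e1 : a + ((n + 1 : ℕ) : ℤ) = (a + n) + 1 := by push_cast; ring
      rw [e1, sH _ _ (by omega), sH _ _ (by omega)]
      have h3 := hbd (a + n) y
      unfold bd at h3
      have h5 := zmod2_add_self (Z (a + n + 1, y, false))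
      linear_combination ih + h3 - h5
  have sV' : ∀ x y, a ≤ x → s x (y + 1) = s x y + Z (x, y, false) := by
    intro x y hx
    obtain ⟨n, hn⟩ := Int.eq_ofNat_of_zero_le (sub_nonneg.mpr hx)
    have e1 : x = a + n := by omega
    have h3 := sV n y
    rw [← e1] at h3
    have h4 := zmod2_add_self (s x y)
    linear_combination h3 - h4
  have slow : ∀ x y, y < c → s x y = 0 := by
    intro x y hy
    simp only [hs]
    apply Finset.sum_eq_zero
    intro i _
    apply hZ0
    simp only [mem_RE_true]; omega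
  have shigh : ∀ x y, d < y → s x y = 0 := by
    intro x y hy
    simp only [hs]
    apply Finset.sum_eq_zero
    intro i _
    apply hZ0
    simp only [mem_RE_true]; omega
  -- boundary values
  have sleft : ∀ y, s a y = 0 := by intro y; simp [hs]
  have sbot : ∀ x, a ≤ x → s x c = 0 := by
    intro x hx
    have h := sV' x (c - 1) hx
    rw [sub_add_cancel] at h
    rw [h, slow x (c - 1) (by omega), hZ0 (x, c - 1, false) (by simp)]
    ring
  have stop : ∀ x, a ≤ x → s x d = 0 := by
    intro x hx
    have h := sV' x d hx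
    rw [shigh x (d + 1) (by omega), hZ0 (x, d, false) (by simp)] at h
    simpa using h.symm
  have hab : a ≤ b := by
    obtain ⟨x, y, _ | _⟩ := e
    · rw [mem_RE_false] at he; omega
    · rw [mem_RE_true] at he; omega
  have sright : ∀ y, s b y = 0 := by
    have hstep : ∀ (n : ℕ), s b (c - 1 + n) = 0 := by
      intro n
      induction n with
      | zero =>
        have := slow b (c - 1) (by omega)
        simpa using this
      | succ n ih =>
        have e1 : c - 1 + ((n + 1 : ℕ) : ℤ) = (c - 1 + n) + 1 := by push_cast; ring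
        rw [e1, sV' b _ hab, ih, hright]
        ring
    intro y
    by_cases hy : y < c
    · exact slow b y hy
    · obtain ⟨n, hn⟩ := Int.eq_ofNat_of_zero_le (sub_nonneg.mpr (show c - 1 ≤ y by omega))
      have : y = c - 1 + n := by omega
      rw [this]; exact hstep n
  have sbd : ∀ w ∈ bdR a b c d, s w.1 w.2 = 0 := by
    rintro ⟨x, y⟩ ⟨⟨⟨h1, h2⟩, h3, h4⟩, h | h | h | h⟩
    · simp only at h; subst h; exact sleft y
    · simp only at h; subst h; exact sright y
    · simp only at h; subst h; exact sbot x h1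
    · simp only at h; subst h; exact stop x h1
  -- constancy along paths
  have hpath : ∀ w w' : Vtx, a ≤ w.1 → Reach G w w' → a ≤ w'.1 ∧ s w'.1 w'.2 = s w.1 w.2 := by
    intro w w' hw hr
    induction hr with
    | refl => exact ⟨hw, rfl⟩
    | @tail w' w'' _ hstep ih =>
      obtain ⟨⟨x0, y0, bo⟩, heG, hcase⟩ := hstep
      have hZe := hGZ _ heG
      have heR := hG heG
      cases bo
      · have hm : a ≤ x0 ∧ x0 ≤ b ∧ c ≤ y0 ∧ y0 < d := by simpa using heR
        have h3 := sV' x0 y0 hm.1
        rw [hZe, add_zero] at h3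
        simp only [src_mk, tgt_false] at hcase
        rcases hcase with ⟨h4, h5⟩ | ⟨h4, h5⟩
        · rw [← h4] at ih; rw [← h5]
          exact ⟨hm.1, h3.trans ih.2⟩
        · rw [← h5] at ih; rw [← h4]
          exact ⟨hm.1, h3.symm.trans ih.2⟩
      · have hm : a ≤ x0 ∧ x0 < b ∧ c ≤ y0 ∧ y0 ≤ d := by simpa using heR
        have h3 := sH x0 y0 hm.1
        rw [hZe, add_zero] at h3
        simp only [src_mk, tgt_true] at hcase
        rcases hcase with ⟨h4, h5⟩ | ⟨h4, h5⟩
        · rw [← h4] at ih; rw [← h5]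
          exact ⟨by simp only; omega, h3.trans ih.2⟩
        · rw [← h5] at ih; rw [← h4]
          exact ⟨hm.1, h3.symm.trans ih.2⟩
  obtain ⟨w, hw, hrw⟩ := hu
  obtain ⟨w', hw', hrw'⟩ := hv
  obtain ⟨x0, y0, bo⟩ := e
  cases bo
  · have hm : a ≤ x0 ∧ x0 ≤ b ∧ c ≤ y0 ∧ y0 < d := by simpa using he
    have k1 := (hpath _ _ (by simpa using hm.1) hrw).2
    have k2 := (hpath _ _ (by simpa using hm.1) hrw').2
    rw [sbd w hw] at k1
    rw [sbd w' hw'] at k2
    simp only [src_mk, tgt_false] at k1 k2
    have h3 := sV' x0 y0 hm.1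
    rw [← k1, ← k2] at h3
    simpa using h3.symm
  · have hm : a ≤ x0 ∧ x0 < b ∧ c ≤ y0 ∧ y0 ≤ d := by simpa using he
    have k1 := (hpath _ _ (by simpa using hm.1) hrw).2
    have k2 := (hpath _ _ (by rw [tgt_true]; simp only; omega) hrw').2
    rw [sbd w hw] at k1
    rw [sbd w' hw'] at k2
    simp only [src_mk, tgt_true] at k1 k2
    have h3 := sH x0 y0 hm.1
    rw [← k1, ← k2] at h3
    simpa using h3.symm

theorem bd_add (Z Z' : Edg → ZMod 2) (x y : ℤ) :
    bd (fun e => Z e + Z' e) x y = bd Z x y + bd Z' x y := by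
  unfold bd; ring

theorem b2_iff_add (P Q : Prop) : b2 (¬ (P ↔ Q)) = b2 P + b2 Q := by
  by_cases hP : P <;> by_cases hQ : Q
  · rw [b2_not_of (by simp [hP, hQ]), b2_of hP, b2_of hQ]; rfl
  · rw [b2_of (by simp [hP, hQ]), b2_of hP, b2_not_of hQ]; rfl
  · rw [b2_of (by simp [hP, hQ]), b2_not_of hP, b2_of hQ]; rfl
  · rw [b2_not_of (by simp [hP, hQ]), b2_not_of hP, b2_not_of hQ]; rfl

/-- The two faces of a pivotal edge are not connected off the edge. -/
theorem dual_sep {a b c d : ℤ} {F : Set Edg} (hF : F ⊆ ↑(RE a b c d)) {e : Edg}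
    (he : e ∈ RE a b c d) (heF : e ∉ F) (hu : ∃ w ∈ bdR a b c d, Reach F (src e) w)
    (hv : ∃ w ∈ bdR a b c d, Reach F (tgt e) w) :
    ¬ DReach ((↑(RE a b c d) \ F) \ {e}) (dsrc e) (dtgt e) := by
  intro h
  obtain ⟨Z, hZ1, hZ2⟩ := chain_of_dreach h
  have h1 : Z e + b2 (e = e) = 0 := by
    apply cycle_sep (Z := fun e' => Z e' + b2 (e' = e)) (a := a) (b := b) (c := c) (d := d)
        (G := F) _ _ hF _ he hu hv
    · intro e' h'
      by_cases hee : e' = e
      · rw [hee]; exact he
      · have h'' : Z e' + b2 (e' = e) ≠ 0 := h'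
        rw [b2_not_of hee, add_zero] at h''
        exact (hZ1 e' h'').1.1
    · intro x y
      rw [bd_add, hZ2, bd_single]
      exact zmod2_add_self _
    · intro e' he'
      have hee : e' ≠ e := fun h => heF (h ▸ he')
      have hz : Z e' = 0 := by
        by_contra hcon
        exact (hZ1 e' hcon).1.2 he'
      simp only [hz, b2_not_of hee, add_zero]
  have h2 : Z e = 0 := by
    by_contra hcon
    exact (hZ1 e hcon).2 rfl
  rw [h2, b2_of (rfl : e = e), zero_add] at h1
  exact one_ne_zero h1

/-- Each face of a pivotal edge is connected to the outside off the edge. -/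
theorem dual_arm {a b c d : ℤ} {F : Set Edg} (hF : F ⊆ ↑(RE a b c d)) {e : Edg}
    (he : e ∈ RE a b c d) (heF : e ∉ F) (hu : ∃ w ∈ bdR a b c d, Reach F (src e) w)
    (hv : ∃ w ∈ bdR a b c d, Reach F (tgt e) w) (huv : ¬ Reach F (src e) (tgt e))
    {f0 f1 : Vtx} (hf : (f0 = dsrc e ∧ f1 = dtgt e) ∨ (f0 = dtgt e ∧ f1 = dsrc e)) :
    ∃ g ∈ outF a b c d, DReach ((↑(RE a b c d) \ F) \ {e}) f0 g := by
  by_contra hcon
  push Not at hcon
  set W : Vtx → Prop := fun w => Reach F (src e) w with hW
  set G : Set Edg := (bdry W ∩ ↑(RE a b c d)) \ {e} with hG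
  have hGsub : G ⊆ (↑(RE a b c d) \ F) \ {e} := by
    rintro g ⟨⟨hg1, hg2⟩, hg3⟩
    refine ⟨⟨hg2, ?_⟩, hg3⟩
    intro hgF
    apply hg1
    constructor
    · intro h
      exact h.trans (Adj.reach ⟨g, hgF, Or.inl ⟨rfl, rfl⟩⟩)
    · intro h
      exact h.trans (Adj.reach ⟨g, hgF, Or.inr ⟨rfl, rfl⟩⟩)
  have heW : e ∈ bdry W := by
    intro h
    exact huv (h.mp (Reach.refl _ _))
  set C : Vtx → Prop := fun f => DReach G f0 f with hC
  have hCout : ∀ f ∈ outF a b c d, ¬ C f := fun f hf h => hcon f hf (h.mono hGsub)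
  have hCf0 : C f0 := DReach.refl _ _
  have hCcl : ∀ g ∈ G, (C (dsrc g) ↔ C (dtgt g)) := by
    intro g hg
    constructor
    · intro h; exact h.trans (DAdj.reach ⟨g, hg, Or.inl ⟨rfl, rfl⟩⟩)
    · intro h; exact h.trans (DAdj.reach ⟨g, hg, Or.inr ⟨rfl, rfl⟩⟩)
  set Z : Edg → ZMod 2 := fun g => b2 (g ∈ G ∧ C (dtgt g)) with hZ
  have hZG : ∀ g, Z g ≠ 0 → g ∈ G ∧ C (dtgt g) := by
    intro g hg
    by_contra hcon
    exact hg (b2_not_of hcon)
  have hswap : ∀ g, Z g = b2 (g ∈ G ∧ C (dsrc g)) := by
    intro g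
    apply b2_congr
    constructor
    · rintro ⟨h1, h2⟩; exact ⟨h1, (hCcl g h1).mpr h2⟩
    · rintro ⟨h1, h2⟩; exact ⟨h1, (hCcl g h1).mp h2⟩
  -- boundary of the chain
  have hbdZ : ∀ x y, bd Z x y = b2 (C (x, y)) *
      (b2 (dsrc e = (x, y)) + b2 (dtgt e = (x, y))) := by
    intro x y
    by_cases hxy : C (x, y)
    · have hin : ¬ (x < a ∨ b ≤ x ∨ y < c ∨ d ≤ y) := fun h => hCout (x, y) h hxy
      push Not at hin
      have hone : ∀ g : Edg, g ∈ RE a b c d → (C (dtgt g) ∨ C (dsrc g)) →
          Z g = b2 (W (src g)) + b2 (W (tgt g)) + b2 (g = e) := by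
        intro g hgR hCg
        have h1 : Z g = b2 (g ∈ G) := by
          rcases hCg with h | h
          · exact b2_congr ⟨fun k => k.1, fun k => ⟨k, h⟩⟩
          · rw [hswap]; exact b2_congr ⟨fun k => k.1, fun k => ⟨k, h⟩⟩
        rw [h1, ← b2_iff_add]
        by_cases hge : g = e
        · subst hge
          rw [b2_of (rfl : g = g), b2_of (show ¬ (W (src g) ↔ W (tgt g)) from heW),
            b2_not_of (fun h => h.2 rfl)]
          rfl
        · rw [b2_not_of hge, add_zero]
          apply b2_congr
          constructor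
          · intro h; exact h.1.1
          · intro h; exact ⟨⟨h, hgR⟩, hge⟩
      have m1 := hone (x, y, true) (by simp only [mem_RE_true]; omega) (Or.inl (by simpa using hxy))
      have m2 := hone (x, y + 1, true) (by simp only [mem_RE_true]; omega)
        (Or.inr (by simpa using hxy))
      have m3 := hone (x, y, false) (by simp only [mem_RE_false]; omega)
        (Or.inl (by simpa using hxy))
      have m4 := hone (x + 1, y, false) (by simp only [mem_RE_false]; omega)
        (Or.inr (by simpa using hxy))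
      simp only [src_mk, tgt_true, tgt_false] at m1 m2 m3 m4
      have hs := bd_single e x y
      unfold bd at hs ⊢
      rw [m1, m2, m3, m4, b2_of hxy, ← hs]
      have k1 := zmod2_add_self (b2 (W (x, y)))
      have k2 := zmod2_add_self (b2 (W (x + 1, y)))
      have k3 := zmod2_add_self (b2 (W (x, y + 1)))
      have k4 := zmod2_add_self (b2 (W (x + 1, y + 1)))
      linear_combination k1 + k2 + k3 + k4
    · rw [b2_not_of hxy, zero_mul]
      have z1 : Z (x, y, true) = 0 := b2_not_of (fun h => hxy (by simpa using h.2))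
      have z2 : Z (x, y + 1, true) = 0 := by
        rw [hswap]; exact b2_not_of (fun h => hxy (by simpa using h.2))
      have z3 : Z (x, y, false) = 0 := b2_not_of (fun h => hxy (by simpa using h.2))
      have z4 : Z (x + 1, y, false) = 0 := by
        rw [hswap]; exact b2_not_of (fun h => hxy (by simpa using h.2))
      unfold bd
      rw [z1, z2, z3, z4]; ring
  have hZF : ∀ g ∈ F, Z g = 0 := by
    intro g hg
    by_contra h
    exact (hGsub (hZG g h).1).1.2 hg
  have hZe : Z e = 0 := b2_not_of (fun h => h.1.2 rfl)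
  by_cases hf1 : C f1
  · -- then the chain together with `e` is a cycle
    have hb : ∀ x y, bd Z x y = b2 (dsrc e = (x, y)) + b2 (dtgt e = (x, y)) := by
      intro x y
      rw [hbdZ]
      by_cases hxy : C (x, y)
      · rw [b2_of hxy, one_mul]
      · have n1 : ¬ (dsrc e = (x, y)) := by
          intro h
          rcases hf with ⟨h1, _⟩ | ⟨_, h1⟩
          · rw [h1, h] at hCf0; exact hxy hCf0
          · rw [h1, h] at hf1; exact hxy hf1
        have n2 : ¬ (dtgt e = (x, y)) := by
          intro h
          rcases hf with ⟨_, h1⟩ | ⟨h1, _⟩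
          · rw [h1, h] at hf1; exact hxy hf1
          · rw [h1, h] at hCf0; exact hxy hCf0
        rw [b2_not_of hxy, b2_not_of n1, b2_not_of n2]; ring
    have h1 : Z e + b2 (e = e) = 0 := by
      apply cycle_sep (Z := fun e' => Z e' + b2 (e' = e)) (a := a) (b := b) (c := c) (d := d)
        (G := F) _ _ hF _ he hu hv
      · intro e' h'
        by_cases hee : e' = e
        · rw [hee]; exact he
        · have h'' : Z e' + b2 (e' = e) ≠ 0 := h'
          rw [b2_not_of hee, add_zero] at h''
          exact (hGsub (hZG e' h'').1).1.1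
      · intro x y
        rw [bd_add, hb, bd_single]
        exact zmod2_add_self _
      · intro e' he'
        have hee : e' ≠ e := fun h => heF (h ▸ he')
        simp only [hZF e' he', b2_not_of hee, add_zero]
    rw [hZe, b2_of (rfl : e = e), zero_add] at h1
    exact one_ne_zero h1
  · -- parity contradiction
    have hb : ∀ x y, bd Z x y = b2 (f0 = (x, y)) := by
      intro x y
      rw [hbdZ]
      by_cases hxy : C (x, y)
      · rw [b2_of hxy, one_mul]
        have n1 : ¬ (f1 = (x, y)) := by
          intro h; rw [h] at hf1; exact hf1 hxy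
        rcases hf with ⟨h1, h2⟩ | ⟨h1, h2⟩
        · rw [← h1, ← h2, b2_not_of n1, add_zero]
        · rw [← h1, ← h2, b2_not_of n1, zero_add]
      · have n1 : ¬ (f0 = (x, y)) := by
          intro h; rw [h] at hCf0; exact hxy hCf0
        rw [b2_not_of hxy, b2_not_of n1, zero_mul]
    have hf0in : ¬ (f0.1 < a ∨ b ≤ f0.1 ∨ f0.2 < c ∨ d ≤ f0.2) := fun h => hCout f0 h hCf0
    push Not at hf0in
    have hsum : ∑ x ∈ Finset.Ico a b, ∑ y ∈ Finset.Ico c d, bd Z x y = 0 := by
      have e1 : ∀ x ∈ Finset.Ico a b, ∑ y ∈ Finset.Ico c d, bd Z x y =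
          ∑ y ∈ Finset.Ico c d, (Z (x, y, true) + Z (x, y + 1, true)) +
          ∑ y ∈ Finset.Ico c d, (Z (x, y, false) + Z (x + 1, y, false)) := by
        intro x _
        rw [← Finset.sum_add_distrib]
        apply Finset.sum_congr rfl
        intro y _
        unfold bd; ring
      rw [Finset.sum_congr rfl e1, Finset.sum_add_distrib]
      have e2 : ∑ x ∈ Finset.Ico a b, ∑ y ∈ Finset.Ico c d, (Z (x, y, true) + Z (x, y + 1, true))
          = 0 := by
        apply Finset.sum_eq_zero
        intro x hx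
        rw [Finset.mem_Ico] at hx
        rw [telescope' (by omega) (fun y => Z (x, y, true))]
        have z1 : Z (x, c, true) = 0 := by
          rw [hswap]
          apply b2_not_of
          rintro ⟨_, h⟩
          exact hCout _ (by simp only [dsrc_true]; right; right; left; simp) h
        have z2 : Z (x, d, true) = 0 := by
          apply b2_not_of
          rintro ⟨_, h⟩
          exact hCout _ (by simp only [dtgt_mk]; right; right; right; simp) h
        rw [z1, z2]; ring
      have e3 : ∑ x ∈ Finset.Ico a b, ∑ y ∈ Finset.Ico c d,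
          (Z (x, y, false) + Z (x + 1, y, false)) = 0 := by
        rw [Finset.sum_comm]
        apply Finset.sum_eq_zero
        intro y hy
        rw [telescope' (by omega) (fun x => Z (x, y, false))]
        have z1 : Z (a, y, false) = 0 := by
          rw [hswap]
          apply b2_not_of
          rintro ⟨_, h⟩
          exact hCout _ (by simp only [dsrc_false]; left; simp) h
        have z2 : Z (b, y, false) = 0 := by
          apply b2_not_of
          rintro ⟨_, h⟩
          exact hCout _ (by simp only [dtgt_mk]; right; left; simp) h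
        rw [z1, z2]; ring
      rw [e2, e3]; ring
    have hsum1 : ∑ x ∈ Finset.Ico a b, ∑ y ∈ Finset.Ico c d, bd Z x y = 1 := by
      rw [Finset.sum_eq_single f0.1, Finset.sum_eq_single f0.2]
      · rw [hb, b2_of rfl]
      · intro y _ hy
        rw [hb, b2_not_of]
        intro h
        apply hy
        rw [h]
      · intro h
        exact absurd (Finset.mem_Ico.mpr ⟨hf0in.2.2.1, hf0in.2.2.2⟩) h
      · intro x _ hx
        apply Finset.sum_eq_zero
        intro y _
        rw [hb, b2_not_of]
        intro h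
        apply hx
        rw [h]
      · intro h
        exact absurd (Finset.mem_Ico.mpr ⟨hf0in.1, hf0in.2.1⟩) h
    rw [hsum] at hsum1
    exact zero_ne_one hsum1

end H99L
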