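import Pool.Agent.H99.L.Cross

/-!
The topological step in the Russo-Seymour-Welsh argument.
-/

set_option maxHeartbeats 400000

namespace H99L

open Finset

/-- Faces reached from the left side of the square `[0, n] × [0, n]` by closed dual paths. -/
def Dual0 (n : ℤ) (F : Finset Edg) (f : Vtx) : Prop :=
  ∃ y, (0 ≤ y ∧ y < n) ∧ DReach ((↑F : Set Edg)ᶜ ∩ ↑(TBE 0 n 0 n)) (-1, y) f

open Classical in
/-- The explored edges. -/
noncomputable def KK (n : ℤ) (F : Finset Edg) : Finset Edg :=
  (TBE 0 n 0 n).filter (fun e => Dual0 n F (dsrc e) ∨ Dual0 n F (dtgt e))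

theorem mem_KK {n : ℤ} {F : Finset Edg} {e : Edg} :
    e ∈ KK n F ↔ e ∈ TBE 0 n 0 n ∧ (Dual0 n F (dsrc e) ∨ Dual0 n F (dtgt e)) := by
  simp only [KK, Finset.mem_filter]

/-- Endpoints of explored edges. -/
def WW (K : Finset Edg) (w : Vtx) : Prop := ∃ e ∈ K, src e = w ∨ tgt e = w

/-- Folding along the line `y = n`. -/
def fold (n : ℤ) (v : Vtx) : Vtx := (v.1, min v.2 (2 * n - v.2))

/-- Vertices which are endpoints of explored edges, up to reflection. -/
def TT (n : ℤ) (K : Finset Edg) (v : Vtx) : Prop := WW K (fold n v)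

/-- There is an open path from the right side to an endpoint of an explored edge whose other
vertices are not such endpoints, not even up to reflection. -/
def YY (n m : ℤ) (K : Finset Edg) (F : Finset Edg) : Prop :=
  ∃ y v w, (0 ≤ y ∧ y ≤ 2 * n) ∧
    Reach ((↑F ∩ ↑(RE 0 m 0 (2 * n))) ∩ {e | ¬ TT n K (src e) ∧ ¬ TT n K (tgt e)}) (m, y) v ∧
    ¬ TT n K v ∧ Adj (↑F ∩ ↑(RE 0 m 0 (2 * n))) v w ∧ WW K w

theorem Dual0_closed {n : ℤ} {F : Finset Edg} {e : Edg} (he : e ∈ TBE 0 n 0 n) (heF : e ∉ F) :
    Dual0 n F (dsrc e) ↔ Dual0 n F (dtgt e) := by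
  have hm : e ∈ ((↑F : Set Edg)ᶜ ∩ ↑(TBE 0 n 0 n)) := ⟨heF, he⟩
  constructor
  · rintro ⟨y, hy, h⟩
    exact ⟨y, hy, h.trans (DAdj.reach ⟨e, hm, Or.inl ⟨rfl, rfl⟩⟩)⟩
  · rintro ⟨y, hy, h⟩
    exact ⟨y, hy, h.trans (DAdj.reach ⟨e, hm, Or.inr ⟨rfl, rfl⟩⟩)⟩

theorem claim2 {n m : ℤ} (hn : 0 < n) (hm : n < m) {F : Finset Edg}
    (hgood : ∀ y, 0 ≤ y → y < n → ¬ Dual0 n F (n, y)) (hY : YY n m (KK n F) F) :
    ∃ x x' y, (0 ≤ x ∧ x ≤ n) ∧ (0 ≤ x' ∧ x' ≤ n) ∧ (0 ≤ y ∧ y ≤ 2 * n) ∧
      Reach (↑F ∩ ↑(TBE 0 n 0 n)) (x, 0) (x', n) ∧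
      Reach (↑F ∩ ↑(RE 0 m 0 (2 * n))) (m, y) (x, 0) := by
  obtain ⟨y0, v, w, hy0, hpath, hvT, hadj, hwW⟩ := hY
  set D : ℤ → ℤ → Prop := fun x y => Dual0 n F (x, y) with hD
  have D1 : ∀ y, 0 ≤ y → y < n → D (-1) y := fun y h1 h2 => ⟨y, ⟨h1, h2⟩, DReach.refl _ _⟩
  set B : Set Edg := {e | e ∈ TBE 0 n 0 n ∧ ¬ (Dual0 n F (dsrc e) ↔ Dual0 n F (dtgt e))} with hB
  have hBF : ∀ e ∈ B, e ∈ F := by
    rintro e ⟨h1, h2⟩
    by_contra h3
    exact h2 (Dual0_closed h1 h3)
  have hBK : ∀ e ∈ B, e ∈ KK n F := by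
    rintro e ⟨h1, h2⟩
    rw [mem_KK]
    refine ⟨h1, ?_⟩
    by_contra h3
    push Not at h3
    exact h2 ⟨fun h => absurd h h3.1, fun h => absurd h h3.2⟩
  set C : Vtx → Prop := fun u => Reach B w u with hC
  have hCB : ∀ e ∈ B, (C (src e) ↔ C (tgt e)) := by
    intro e he
    constructor
    · intro h; exact h.trans (Adj.reach ⟨e, he, Or.inl ⟨rfl, rfl⟩⟩)
    · intro h; exact h.trans (Adj.reach ⟨e, he, Or.inr ⟨rfl, rfl⟩⟩)
  have hCw : C w := Reach.refl _ _
  set z : Edg → ZMod 2 := fun e => b2 (e ∈ B ∧ C (src e)) with hz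
  have z_out : ∀ e, e ∉ TBE 0 n 0 n → z e = 0 := by
    intro e he
    simp only [hz]
    rw [b2_not_of]
    rintro ⟨⟨h, -⟩, -⟩
    exact he h
  have z_notK : ∀ e, e ∉ KK n F → z e = 0 := by
    intro e he
    simp only [hz]
    rw [b2_not_of]
    rintro ⟨h, -⟩
    exact he (hBK e h)
  have z_notC : ∀ e, (¬ C (src e) ∨ ¬ C (tgt e)) → z e = 0 := by
    intro e he
    simp only [hz]
    rw [b2_not_of]
    rintro ⟨h, h2⟩
    rcases he with he | he
    · exact he h2
    · exact he ((hCB e h).mp h2)
  have z_eq : ∀ e, e ∈ TBE 0 n 0 n → (C (src e) ∨ C (tgt e)) →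
      z e = b2 (Dual0 n F (dsrc e)) + b2 (Dual0 n F (dtgt e)) := by
    intro e he hc
    simp only [hz]
    by_cases h1 : Dual0 n F (dsrc e) <;> by_cases h2 : Dual0 n F (dtgt e)
    · rw [b2_not_of, b2_of h1, b2_of h2]; · rfl
      rintro ⟨⟨-, h⟩, -⟩; exact h (by simp [h1, h2])
    · have heB : e ∈ B := ⟨he, by simp [h1, h2]⟩
      have hcs : C (src e) := by
        rcases hc with h | h
        · exact h
        · exact (hCB e heB).mpr h
      rw [b2_of ⟨heB, hcs⟩, b2_of h1, b2_not_of h2]; rfl
    · have heB : e ∈ B := ⟨he, by simp [h1, h2]⟩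
      have hcs : C (src e) := by
        rcases hc with h | h
        · exact h
        · exact (hCB e heB).mpr h
      rw [b2_of ⟨heB, hcs⟩, b2_of h2, b2_not_of h1]; rfl
    · rw [b2_not_of, b2_not_of h1, b2_not_of h2]; · rfl
      rintro ⟨⟨-, h⟩, -⟩; exact h (by simp [h1, h2])
  -- evenness at vertices
  have even : ∀ x y, 0 ≤ x → 0 < y → y < n →
      z (x, y - 1, false) + z (x, y, false) + (z (x - 1, y, true) + z (x, y, true)) = 0 := by
    intro x y hx hy hyn
    by_cases hxn : n < x
    · rw [z_out (x, y - 1, false) (by simp only [mem_TBE_false]; omega),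
        z_out (x, y, false) (by simp only [mem_TBE_false]; omega),
        z_out (x - 1, y, true) (by simp only [mem_TBE_true]; omega),
        z_out (x, y, true) (by simp only [mem_TBE_true]; omega)]
      rfl
    by_cases hCv : C (x, y)
    · have e1 := z_eq (x, y - 1, false) (by simp only [mem_TBE_false]; omega)
        (Or.inr (by simpa using hCv))
      have e2 := z_eq (x, y, false) (by simp only [mem_TBE_false]; omega)
        (Or.inl (by simpa using hCv))
      have e3 : z (x - 1, y, true) = b2 (D (x - 1) (y - 1)) + b2 (D (x - 1) y) := by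
        by_cases h0 : x = 0
        · subst h0
          rw [z_out (0 - 1, y, true) (by simp only [mem_TBE_true]; omega)]
          have k1 : D (0 - 1) (y - 1) := D1 _ (by omega) (by omega)
          have k2 : D (0 - 1) y := D1 _ (by omega) (by omega)
          rw [b2_of k1, b2_of k2]; rfl
        · have := z_eq (x - 1, y, true) (by simp only [mem_TBE_true]; omega)
            (Or.inr (by simpa using hCv))
          simpa using this
      have e4 : z (x, y, true) = b2 (D x (y - 1)) + b2 (D x y) := by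
        by_cases h0 : x = n
        · subst h0
          rw [z_out (x, y, true) (by simp only [mem_TBE_true]; omega)]
          have k1 : ¬ D x (y - 1) := hgood _ (by omega) (by omega)
          have k2 : ¬ D x y := hgood _ (by omega) (by omega)
          rw [b2_not_of k1, b2_not_of k2]; rfl
        · have := z_eq (x, y, true) (by simp only [mem_TBE_true]; omega)
            (Or.inl (by simpa using hCv))
          simpa using this
      simp only [dsrc_false, dtgt_mk] at e1 e2
      rw [e1, e2, e3, e4]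
      simp only [hD]
      have f1 := zmod2_add_self (b2 (Dual0 n F (x - 1, y - 1)))
      have f2 := zmod2_add_self (b2 (Dual0 n F (x, y - 1)))
      have f3 := zmod2_add_self (b2 (Dual0 n F (x - 1, y)))
      have f4 := zmod2_add_self (b2 (Dual0 n F (x, y)))
      linear_combination f1 + f2 + f3 + f4
    · rw [z_notC (x, y - 1, false) (Or.inr (by simpa using hCv)),
        z_notC (x, y, false) (Or.inl (by simpa using hCv)),
        z_notC (x - 1, y, true) (Or.inr (by simpa using hCv)),
        z_notC (x, y, true) (Or.inl (by simpa using hCv))]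
      rfl
  -- the face function
  set s : ℤ → ℤ → ZMod 2 := fun x y => ∑ i ∈ Finset.Ico 0 (x + 1), z (i, y, false) with hs
  have s_neg : ∀ y, s (-1) y = 0 := by intro y; simp [hs]
  have sH : ∀ x y, 0 ≤ x → s x y = s (x - 1) y + z (x, y, false) := by
    intro x y hx
    simp only [hs]
    have : x - 1 + 1 = x := by ring
    rw [this, sum_Ico_int_succ hx]
  have sV0 : ∀ (k : ℕ) (y : ℤ), 0 < y → y < n →
      s (-1 + k) y + s (-1 + k) (y - 1) = z (-1 + k, y, true) := by
    intro k y h1 h2
    induction k with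
    | zero =>
      have e0 : (-1 : ℤ) + ((0:ℕ):ℤ) = -1 := by norm_num
      rw [e0, s_neg, s_neg, z_out (-1, y, true) (by simp only [mem_TBE_true]; omega)]
      rfl
    | succ k ih =>
      have e1 : (-1 : ℤ) + ((k + 1 : ℕ) : ℤ) = (-1 + k) + 1 := by push_cast; ring
      rw [e1]
      have e2 := sH (-1 + k + 1) y (by omega)
      have e3 := sH (-1 + k + 1) (y - 1) (by omega)
      have e4 : (-1 + (k:ℤ) + 1) - 1 = -1 + k := by ring
      rw [e4] at e2 e3
      have e5 := even (-1 + k + 1) y (by omega) h1 h2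
      rw [e4] at e5
      rw [e2, e3]
      have f1 := zmod2_add_self (z (-1 + (k:ℤ) + 1, y, true))
      linear_combination ih + e5 - f1
  have sV : ∀ x y, -1 ≤ x → 0 < y → y < n → s x y + s x (y - 1) = z (x, y, true) := by
    intro x y hx h1 h2
    obtain ⟨k, hk⟩ := Int.eq_ofNat_of_zero_le (show 0 ≤ x + 1 by omega)
    have : x = -1 + k := by omega
    rw [this]
    exact sV0 k y h1 h2
  -- flux
  have hq : ∀ y, 0 < y → y < n → s n y = s n (y - 1) := by
    intro y h1 h2
    have := sV n y (by omega) h1 h2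
    rw [z_out (n, y, true) (by simp only [mem_TBE_true]; omega)] at this
    have f1 := zmod2_add_self (s n (y - 1))
    linear_combination this - f1
  have hqq : ∀ k : ℕ, (k : ℤ) < n → s n k = s n 0 := by
    intro k
    induction k with
    | zero => intro _; simp
    | succ k ih =>
      intro hk
      push_cast at hk ⊢
      rw [hq (k + 1) (by omega) (by omega)]
      have : (k:ℤ) + 1 - 1 = k := by ring
      rw [this]
      exact ih (by omega)
  have hqall : ∀ y, 0 ≤ y → y < n → s n y = s n 0 := by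
    intro y h1 h2
    obtain ⟨k, hk⟩ := Int.eq_ofNat_of_zero_le h1
    have := hqq k (by omega)
    rw [hk]; exact this
  -- the key contradiction
  have main : s n 0 = 0 → False := by
    intro hs0
    have s_big : ∀ x y, n ≤ x → 0 ≤ y → y < n → s x y = 0 := by
      intro x y hx h1 h2
      obtain ⟨k, hk⟩ := Int.eq_ofNat_of_zero_le (show 0 ≤ x - n by omega)
      have : x = n + k := by omega
      rw [this]
      clear hx hk this
      induction k with
      | zero => simp only [Nat.cast_zero, add_zero]; rw [hqall y h1 h2, hs0]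
      | succ k ih =>
        have e1 : n + ((k + 1 : ℕ) : ℤ) = (n + k) + 1 := by push_cast; ring
        rw [e1, sH _ y (by omega), z_out (n + k + 1, y, false) (by simp only [mem_TBE_false]; omega)]
        have e4 : (n + (k:ℤ) + 1) - 1 = n + k := by ring
        rw [e4, ih, add_zero]
    -- `s` vanishes on `D`
    have s_D : ∀ f : Vtx, Dual0 n F f → (-1 ≤ f.1 ∧ 0 ≤ f.2 ∧ f.2 < n) ∧ s f.1 f.2 = 0 := by
      rintro f ⟨y, hy, h⟩
      have : ∀ g, DReach ((↑F : Set Edg)ᶜ ∩ ↑(TBE 0 n 0 n)) (-1, y) g →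
          (Dual0 n F g ∧ (-1 ≤ g.1 ∧ 0 ≤ g.2 ∧ g.2 < n)) ∧ s g.1 g.2 = 0 := by
        intro g hg
        induction hg with
        | refl => exact ⟨⟨⟨y, hy, DReach.refl _ _⟩, by simp only; omega⟩, s_neg y⟩
        | @tail g g' _ hst ih =>
          obtain ⟨⟨ihD, ihr⟩, ihs⟩ := ih
          obtain ⟨e, ⟨heF, heT⟩, hcase⟩ := hst
          have hcl := Dual0_closed (n := n) (F := F) heT heF
          have hze : z e = 0 := by
            simp only [hz]
            rw [b2_not_of]
            rintro ⟨⟨-, h⟩, -⟩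
            exact h hcl
          have hDg' : Dual0 n F g' := by
            rcases hcase with ⟨h1, h2⟩ | ⟨h1, h2⟩
            · rw [← h2]; rw [← h1] at ihD; exact hcl.mp ihD
            · rw [← h1]; rw [← h2] at ihD; exact hcl.mpr ihD
          obtain ⟨x1, y1, bo⟩ := e
          cases bo
          · have hm' : 0 ≤ x1 ∧ x1 ≤ n ∧ 0 ≤ y1 ∧ y1 < n := by simpa using heT
            have h5 := sH x1 y1 hm'.1
            rw [hze, add_zero] at h5
            simp only [dsrc_false, dtgt_mk] at hcase
            rcases hcase with ⟨h1, h2⟩ | ⟨h1, h2⟩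
            · rw [← h1] at ihs; rw [← h2] at hDg' ⊢
              exact ⟨⟨hDg', by simp only; omega⟩, by simp only at ihs ⊢; rw [h5, ihs]⟩
            · rw [← h2] at ihs; rw [← h1] at hDg' ⊢
              exact ⟨⟨hDg', by simp only; omega⟩, by simp only at ihs ⊢; rw [← h5, ihs]⟩
          · have hm' : 0 ≤ x1 ∧ x1 < n ∧ 0 < y1 ∧ y1 < n := by simpa using heT
            have h5 := sV x1 y1 (by omega) hm'.2.2.1 hm'.2.2.2
            rw [hze] at h5
            have f1 := zmod2_add_self (s x1 y1)
            have f2 := zmod2_add_self (s x1 (y1 - 1))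
            simp only [dsrc_true, dtgt_mk] at hcase
            rcases hcase with ⟨h1, h2⟩ | ⟨h1, h2⟩
            · rw [← h1] at ihs; rw [← h2] at hDg' ⊢
              refine ⟨⟨hDg', by simp only; omega⟩, ?_⟩
              simp only at ihs ⊢
              linear_combination h5 - ihs
            · rw [← h2] at ihs; rw [← h1] at hDg' ⊢
              refine ⟨⟨hDg', by simp only; omega⟩, ?_⟩
              simp only at ihs ⊢
              linear_combination h5 - ihs
      obtain ⟨⟨-, h2⟩, h3⟩ := this f h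
      exact ⟨h2, h3⟩
    -- corners of faces in `D` are in `WW`
    have corner : ∀ a b x y : ℤ, 0 ≤ a → Dual0 n F (x, y) → (x = a - 1 ∨ x = a) →
        (y = b - 1 ∨ y = b) → WW (KK n F) (a, b) := by
      intro a b x y ha hDf hx hy
      obtain ⟨⟨h1, h2, h3⟩, -⟩ := s_D _ hDf
      simp only at h1 h2 h3
      have hxn : x < n := by
        by_contra hcon
        have hxe : ∀ f, Dual0 n F f → f.1 ≤ n := by
          rintro f ⟨y', hy', h⟩
          induction h with
          | refl => simp only; omega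
          | @tail g g' _ hst ih =>
            obtain ⟨⟨x1, y1, bo⟩, ⟨-, heT⟩, hcase⟩ := hst
            cases bo
            · have hm' : 0 ≤ x1 ∧ x1 ≤ n ∧ 0 ≤ y1 ∧ y1 < n := by simpa using heT
              simp only [dsrc_false, dtgt_mk] at hcase
              rcases hcase with ⟨h1, h2⟩ | ⟨h1, h2⟩
              · rw [← h2]; exact hm'.2.1
              · rw [← h1]; simp only; omega
            · have hm' : 0 ≤ x1 ∧ x1 < n ∧ 0 < y1 ∧ y1 < n := by simpa using heT
              simp only [dsrc_true, dtgt_mk] at hcase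
              rcases hcase with ⟨h1, h2⟩ | ⟨h1, h2⟩
              · rw [← h2]; exact hm'.2.1.le
              · rw [← h1]; exact hm'.2.1.le
        have h4 := hxe _ hDf
        simp only at h4
        have h5 : x = n := by omega
        rw [h5] at hDf
        exact hgood y h2 h3 hDf
      rcases hx with hx | hx
      · -- edge `V(a, y)` with `dsrc = (a - 1, y)`
        refine ⟨(a, y, false), ?_, ?_⟩
        · rw [mem_KK]
          refine ⟨by simp only [mem_TBE_false]; omega, Or.inl ?_⟩
          rw [dsrc_false, ← hx]; exact hDf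
        · rcases hy with hy | hy
          · right; rw [tgt_false, hy]; simp
          · left; rw [src_mk, hy]
      · refine ⟨(a, y, false), ?_, ?_⟩
        · rw [mem_KK]
          refine ⟨by simp only [mem_TBE_false]; omega, Or.inr ?_⟩
          rw [dtgt_mk, ← hx]; exact hDf
        · rcases hy with hy | hy
          · right; rw [tgt_false, hy]; simp
          · left; rw [src_mk, hy]
    -- `s` around vertices which are not in `WW`
    set P : ℤ → ℤ → Prop := fun a b => ∀ x y, (x = a - 1 ∨ x = a) → (y = b - 1 ∨ y = b) →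
      0 ≤ y → y < n → s x y = 0 with hP
    have zz : ∀ a b, ¬ WW (KK n F) (a, b) → z (a, b, false) = 0 ∧ z (a, b - 1, false) = 0 ∧
        z (a, b, true) = 0 ∧ z (a - 1, b, true) = 0 := by
      intro a b hW
      refine ⟨z_notK _ ?_, z_notK _ ?_, z_notK _ ?_, z_notK _ ?_⟩ <;> intro hK <;> apply hW
      · exact ⟨_, hK, Or.inl rfl⟩
      · exact ⟨_, hK, Or.inr (by simp)⟩
      · exact ⟨_, hK, Or.inl rfl⟩
      · exact ⟨_, hK, Or.inr (by simp)⟩
    have spread : ∀ a b x0 y0, 0 ≤ a → ¬ WW (KK n F) (a, b) → (x0 = a - 1 ∨ x0 = a) →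
        (y0 = b - 1 ∨ y0 = b) → 0 ≤ y0 → y0 < n → s x0 y0 = 0 → P a b := by
      intro a b x0 y0 ha hW hx0 hy0 h0 h1 hs1
      obtain ⟨z1, z2, z3, z4⟩ := zz a b hW
      have c1 : s a b = s (a - 1) b := by rw [sH a b ha, z1, add_zero]
      have c2 : s a (b - 1) = s (a - 1) (b - 1) := by rw [sH a (b - 1) ha, z2, add_zero]
      have c3 : 0 < b → b < n → s a b = s a (b - 1) := by
        intro k1 k2
        have := sV a b (by omega) k1 k2
        rw [z3] at this
        have f1 := zmod2_add_self (s a (b - 1))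
        linear_combination this - f1
      intro x y hx hy k0 k1
      have hrow : s a y = s (a - 1) y := by
        rcases hy with hy | hy
        · rw [hy]; exact c2
        · rw [hy]; exact c1
      have hrow0 : s a y0 = s (a - 1) y0 := by
        rcases hy0 with hy | hy
        · rw [hy]; exact c2
        · rw [hy]; exact c1
      have hx' : s x y = s a y := by
        rcases hx with hx | hx
        · rw [hx, hrow]
        · rw [hx]
      have hx0' : s x0 y0 = s a y0 := by
        rcases hx0 with hx | hx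
        · rw [hx, hrow0]
        · rw [hx]
      rw [hx']
      rw [hx0'] at hs1
      rcases hy with hy | hy <;> rcases hy0 with hy0 | hy0
      · rw [hy, ← hy0]; exact hs1
      · rw [hy, ← c3 (by omega) (by omega), ← hy0]; exact hs1
      · rw [hy, c3 (by omega) (by omega), ← hy0]; exact hs1
      · rw [hy, ← hy0]; exact hs1
    have hfold : ∀ v' : Vtx, inR 0 m 0 (2 * n) v' → (0 ≤ (fold n v').2 ∧ (fold n v').2 ≤ n) := by
      rintro ⟨a, b⟩ ⟨h1, h2⟩
      simp only [fold]
      simp only at h2
      omega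
    -- adjacent vertices share a face after folding
    have share : ∀ u u' : Vtx, inR 0 m 0 (2 * n) u → inR 0 m 0 (2 * n) u' →
        Adj (↑F ∩ ↑(RE 0 m 0 (2 * n))) u u' →
        ∃ x y, (x = (fold n u).1 - 1 ∨ x = (fold n u).1) ∧
          (y = (fold n u).2 - 1 ∨ y = (fold n u).2) ∧
          (x = (fold n u').1 - 1 ∨ x = (fold n u').1) ∧
          (y = (fold n u').2 - 1 ∨ y = (fold n u').2) ∧ 0 ≤ y ∧ y < n := by
      rintro ⟨a, b⟩ ⟨a', b'⟩ ⟨h1, h2⟩ ⟨h3, h4⟩ ⟨⟨x1, y1, bo⟩, ⟨-, heR⟩, hcase⟩
      simp only at h1 h2 h3 h4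
      simp only [fold]
      cases bo
      · have hm' : 0 ≤ x1 ∧ x1 ≤ m ∧ 0 ≤ y1 ∧ y1 < 2 * n := by simpa using heR
        simp only [src_mk, tgt_false, Prod.mk.injEq] at hcase
        refine ⟨x1, min y1 (2 * n - 1 - y1), ?_, ?_, ?_, ?_, ?_, ?_⟩
        · rcases hcase with h | h <;> omega
        · rcases hcase with h | h <;> omega
        · rcases hcase with h | h <;> omega
        · rcases hcase with h | h <;> omega
        · omega
        · omega
      · have hm' : 0 ≤ x1 ∧ x1 < m ∧ 0 ≤ y1 ∧ y1 ≤ 2 * n := by simpa using heR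
        simp only [src_mk, tgt_true, Prod.mk.injEq] at hcase
        by_cases hz0 : min y1 (2 * n - y1) = 0
        · refine ⟨x1, 0, ?_, ?_, ?_, ?_, ?_, ?_⟩
          · rcases hcase with h | h <;> omega
          · rcases hcase with h | h <;> omega
          · rcases hcase with h | h <;> omega
          · rcases hcase with h | h <;> omega
          · omega
          · omega
        · refine ⟨x1, min y1 (2 * n - y1) - 1, ?_, ?_, ?_, ?_, ?_, ?_⟩
          · rcases hcase with h | h <;> omega
          · rcases hcase with h | h <;> omega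
          · rcases hcase with h | h <;> omega
          · rcases hcase with h | h <;> omega
          · omega
          · omega
    have inR_of_adj : ∀ u u' : Vtx, Adj (↑F ∩ ↑(RE 0 m 0 (2 * n))) u u' →
        inR 0 m 0 (2 * n) u ∧ inR 0 m 0 (2 * n) u' := by
      rintro ⟨a, b⟩ ⟨a', b'⟩ ⟨⟨x1, y1, bo⟩, ⟨-, heR⟩, hcase⟩
      unfold inR
      cases bo
      · have hm' : 0 ≤ x1 ∧ x1 ≤ m ∧ 0 ≤ y1 ∧ y1 < 2 * n := by simpa using heR
        simp only [src_mk, tgt_false, Prod.mk.injEq] at hcase
        rcases hcase with h | h <;> (simp only; omega)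
      · have hm' : 0 ≤ x1 ∧ x1 < m ∧ 0 ≤ y1 ∧ y1 ≤ 2 * n := by simpa using heR
        simp only [src_mk, tgt_true, Prod.mk.injEq] at hcase
        rcases hcase with h | h <;> (simp only; omega)
    have walk : ∀ u, Reach ((↑F ∩ ↑(RE 0 m 0 (2 * n))) ∩
        {e | ¬ TT n (KK n F) (src e) ∧ ¬ TT n (KK n F) (tgt e)}) (m, y0) u →
        P (fold n u).1 (fold n u).2 := by
      intro u hu
      induction hu with
      | refl =>
        intro x y hx hy h0 h1
        simp only [fold] at hx
        exact s_big x y (by omega) h0 h1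
      | @tail u u' _ hst ih =>
        obtain ⟨e, ⟨he1, he2⟩, hcase⟩ := hst
        have hadj' : Adj (↑F ∩ ↑(RE 0 m 0 (2 * n))) u u' := ⟨e, he1, hcase⟩
        obtain ⟨i1, i2⟩ := inR_of_adj u u' hadj'
        obtain ⟨x, y, k1, k2, k3, k4, k5, k6⟩ := share u u' i1 i2 hadj'
        have hT' : ¬ TT n (KK n F) u' := by
          rcases hcase with ⟨h1, h2⟩ | ⟨h1, h2⟩
          · rw [← h2]; exact he2.2
          · rw [← h1]; exact he2.1
        exact spread _ _ x y i2.1.1 hT' k3 k4 k5 k6 (ih x y k1 k2 k5 k6)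
    have hPv := walk v hpath
    obtain ⟨i1, i2⟩ := inR_of_adj v w hadj
    obtain ⟨gx, gy, k1, k2, k3, k4, k5, k6⟩ := share v w i1 i2 hadj
    have hgs : s gx gy = 0 := hPv gx gy k1 k2 k5 k6
    have hgD : ¬ Dual0 n F (gx, gy) := by
      intro h
      exact hvT (corner _ _ gx gy i1.1.1 h k1 k2)
    -- `w` is in the square
    obtain ⟨e, heK, hew⟩ := hwW
    rw [mem_KK] at heK
    obtain ⟨heT, heD⟩ := heK
    obtain ⟨a, b⟩ := w
    have hwb : 0 ≤ a ∧ a ≤ n ∧ 0 ≤ b ∧ b ≤ n := by
      obtain ⟨x1, y1, bo⟩ := e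
      cases bo
      · have hm' : 0 ≤ x1 ∧ x1 ≤ n ∧ 0 ≤ y1 ∧ y1 < n := by simpa using heT
        simp only [src_mk, tgt_false, Prod.mk.injEq] at hew
        rcases hew with h | h <;> omega
      · have hm' : 0 ≤ x1 ∧ x1 < n ∧ 0 < y1 ∧ y1 < n := by simpa using heT
        simp only [src_mk, tgt_true, Prod.mk.injEq] at hew
        rcases hew with h | h <;> omega
    have hfw : fold n (a, b) = (a, b) := by
      simp only [fold, Prod.mk.injEq, true_and]
      omega
    rw [hfw] at k3 k4
    simp only at k3 k4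
    -- a face of `D` next to `w`
    obtain ⟨fx, fy, l1, l2, l3⟩ : ∃ x y, (x = a - 1 ∨ x = a) ∧ (y = b - 1 ∨ y = b) ∧
        Dual0 n F (x, y) := by
      obtain ⟨x1, y1, bo⟩ := e
      cases bo
      · simp only [src_mk, tgt_false, Prod.mk.injEq] at hew
        simp only [dsrc_false, dtgt_mk] at heD
        rcases heD with h | h
        · exact ⟨x1 - 1, y1, by omega, by omega, h⟩
        · exact ⟨x1, y1, by omega, by omega, h⟩
      · simp only [src_mk, tgt_true, Prod.mk.injEq] at hew
        simp only [dsrc_true, dtgt_mk] at heD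
        rcases heD with h | h
        · exact ⟨x1, y1 - 1, by omega, by omega, h⟩
        · exact ⟨x1, y1, by omega, by omega, h⟩
    obtain ⟨⟨m1, m2, m3⟩, hfs⟩ := s_D _ l3
    simp only at m1 m2 m3 hfs
    -- `s + 1_D` is constant around `w`
    set κ : ℤ → ℤ → ZMod 2 := fun x y => s x y + b2 (Dual0 n F (x, y)) with hκ
    have κH : ∀ y, (y = b - 1 ∨ y = b) → 0 ≤ y → y < n → κ a y = κ (a - 1) y := by
      intro y hy h0 h1
      simp only [hκ]
      have hc : C (src (a, y, false)) ∨ C (tgt (a, y, false)) := by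
        rcases hy with hy | hy
        · right; rw [tgt_false, hy]; simpa using hCw
        · left; rw [src_mk, hy]; exact hCw
      have e1 := z_eq (a, y, false) (by simp only [mem_TBE_false]; omega) hc
      simp only [dsrc_false, dtgt_mk] at e1
      rw [sH a y hwb.1, e1]
      have f1 := zmod2_add_self (b2 (Dual0 n F (a, y)))
      linear_combination f1
    have κV : ∀ x, (x = a - 1 ∨ x = a) → 0 < b → b < n → κ x b = κ x (b - 1) := by
      intro x hx h0 h1
      simp only [hκ]
      have e0 := sV x b (by omega) h0 h1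
      have f1 := zmod2_add_self (s x (b - 1))
      by_cases hx1 : x = -1
      · subst hx1
        rw [s_neg, s_neg, b2_of (D1 b (by omega) h1), b2_of (D1 (b - 1) (by omega) (by omega))]
      by_cases hx2 : x = n
      · subst hx2
        rw [s_big x b le_rfl (by omega) h1, s_big x (b - 1) le_rfl (by omega) (by omega),
          b2_not_of (hgood b (by omega) h1), b2_not_of (hgood (b - 1) (by omega) (by omega))]
      have hc : C (src (x, b, true)) ∨ C (tgt (x, b, true)) := by
        rcases hx with hx | hx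
        · right; rw [tgt_true, hx]; simpa using hCw
        · left; rw [src_mk, hx]; exact hCw
      have e1 := z_eq (x, b, true) (by simp only [mem_TBE_true]; omega) hc
      simp only [dsrc_true, dtgt_mk] at e1
      rw [e1] at e0
      have f2 := zmod2_add_self (b2 (Dual0 n F (x, b)))
      linear_combination e0 - f1 + f2
    have κall : ∀ x y x' y', (x = a - 1 ∨ x = a) → (y = b - 1 ∨ y = b) → 0 ≤ y → y < n →
        (x' = a - 1 ∨ x' = a) → (y' = b - 1 ∨ y' = b) → 0 ≤ y' → y' < n → κ x y = κ x' y' := by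
      intro x y x' y' hx hy h0 h1 hx' hy' h0' h1'
      have r1 : κ x y = κ a y := by
        rcases hx with hx | hx
        · rw [hx, ← κH y hy h0 h1]
        · rw [hx]
      have r2 : κ x' y' = κ a y' := by
        rcases hx' with hx | hx
        · rw [hx, ← κH y' hy' h0' h1']
        · rw [hx]
      rw [r1, r2]
      rcases hy with hy | hy <;> rcases hy' with hy' | hy'
      · rw [hy, hy']
      · rw [hy, hy', κV a (Or.inr rfl) (by omega) (by omega)]
      · rw [hy, hy', κV a (Or.inr rfl) (by omega) (by omega)]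
      · rw [hy, hy']
    have hfin := κall fx fy gx gy l1 l2 m2 m3 k3 k4 k5 k6
    simp only [hκ] at hfin
    rw [hfs, hgs, b2_of l3, b2_not_of hgD] at hfin
    exact absurd hfin (by decide)
  -- hence `C` meets bottom and top
  have hbot : ∃ x, C (x, 0) := by
    by_contra hno
    push Not at hno
    apply main
    simp only [hs]
    apply Finset.sum_eq_zero
    intro i _
    exact z_notC _ (Or.inl (hno i))
  have htop : ∃ x, C (x, n) := by
    by_contra hno
    push Not at hno
    apply main
    rw [← hqall (n - 1) (by omega) (by omega)]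
    simp only [hs]
    apply Finset.sum_eq_zero
    intro i _
    apply z_notC _ (Or.inr _)
    rw [tgt_false]
    simpa using hno i
  obtain ⟨x, hx⟩ := hbot
  obtain ⟨x', hx'⟩ := htop
  -- all vertices of `C` lie in the square
  have Cin : ∀ u, C u → inR 0 n 0 n w → inR 0 n 0 n u := by
    intro u hu hw
    induction hu with
    | refl => exact hw
    | @tail g g' _ hst ih =>
      obtain ⟨⟨x1, y1, bo⟩, ⟨heT, -⟩, hcase⟩ := hst
      unfold inR
      cases bo
      · have hm' : 0 ≤ x1 ∧ x1 ≤ n ∧ 0 ≤ y1 ∧ y1 < n := by simpa using heT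
        simp only [src_mk, tgt_false] at hcase
        rcases hcase with ⟨h1, h2⟩ | ⟨h1, h2⟩
        · rw [← h2]; simp only; omega
        · rw [← h1]; simp only; omega
      · have hm' : 0 ≤ x1 ∧ x1 < n ∧ 0 < y1 ∧ y1 < n := by simpa using heT
        simp only [src_mk, tgt_true] at hcase
        rcases hcase with ⟨h1, h2⟩ | ⟨h1, h2⟩
        · rw [← h2]; simp only; omega
        · rw [← h1]; simp only; omega
  have hwin : inR 0 n 0 n w := by
    obtain ⟨⟨x1, y1, bo⟩, heK, hew⟩ := hwW
    rw [mem_KK] at heK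
    obtain ⟨heT, -⟩ := heK
    unfold inR
    cases bo
    · have hm' : 0 ≤ x1 ∧ x1 ≤ n ∧ 0 ≤ y1 ∧ y1 < n := by simpa using heT
      simp only [src_mk, tgt_false] at hew
      rcases hew with h | h <;> (rw [← h]; simp only; omega)
    · have hm' : 0 ≤ x1 ∧ x1 < n ∧ 0 < y1 ∧ y1 < n := by simpa using heT
      simp only [src_mk, tgt_true] at hew
      rcases hew with h | h <;> (rw [← h]; simp only; omega)
  have i1 := Cin _ hx hwin
  have i2 := Cin _ hx' hwin
  have hsubT : B ⊆ ↑F ∩ ↑(TBE 0 n 0 n) := fun e he => ⟨hBF e he, he.1⟩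
  have hTR : (↑F : Set Edg) ∩ ↑(TBE 0 n 0 n) ⊆ ↑F ∩ ↑(RE 0 m 0 (2 * n)) := by
    rintro ⟨x, y, _ | _⟩ ⟨h7, h8⟩
    · refine ⟨h7, ?_⟩
      simp only [mem_coe, mem_RE_false, mem_TBE_false] at h8 ⊢; omega
    · refine ⟨h7, ?_⟩
      simp only [mem_coe, mem_RE_true, mem_TBE_true] at h8 ⊢; omega
  refine ⟨x, x', y0, i1.1, i2.1, hy0, ?_, ?_⟩
  · exact (hx.symm.trans hx').mono hsubT
  · refine (hpath.mono Set.inter_subset_left).trans (hadj.reach.trans ?_)
    exact (hx.mono hsubT).mono hTR

end H99L
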