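import Pool.Agent.H99.L.Lattice

/-!
Symmetries of the square lattice and their action on connections and probabilities.
-/

namespace H99L

open Finset

/-- A symmetry of the square lattice. -/
structure LSym where
  φ : Edg ≃ Edg
  ψ : Vtx ≃ Vtx
  compat : ∀ e, (src (φ e) = ψ (src e) ∧ tgt (φ e) = ψ (tgt e)) ∨
    (src (φ e) = ψ (tgt e) ∧ tgt (φ e) = ψ (src e))

/-- The inverse symmetry. -/
def LSym.inv (g : LSym) : LSym where
  φ := g.φ.symm
  ψ := g.ψ.symm
  compat := by
    intro e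
    have h := g.compat (g.φ.symm e)
    rw [Equiv.apply_symm_apply] at h
    rcases h with ⟨h1, h2⟩ | ⟨h1, h2⟩
    · left
      rw [h1, h2, Equiv.symm_apply_apply, Equiv.symm_apply_apply]
      exact ⟨rfl, rfl⟩
    · right
      rw [h1, h2, Equiv.symm_apply_apply, Equiv.symm_apply_apply]
      exact ⟨rfl, rfl⟩

theorem LSym.adj (g : LSym) {F : Set Edg} {u v : Vtx} (h : Adj F u v) :
    Adj (g.φ '' F) (g.ψ u) (g.ψ v) := by
  obtain ⟨e, he, hcase⟩ := h
  refine ⟨g.φ e, Set.mem_image_of_mem _ he, ?_⟩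
  rcases g.compat e with ⟨h1, h2⟩ | ⟨h1, h2⟩ <;> rcases hcase with ⟨h3, h4⟩ | ⟨h3, h4⟩ <;>
    rw [h1, h2, h3, h4] <;> simp

theorem LSym.reach (g : LSym) {F : Set Edg} {u v : Vtx} (h : Reach F u v) :
    Reach (g.φ '' F) (g.ψ u) (g.ψ v) := by
  induction h with
  | refl => exact Reach.refl _ _
  | tail _ hs ih => exact ih.trans (g.adj hs).reach

theorem LSym.reach_iff (g : LSym) {F : Set Edg} {u v : Vtx} :
    Reach (g.φ '' F) (g.ψ u) (g.ψ v) ↔ Reach F u v := by
  constructor
  · intro h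
    have := g.inv.reach h
    simpa [LSym.inv, Set.image_image] using this
  · exact g.reach

/-- Image of a configuration. -/
def LSym.mp (g : LSym) (F : Finset Edg) : Finset Edg := F.map g.φ.toEmbedding

theorem LSym.coe_mp (g : LSym) (F : Finset Edg) : (↑(g.mp F) : Set Edg) = g.φ '' ↑F := by
  simp [LSym.mp]

theorem LSym.mem_mp (g : LSym) {F : Finset Edg} {e : Edg} :
    e ∈ g.mp F ↔ g.φ.symm e ∈ F := by
  simp only [LSym.mp, Finset.mem_map, Equiv.coe_toEmbedding]
  constructor
  · rintro ⟨a, ha, rfl⟩; simpa using ha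
  · intro h; exact ⟨_, h, by simp⟩

theorem LSym.mp_inter (g : LSym) (F G : Finset Edg) : g.mp (F ∩ G) = g.mp F ∩ g.mp G := by
  ext e; simp [LSym.mem_mp]

theorem LSym.mp_sdiff (g : LSym) (F G : Finset Edg) : g.mp (F \ G) = g.mp F \ g.mp G := by
  ext e; simp [LSym.mem_mp]

theorem LSym.mp_mono (g : LSym) {F G : Finset Edg} (h : F ⊆ G) : g.mp F ⊆ g.mp G := by
  intro e he
  rw [LSym.mem_mp] at he ⊢
  exact h he

/-- Probabilities are invariant under symmetries. -/
theorem LSym.pr (g : LSym) (q : ℝ) (S : Finset Edg) (A : Finset Edg → Prop) :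
    Pr (fun _ => q) (g.mp S) A = Pr (fun _ => q) S (fun F => A (g.mp F)) :=
  Pr_map _ _ _ _

/-- Translation. -/
def trl (s t : ℤ) : LSym where
  φ := { toFun := fun e => (e.1 + s, e.2.1 + t, e.2.2)
         invFun := fun e => (e.1 - s, e.2.1 - t, e.2.2)
         left_inv := by intro e; simp
         right_inv := by intro e; simp }
  ψ := { toFun := fun u => (u.1 + s, u.2 + t)
         invFun := fun u => (u.1 - s, u.2 - t)
         left_inv := by intro e; simp
         right_inv := by intro e; simp }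
  compat := by
    rintro ⟨x, y, _ | _⟩
    · left; simp; ring
    · left; simp; ring

/-- Transposition. -/
def tps : LSym where
  φ := { toFun := fun e => (e.2.1, e.1, !e.2.2)
         invFun := fun e => (e.2.1, e.1, !e.2.2)
         left_inv := by intro e; simp
         right_inv := by intro e; simp }
  ψ := { toFun := fun u => (u.2, u.1)
         invFun := fun u => (u.2, u.1)
         left_inv := by intro e; simp
         right_inv := by intro e; simp }
  compat := by
    rintro ⟨x, y, _ | _⟩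
    · left; simp
    · left; simp

/-- Reflection `y ↦ k - y`. -/
def rfy (k : ℤ) : LSym where
  φ := { toFun := fun e => if e.2.2 then (e.1, k - e.2.1, true) else (e.1, k - e.2.1 - 1, false)
         invFun := fun e => if e.2.2 then (e.1, k - e.2.1, true) else (e.1, k - e.2.1 - 1, false)
         left_inv := by rintro ⟨x, y, _ | _⟩ <;> (simp; try ring)
         right_inv := by rintro ⟨x, y, _ | _⟩ <;> (simp; try ring) }
  ψ := { toFun := fun u => (u.1, k - u.2)
         invFun := fun u => (u.1, k - u.2)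
         left_inv := by intro e; simp
         right_inv := by intro e; simp }
  compat := by
    rintro ⟨x, y, _ | _⟩
    · right; simp; ring
    · left; simp

/-- Reflection `x ↦ k - x`. -/
def rfx (k : ℤ) : LSym where
  φ := { toFun := fun e => if e.2.2 then (k - e.1 - 1, e.2.1, true) else (k - e.1, e.2.1, false)
         invFun := fun e => if e.2.2 then (k - e.1 - 1, e.2.1, true) else (k - e.1, e.2.1, false)
         left_inv := by rintro ⟨x, y, _ | _⟩ <;> (simp; try ring)
         right_inv := by rintro ⟨x, y, _ | _⟩ <;> (simp; try ring) }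
  ψ := { toFun := fun u => (k - u.1, u.2)
         invFun := fun u => (k - u.1, u.2)
         left_inv := by intro e; simp
         right_inv := by intro e; simp }
  compat := by
    rintro ⟨x, y, _ | _⟩
    · left; simp
    · right; simp; ring

@[simp] theorem trl_φ (s t x y : ℤ) (b : Bool) : (trl s t).φ (x, y, b) = (x + s, y + t, b) := rfl
@[simp] theorem trl_φs (s t x y : ℤ) (b : Bool) :
    (trl s t).φ.symm (x, y, b) = (x - s, y - t, b) := rfl
@[simp] theorem trl_ψ (s t x y : ℤ) : (trl s t).ψ (x, y) = (x + s, y + t) := rfl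
@[simp] theorem tps_φ (x y : ℤ) (b : Bool) : tps.φ (x, y, b) = (y, x, !b) := rfl
@[simp] theorem tps_φs (x y : ℤ) (b : Bool) : tps.φ.symm (x, y, b) = (y, x, !b) := rfl
@[simp] theorem tps_ψ (x y : ℤ) : tps.ψ (x, y) = (y, x) := rfl
@[simp] theorem rfy_φt (k x y : ℤ) : (rfy k).φ (x, y, true) = (x, k - y, true) := rfl
@[simp] theorem rfy_φf (k x y : ℤ) : (rfy k).φ (x, y, false) = (x, k - y - 1, false) := rfl
@[simp] theorem rfy_φst (k x y : ℤ) : (rfy k).φ.symm (x, y, true) = (x, k - y, true) := rfl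
@[simp] theorem rfy_φsf (k x y : ℤ) : (rfy k).φ.symm (x, y, false) = (x, k - y - 1, false) := rfl
@[simp] theorem rfy_ψ (k x y : ℤ) : (rfy k).ψ (x, y) = (x, k - y) := rfl
@[simp] theorem rfx_φt (k x y : ℤ) : (rfx k).φ (x, y, true) = (k - x - 1, y, true) := rfl
@[simp] theorem rfx_φf (k x y : ℤ) : (rfx k).φ (x, y, false) = (k - x, y, false) := rfl
@[simp] theorem rfx_φst (k x y : ℤ) : (rfx k).φ.symm (x, y, true) = (k - x - 1, y, true) := rfl
@[simp] theorem rfx_φsf (k x y : ℤ) : (rfx k).φ.symm (x, y, false) = (k - x, y, false) := rfl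
@[simp] theorem rfx_ψ (k x y : ℤ) : (rfx k).ψ (x, y) = (k - x, y) := rfl

/-- The duality map on edges. -/
def dl : Edg ≃ Edg where
  toFun e := if e.2.2 then (e.1, e.2.1 - 1, false) else (e.1 - 1, e.2.1, true)
  invFun e := if e.2.2 then (e.1 + 1, e.2.1, false) else (e.1, e.2.1 + 1, true)
  left_inv := by rintro ⟨x, y, _ | _⟩ <;> simp
  right_inv := by rintro ⟨x, y, _ | _⟩ <;> simp

@[simp] theorem dl_t (x y : ℤ) : dl (x, y, true) = (x, y - 1, false) := rfl
@[simp] theorem dl_f (x y : ℤ) : dl (x, y, false) = (x - 1, y, true) := rfl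
@[simp] theorem dls_t (x y : ℤ) : dl.symm (x, y, true) = (x + 1, y, false) := rfl
@[simp] theorem dls_f (x y : ℤ) : dl.symm (x, y, false) = (x, y + 1, true) := rfl

theorem src_dl (e : Edg) : src (dl e) = dsrc e := by
  obtain ⟨x, y, _ | _⟩ := e <;> simp

theorem tgt_dl (e : Edg) : tgt (dl e) = dtgt e := by
  obtain ⟨x, y, _ | _⟩ := e <;> simp

theorem adj_dl {F : Set Edg} {u v : Vtx} : Adj (dl '' F) u v ↔ DAdj F u v := by
  constructor
  · rintro ⟨e, ⟨e', he', rfl⟩, h⟩
    rw [src_dl, tgt_dl] at h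
    exact ⟨e', he', h⟩
  · rintro ⟨e, he, h⟩
    refine ⟨dl e, Set.mem_image_of_mem _ he, ?_⟩
    rwa [src_dl, tgt_dl]

theorem reach_dl {F : Set Edg} {u v : Vtx} : Reach (dl '' F) u v ↔ DReach F u v := by
  constructor
  · intro h
    induction h with
    | refl => exact DReach.refl _ _
    | tail _ hs ih => exact ih.trans (adj_dl.mp hs).reach
  · intro h
    induction h with
    | refl => exact Reach.refl _ _
    | tail _ hs ih => exact ih.trans (adj_dl.mpr hs).reach

/-- Image of a configuration under duality. -/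
def dmp (F : Finset Edg) : Finset Edg := F.map dl.toEmbedding

theorem coe_dmp (F : Finset Edg) : (↑(dmp F) : Set Edg) = dl '' ↑F := by
  simp [dmp]

theorem mem_dmp {F : Finset Edg} {e : Edg} : e ∈ dmp F ↔ dl.symm e ∈ F := by
  simp only [dmp, Finset.mem_map, Equiv.coe_toEmbedding]
  constructor
  · rintro ⟨a, ha, rfl⟩; simpa using ha
  · intro h; exact ⟨_, h, by simp⟩

theorem pr_dmp (q : ℝ) (S : Finset Edg) (A : Finset Edg → Prop) :
    Pr (fun _ => q) (dmp S) A = Pr (fun _ => q) S (fun F => A (dmp F)) :=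
  Pr_map _ _ _ _

/-! ### Images of rectangles -/

theorem trl_LRE (s t a b c d : ℤ) : (trl s t).mp (LRE a b c d) = LRE (a + s) (b + s) (c + t) (d + t) := by
  ext ⟨x, y, _ | _⟩ <;> simp only [LSym.mem_mp, trl_φs, mem_LRE_false, mem_LRE_true] <;> omega

theorem trl_TBE (s t a b c d : ℤ) : (trl s t).mp (TBE a b c d) = TBE (a + s) (b + s) (c + t) (d + t) := by
  ext ⟨x, y, _ | _⟩ <;> simp only [LSym.mem_mp, trl_φs, mem_TBE_false, mem_TBE_true] <;> omega

theorem trl_RE (s t a b c d : ℤ) : (trl s t).mp (RE a b c d) = RE (a + s) (b + s) (c + t) (d + t) := by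
  ext ⟨x, y, _ | _⟩ <;> simp only [LSym.mem_mp, trl_φs, mem_RE_false, mem_RE_true] <;> omega

theorem tps_LRE (a b c d : ℤ) : tps.mp (LRE a b c d) = TBE c d a b := by
  ext ⟨x, y, _ | _⟩ <;>
    simp only [LSym.mem_mp, tps_φs, Bool.not_false, Bool.not_true, mem_LRE_true, mem_LRE_false,
      mem_TBE_false, mem_TBE_true] <;> omega

theorem tps_TBE (a b c d : ℤ) : tps.mp (TBE a b c d) = LRE c d a b := by
  ext ⟨x, y, _ | _⟩ <;>
    simp only [LSym.mem_mp, tps_φs, Bool.not_false, Bool.not_true, mem_LRE_true, mem_LRE_false,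
      mem_TBE_false, mem_TBE_true] <;> omega

theorem tps_RE (a b c d : ℤ) : tps.mp (RE a b c d) = RE c d a b := by
  ext ⟨x, y, _ | _⟩ <;>
    simp only [LSym.mem_mp, tps_φs, Bool.not_false, Bool.not_true, mem_RE_true,
      mem_RE_false] <;> omega

theorem rfy_LRE (k a b c d : ℤ) : (rfy k).mp (LRE a b c d) = LRE a b (k - d) (k - c) := by
  ext ⟨x, y, _ | _⟩ <;>
    simp only [LSym.mem_mp, rfy_φst, rfy_φsf, mem_LRE_true, mem_LRE_false] <;> omega

theorem rfy_TBE (k a b c d : ℤ) : (rfy k).mp (TBE a b c d) = TBE a b (k - d) (k - c) := by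
  ext ⟨x, y, _ | _⟩ <;>
    simp only [LSym.mem_mp, rfy_φst, rfy_φsf, mem_TBE_true, mem_TBE_false] <;> omega

theorem rfy_RE (k a b c d : ℤ) : (rfy k).mp (RE a b c d) = RE a b (k - d) (k - c) := by
  ext ⟨x, y, _ | _⟩ <;>
    simp only [LSym.mem_mp, rfy_φst, rfy_φsf, mem_RE_true, mem_RE_false] <;> omega

theorem rfx_LRE (k a b c d : ℤ) : (rfx k).mp (LRE a b c d) = LRE (k - b) (k - a) c d := by
  ext ⟨x, y, _ | _⟩ <;>
    simp only [LSym.mem_mp, rfx_φst, rfx_φsf, mem_LRE_true, mem_LRE_false] <;> omega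

theorem rfx_TBE (k a b c d : ℤ) : (rfx k).mp (TBE a b c d) = TBE (k - b) (k - a) c d := by
  ext ⟨x, y, _ | _⟩ <;>
    simp only [LSym.mem_mp, rfx_φst, rfx_φsf, mem_TBE_true, mem_TBE_false] <;> omega

theorem rfx_RE (k a b c d : ℤ) : (rfx k).mp (RE a b c d) = RE (k - b) (k - a) c d := by
  ext ⟨x, y, _ | _⟩ <;>
    simp only [LSym.mem_mp, rfx_φst, rfx_φsf, mem_RE_true, mem_RE_false] <;> omega

theorem dmp_LRE (a b c d : ℤ) : dmp (LRE a b c d) = TBE a (b - 1) (c - 1) d := by
  ext ⟨x, y, _ | _⟩ <;>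
    simp only [mem_dmp, dls_t, dls_f, mem_LRE_true, mem_LRE_false, mem_TBE_true,
      mem_TBE_false] <;> omega

theorem dmp_TBE (a b c d : ℤ) : dmp (TBE a b c d) = LRE (a - 1) b c (d - 1) := by
  ext ⟨x, y, _ | _⟩ <;>
    simp only [mem_dmp, dls_t, dls_f, mem_LRE_true, mem_LRE_false, mem_TBE_true,
      mem_TBE_false] <;> omega

end H99L
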